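import Mathlib

/-!
The local argument: orders of the coordinates along a chain of Kummer-like relations.
-/

set_option autoImplicit false

namespace Pool.Agent.CurveDeg

open WithZero

variable {E : Type*} [Field E] (v : Valuation E ℤᵐ⁰)

/-- The logarithm of the valuation. -/
def lg (z : E) : ℤ := WithZero.log (v z)

lemma lg_mul {y z : E} (hy : y ≠ 0) (hz : z ≠ 0) : lg v (y * z) = lg v y + lg v z := by
  unfold lg
  rw [map_mul, WithZero.log_mul ((v.ne_zero_iff).2 hy) ((v.ne_zero_iff).2 hz)]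

lemma lg_one : lg v (1 : E) = 0 := by
  unfold lg
  rw [map_one, WithZero.log_one]

lemma lg_pow {y : E} (n : ℕ) : lg v (y ^ n) = n * lg v y := by
  unfold lg
  rw [map_pow, WithZero.log_pow, nsmul_eq_mul]

lemma lg_div {y z : E} (hy : y ≠ 0) (hz : z ≠ 0) : lg v (y / z) = lg v y - lg v z := by
  have h : lg v (y / z * z) = lg v (y / z) + lg v z := lg_mul v (div_ne_zero hy hz) hz
  rw [div_mul_cancel₀ _ hz] at h
  linarith

/-- In a sum of elements whose nonzero terms have pairwise distinct orders, one term dominates. -/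
lemma sum_distinct {ι : Type*} (J : Finset ι) (T : ι → E) (hne : ∃ j ∈ J, T j ≠ 0)
    (hd : ∀ j ∈ J, ∀ j' ∈ J, T j ≠ 0 → T j' ≠ 0 → lg v (T j) = lg v (T j') → j = j') :
    ∃ j₀ ∈ J, T j₀ ≠ 0 ∧ ∑ j ∈ J, T j ≠ 0 ∧ lg v (∑ j ∈ J, T j) = lg v (T j₀) := by
  classical
  obtain ⟨j₁, hj₁, hT₁⟩ := hne
  obtain ⟨j₀, hj₀, hmax⟩ := J.exists_max_image (fun j => v (T j)) ⟨j₁, hj₁⟩
  have h0 : v (T j₀) ≠ 0 := by
    intro h
    have h1 := hmax j₁ hj₁
    rw [h] at h1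
    exact ((v.ne_zero_iff).2 hT₁) (le_antisymm h1 zero_le)
  have hT₀ : T j₀ ≠ 0 := (v.ne_zero_iff).1 h0
  have hlt : ∀ j ∈ J.erase j₀, v (T j) < v (T j₀) := by
    intro j hj
    obtain ⟨hne, hjJ⟩ := Finset.mem_erase.1 hj
    refine lt_of_le_of_ne (hmax j hjJ) fun h => hne ?_
    refine hd j hjJ j₀ hj₀ ?_ hT₀ ?_
    · intro h1
      rw [h1, map_zero] at h
      exact h0 h.symm
    · unfold lg; rw [h]
  have h1 : v (∑ j ∈ J.erase j₀, T j) < v (T j₀) := v.map_sum_lt h0 hlt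
  have h2 : v (∑ j ∈ J, T j) = v (T j₀) := by
    rw [← Finset.add_sum_erase J T hj₀]
    exact v.map_add_eq_of_lt_left h1
  refine ⟨j₀, hj₀, hT₀, ?_, ?_⟩
  · rw [← v.ne_zero_iff, h2]; exact h0
  · unfold lg; rw [h2]

lemma isCoprime_of_lt {p : ℕ} (hp : p.Prime) {a b : ℕ} (ha : a < p) (hb : b < p) (hab : a ≠ b) :
    IsCoprime ((a : ℤ) - b) (p : ℤ) := by
  rw [isCoprime_comm]
  refine (Prime.coprime_iff_not_dvd (Nat.prime_iff_prime_int.1 hp)).2 fun h => ?_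
  have h1 := Int.eq_zero_of_abs_lt_dvd h (by
    rw [abs_lt]
    constructor
    · have : (b : ℤ) < p := by exact_mod_cast hb
      have : (0 : ℤ) ≤ a := by positivity
      linarith
    · have : (a : ℤ) < p := by exact_mod_cast ha
      have : (0 : ℤ) ≤ b := by positivity
      linarith)
  apply hab
  have : (a : ℤ) = b := by linarith
  exact_mod_cast this

lemma isCoprime_natCast_of_lt {p : ℕ} (hp : p.Prime) {a : ℕ} (ha : a < p) (ha0 : 1 ≤ a) :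
    IsCoprime (a : ℤ) (p : ℤ) := by
  have := isCoprime_of_lt hp ha hp.pos (by omega : a ≠ 0)
  simpa using this

/-- A nonzero integer smaller than `p ^ (δ + 1)` in absolute value is `p ^ s` times a unit modulo
`p` with `s ≤ δ`. -/
lemma exists_val {p δ : ℕ} (hp : p.Prime) {a b : ℕ} (ha : a < p ^ (δ + 1)) (hb : b < p ^ (δ + 1))
    (hab : a ≠ b) : ∃ (s : ℕ) (c : ℤ), (a : ℤ) - b = (p : ℤ) ^ s * c ∧ IsCoprime c (p : ℤ) ∧
      s ≤ δ := by
  have h0 : ((a : ℤ) - b).natAbs ≠ 0 := by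
    rw [Int.natAbs_ne_zero, sub_ne_zero]
    exact_mod_cast hab
  obtain ⟨s, m, hm, he⟩ := Nat.exists_eq_pow_mul_and_not_dvd h0 p hp.ne_one
  have hlt : ((a : ℤ) - b).natAbs < p ^ (δ + 1) := by omega
  have hs : s ≤ δ := by
    by_contra hc
    push Not at hc
    have h1 : p ^ (δ + 1) ≤ p ^ s := Nat.pow_le_pow_right hp.pos hc
    have h2 : 0 < m := Nat.pos_of_ne_zero (by rintro rfl; exact hm (dvd_zero _))
    have h3 : p ^ s ≤ p ^ s * m := Nat.le_mul_of_pos_right _ h2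
    omega
  have hco : IsCoprime (m : ℤ) (p : ℤ) := by
    rw [isCoprime_comm]
    refine (Prime.coprime_iff_not_dvd (Nat.prime_iff_prime_int.1 hp)).2 fun h => hm ?_
    exact_mod_cast h
  rcases Int.natAbs_eq ((a : ℤ) - b) with h | h
  · exact ⟨s, m, by rw [h, he]; push_cast; ring, hco, hs⟩
  · exact ⟨s, -m, by rw [h, he]; push_cast; ring, hco.neg_left, hs⟩

/-- One step of the chain. -/
lemma chain_step {p L L' : ℕ} (hp : p.Prime) {ι : Type*} (J : Finset ι) (a : ι → ℕ)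
    (ha : ∀ j ∈ J, IsCoprime (a j : ℤ) (p : ℤ))
    (hpair : ∀ j ∈ J, ∀ j' ∈ J, j ≠ j' → ∃ (s : ℕ) (c : ℤ),
      (a j : ℤ) - a j' = (p : ℤ) ^ s * c ∧ IsCoprime c (p : ℤ) ∧ s + L' ≤ L)
    (U : ι → E) (y w : E) (q q' : ℕ) (hq' : q' ≠ 0)
    (hq : ∀ j ∈ J, a j < q) (heq : w ^ q' = ∑ j ∈ J, y ^ a j * U j ^ (q - a j)) (hy : y ≠ 0)
    (hJ : ∃ j ∈ J, U j ≠ 0) (hU : ∀ j ∈ J, U j ≠ 0 → ((p : ℤ) ^ L) ∣ lg v (U j)) (t : ℤ)
    (ht : ¬ ((p : ℤ) ^ L') ∣ t) (A c : ℤ) (hc : IsCoprime c (p : ℤ))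
    (hA : ((p : ℤ) ^ L) ∣ A * lg v y - c * t) :
    w ≠ 0 ∧ ∃ c' : ℤ, IsCoprime c' (p : ℤ) ∧ ((p : ℤ) ^ L) ∣ A * q' * lg v w - c' * t := by
  classical
  have hT0 : ∀ j ∈ J, (y ^ a j * U j ^ (q - a j) ≠ 0 ↔ U j ≠ 0) := by
    intro j hj
    have := hq j hj
    have hpos : q - a j ≠ 0 := by omega
    rw [mul_ne_zero_iff]
    exact ⟨fun h => (pow_ne_zero_iff hpos).1 h.2, fun h => ⟨pow_ne_zero _ hy, pow_ne_zero _ h⟩⟩
  have hlgT : ∀ j ∈ J, U j ≠ 0 → lg v (y ^ a j * U j ^ (q - a j)) =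
      a j * lg v y + ((q : ℤ) - a j) * lg v (U j) := by
    intro j hj hUj
    rw [lg_mul v (pow_ne_zero _ hy) (pow_ne_zero _ hUj), lg_pow, lg_pow,
      Nat.cast_sub (hq j hj).le]
  obtain ⟨j₀, hj₀, hT₀, hs0, hs⟩ := sum_distinct v J (fun j => y ^ a j * U j ^ (q - a j)) (by
      obtain ⟨j, hj, hj0⟩ := hJ
      exact ⟨j, hj, (hT0 j hj).2 hj0⟩) (by
      intro j hj j' hj' h h' he
      by_contra hne
      have hUj := (hT0 j hj).1 h
      have hUj' := (hT0 j' hj').1 h'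
      rw [hlgT j hj hUj, hlgT j' hj' hUj'] at he
      obtain ⟨m, hm⟩ := hU j hj hUj
      obtain ⟨m', hm'⟩ := hU j' hj' hUj'
      obtain ⟨s, hs⟩ := hA
      obtain ⟨z, c₁, hz, hc₁, hzL⟩ := hpair j hj j' hj' hne
      have hco : IsCoprime (c₁ * c) ((p : ℤ) ^ L') := IsCoprime.pow_right (hc₁.mul_left hc)
      apply ht
      refine hco.symm.dvd_of_dvd_mul_left ?_
      have h1 : ((a j : ℤ) - a j') * lg v y = ((q : ℤ) - a j') * lg v (U j') -
          ((q : ℤ) - a j) * lg v (U j) := by linarith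
      rw [hm, hm'] at h1
      have h2 : c * t = A * lg v y - (p : ℤ) ^ L * s := by linarith
      have h3 : (p : ℤ) ^ L ∣ (p : ℤ) ^ z * (c₁ * c * t) := by
        refine ⟨A * (((q : ℤ) - a j') * m' - ((q : ℤ) - a j) * m) - ((a j : ℤ) - a j') * s, ?_⟩
        calc (p : ℤ) ^ z * (c₁ * c * t) = ((a j : ℤ) - a j') * (c * t) := by rw [hz]; ring
          _ = A * (((a j : ℤ) - a j') * lg v y) - ((a j : ℤ) - a j') * ((p : ℤ) ^ L * s) := by
            rw [h2]; ring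
          _ = _ := by rw [h1]; ring
      have hp0 : (p : ℤ) ≠ 0 := by exact_mod_cast hp.ne_zero
      have h4 : (p : ℤ) ^ z * (p : ℤ) ^ L' ∣ (p : ℤ) ^ z * (c₁ * c * t) := by
        rw [← pow_add]
        exact (pow_dvd_pow _ hzL).trans h3
      exact (mul_dvd_mul_iff_left (pow_ne_zero _ hp0)).1 h4)
  rw [← heq] at hs hs0
  have hw0 : w ≠ 0 := by
    rintro rfl
    apply hs0
    rw [zero_pow hq']
  refine ⟨hw0, a j₀ * c, (ha j₀ hj₀).mul_left hc, ?_⟩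
  have hU₀ := (hT0 j₀ hj₀).1 hT₀
  rw [lg_pow, hlgT j₀ hj₀ hU₀] at hs
  obtain ⟨m, hm⟩ := hU j₀ hj₀ hU₀
  obtain ⟨s, hs'⟩ := hA
  refine ⟨a j₀ * s + A * ((q : ℤ) - a j₀) * m, ?_⟩
  calc A * q' * lg v w - a j₀ * c * t = A * (q' * lg v w) - a j₀ * (c * t) := by ring
    _ = a j₀ * (A * lg v y - c * t) + A * ((q : ℤ) - a j₀) * lg v (U j₀) := by rw [hs]; ring
    _ = _ := by rw [hs', hm]; ring

/-- The element reached by the chain after the indices `< m`. -/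
def curEl {r : ℕ} (active : Fin r → Prop) [DecidablePred active] (y₀ : E) (W : Fin r → E) :
    ℕ → E
  | 0 => y₀
  | m + 1 => if h : m < r then (if active ⟨m, h⟩ then W ⟨m, h⟩ else curEl active y₀ W m)
      else curEl active y₀ W m

/-- The exponents used by a chain. -/
def usedExp {r : ℕ} (active : Fin r → Prop) [DecidablePred active] (e : Fin r → ℕ) (m : ℕ) : ℕ :=
  if h : m < r then (if active ⟨m, h⟩ then e ⟨m, h⟩ else 0) else 0

lemma sum_usedExp {r : ℕ} (active : Fin r → Prop) [DecidablePred active] (e : Fin r → ℕ) :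
    ∑ i ∈ Finset.range r, usedExp active e i = ∑ i, if active i then e i else 0 := by
  rw [Finset.sum_range]
  refine Finset.sum_congr rfl fun i _ => ?_
  unfold usedExp
  rw [dif_pos i.2]

/-- The state of the chain after the indices `< m`. -/
theorem chain_key {p L L' : ℕ} (hp : p.Prime) {ι : Type*} (J : Finset ι) (a : ι → ℕ)
    (ha : ∀ j ∈ J, IsCoprime (a j : ℤ) (p : ℤ))
    (hpair : ∀ j ∈ J, ∀ j' ∈ J, j ≠ j' → ∃ (s : ℕ) (c : ℤ),
      (a j : ℤ) - a j' = (p : ℤ) ^ s * c ∧ IsCoprime c (p : ℤ) ∧ s + L' ≤ L)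
    (U : ι → E) {r : ℕ} (W : Fin r → E)
    (active : Fin r → Prop) [DecidablePred active] (e : Fin r → ℕ)
    (he : ∀ i, active i → ∀ j ∈ J, a j < p ^ e i)
    (y₀ : E) (hy₀ : y₀ ≠ 0)
    (heq : ∀ i, active i → W i ^ (p ^ e i) =
      ∑ j ∈ J, (curEl active y₀ W i) ^ a j * U j ^ (p ^ e i - a j))
    (hJ : ∃ j ∈ J, U j ≠ 0) (hU : ∀ j ∈ J, U j ≠ 0 → ((p : ℤ) ^ L) ∣ lg v (U j))
    (ht : ¬ ((p : ℤ) ^ L') ∣ lg v y₀) (m : ℕ) :
    curEl active y₀ W m ≠ 0 ∧ ∃ c : ℤ, IsCoprime c (p : ℤ) ∧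
      ((p : ℤ) ^ L) ∣ (p : ℤ) ^ (∑ i ∈ Finset.range m, usedExp active e i) *
        lg v (curEl active y₀ W m) - c * lg v y₀ := by
  classical
  induction m with
  | zero =>
    refine ⟨hy₀, 1, isCoprime_one_left, ?_⟩
    simp [curEl]
  | succ m ih =>
    obtain ⟨h0, c, hc, hdvd⟩ := ih
    rw [Finset.sum_range_succ]
    by_cases hm : m < r
    · by_cases hact : active ⟨m, hm⟩
      · have e1 : curEl active y₀ W (m + 1) = W ⟨m, hm⟩ := by
          rw [curEl, dif_pos hm, if_pos hact]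
        have e2 : usedExp active e m = e ⟨m, hm⟩ := by
          unfold usedExp; rw [dif_pos hm, if_pos hact]
        rw [e1, e2]
        obtain ⟨h1, c', hc', h2⟩ := chain_step v hp J a ha hpair U
          (curEl active y₀ W m) (W ⟨m, hm⟩) (p ^ e ⟨m, hm⟩) (p ^ e ⟨m, hm⟩)
          (pow_pos hp.pos _).ne' (he _ hact) (heq _ hact) h0 hJ hU _ ht _ c hc hdvd
        refine ⟨h1, c', hc', ?_⟩
        rw [pow_add]
        push_cast at h2
        exact h2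
      · have e1 : curEl active y₀ W (m + 1) = curEl active y₀ W m := by
          rw [curEl, dif_pos hm, if_neg hact]
        have e2 : usedExp active e m = 0 := by
          unfold usedExp; rw [dif_pos hm, if_neg hact]
        rw [e1, e2, add_zero]
        exact ⟨h0, c, hc, hdvd⟩
    · have e1 : curEl active y₀ W (m + 1) = curEl active y₀ W m := by
        rw [curEl, dif_neg hm]
      have e2 : usedExp active e m = 0 := by unfold usedExp; rw [dif_neg hm]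
      rw [e1, e2, add_zero]
      exact ⟨h0, c, hc, hdvd⟩

lemma dvd_of_key {p L L' : ℕ} {A z t c : ℤ} (hc : IsCoprime c (p : ℤ)) (hL' : L' ≤ L)
    (hA : ((p : ℤ) ^ L) ∣ A) (h : ((p : ℤ) ^ L) ∣ A * z - c * t) : ((p : ℤ) ^ L') ∣ t := by
  have h1 : ((p : ℤ) ^ L) ∣ c * t := by
    have := dvd_sub (hA.mul_right z) h
    simpa using this
  exact (pow_dvd_pow _ hL').trans ((IsCoprime.pow_right hc).symm.dvd_of_dvd_mul_left h1)

/-- The whole chain. -/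
theorem chain {p L L' : ℕ} (hp : p.Prime) {ι : Type*} (J : Finset ι) (a : ι → ℕ)
    (ha : ∀ j ∈ J, IsCoprime (a j : ℤ) (p : ℤ))
    (hpair : ∀ j ∈ J, ∀ j' ∈ J, j ≠ j' → ∃ (s : ℕ) (c : ℤ),
      (a j : ℤ) - a j' = (p : ℤ) ^ s * c ∧ IsCoprime c (p : ℤ) ∧ s + L' ≤ L)
    (U : ι → E) {r : ℕ} (W : Fin r → E)
    (active : Fin r → Prop) [DecidablePred active] (e : Fin r → ℕ)
    (he : ∀ i, active i → ∀ j ∈ J, a j < p ^ e i)
    (y₀ : E) (hy₀ : y₀ ≠ 0)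
    (heq : ∀ i, active i → W i ^ (p ^ e i) =
      ∑ j ∈ J, (curEl active y₀ W i) ^ a j * U j ^ (p ^ e i - a j))
    (hJ : ∃ j ∈ J, U j ≠ 0) (hU : ∀ j ∈ J, U j ≠ 0 → ((p : ℤ) ^ L) ∣ lg v (U j))
    (hL' : L' ≤ L) (hL : L ≤ ∑ i, if active i then e i else 0) :
    ((p : ℤ) ^ L') ∣ lg v y₀ := by
  by_contra ht
  obtain ⟨_, c, hc, hdvd⟩ := chain_key v hp J a ha hpair U W active e he y₀ hy₀ heq hJ hU ht r
  rw [sum_usedExp] at hdvd
  exact ht (dvd_of_key hc hL' (pow_dvd_pow _ hL) hdvd)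

/-- The chain followed by one more step. -/
theorem chain_last {p L L' : ℕ} (hp : p.Prime) {ι : Type*} (J : Finset ι) (a : ι → ℕ)
    (ha : ∀ j ∈ J, IsCoprime (a j : ℤ) (p : ℤ))
    (hpair : ∀ j ∈ J, ∀ j' ∈ J, j ≠ j' → ∃ (s : ℕ) (c : ℤ),
      (a j : ℤ) - a j' = (p : ℤ) ^ s * c ∧ IsCoprime c (p : ℤ) ∧ s + L' ≤ L)
    (U : ι → E) {r : ℕ} (W : Fin r → E)
    (active : Fin r → Prop) [DecidablePred active] (e : Fin r → ℕ)
    (he : ∀ i, active i → ∀ j ∈ J, a j < p ^ e i)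
    (y₀ : E) (hy₀ : y₀ ≠ 0)
    (heq : ∀ i, active i → W i ^ (p ^ e i) =
      ∑ j ∈ J, (curEl active y₀ W i) ^ a j * U j ^ (p ^ e i - a j))
    (hJ : ∃ j ∈ J, U j ≠ 0) (hU : ∀ j ∈ J, U j ≠ 0 → ((p : ℤ) ^ L) ∣ lg v (U j))
    (w : E) (q x : ℕ) (hx : ∀ j ∈ J, a j < q)
    (hw : w ^ (p ^ x) = ∑ j ∈ J, (curEl active y₀ W r) ^ a j * U j ^ (q - a j))
    (hL' : L' ≤ L) (hL : L ≤ (∑ i, if active i then e i else 0) + x) :
    ((p : ℤ) ^ L') ∣ lg v y₀ := by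
  by_contra ht
  obtain ⟨h0, c, hc, hdvd⟩ := chain_key v hp J a ha hpair U W active e he y₀ hy₀ heq hJ hU ht r
  rw [sum_usedExp] at hdvd
  obtain ⟨_, c', hc', h2⟩ := chain_step v hp J a ha hpair U (curEl active y₀ W r) w q (p ^ x)
    (pow_pos hp.pos _).ne' hx hw h0 hJ hU _ ht _ c hc hdvd
  refine ht (dvd_of_key hc' hL' ?_ h2)
  push_cast
  rw [← pow_add]
  exact pow_dvd_pow _ hL

end Pool.Agent.CurveDeg
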