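import Mathlib

/-!
The rank of a finite extension of `κ(X)` is divisible by `M` if all places over `X = 0` have
ramification divisible by `M`.
-/

set_option autoImplicit false

namespace Pool.Agent.CurveDeg

open Polynomial IsDedekindDomain WithZero

attribute [local instance] FractionRing.liftAlgebra

theorem rank_dvd {κ : Type*} [Field κ] [CharZero κ] {E : Type*} [Field E] [Algebra κ[X] E]
    [FaithfulSMul κ[X] E] [FiniteDimensional (FractionRing κ[X]) E] (M : ℕ)
    (h : ∀ (D : Subalgebra κ[X] E) (_ : D = integralClosure κ[X] E) (_ : IsDedekindDomain D)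
      (_ : IsFractionRing D E) (v : HeightOneSpectrum D),
      v.valuation E (algebraMap κ[X] E X) < 1 →
      (M : ℤ) ∣ WithZero.log (v.valuation E (algebraMap κ[X] E X))) :
    M ∣ Module.finrank κ[X] E := by
  classical
  set D := integralClosure κ[X] E with hD
  have hfin : Module.Finite κ[X] D :=
    IsIntegralClosure.finite κ[X] (FractionRing κ[X]) E D
  have hded : IsDedekindDomain D := integralClosure.isDedekindDomain κ[X] (FractionRing κ[X]) E
  have hfrac : IsFractionRing D E :=
    integralClosure.isFractionRing_of_finite_extension (FractionRing κ[X]) E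
  have hinj : Function.Injective (algebraMap κ[X] D) := by
    have h1 : Function.Injective (algebraMap κ[X] E) := FaithfulSMul.algebraMap_injective _ _
    rw [IsScalarTower.algebraMap_eq κ[X] D E] at h1
    rw [RingHom.coe_comp] at h1
    exact Function.Injective.of_comp h1
  have htf : Module.IsTorsionFree κ[X] D := by
    have : FaithfulSMul κ[X] D := (faithfulSMul_iff_algebraMap_injective _ _).2 hinj
    infer_instance
  rw [← IsFractionRing.finrank_left_eq κ[X] D E]
  set 𝔭 : Ideal κ[X] := Ideal.span {X} with h𝔭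
  have hprime : 𝔭.IsPrime := by
    rw [h𝔭, Ideal.span_singleton_prime X_ne_zero]; exact prime_X
  have hX0 : (X : κ[X]) ≠ 0 := X_ne_zero
  have hXD : algebraMap κ[X] D X ≠ 0 := by
    intro h0; exact hX0 (hinj (by rw [h0, map_zero]))
  have hne : 𝔭.map (algebraMap κ[X] D) ≠ ⊥ := by
    rw [h𝔭, Ideal.map_span, Set.image_singleton, Ne, Ideal.span_singleton_eq_bot]
    exact hXD
  have h𝔭0 : 𝔭 ≠ ⊥ := by
    rw [h𝔭, Ne, Ideal.span_singleton_eq_bot]; exact hX0
  have hmax : 𝔭.IsMaximal := Ring.DimensionLEOne.maximalOfPrime h𝔭0 hprime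
  have hfinp : Finite (𝔭.primesOver D) := by
    have := IsDedekindDomain.primesOver_finite 𝔭 D
    exact this
  have := Fintype.ofFinite (𝔭.primesOver D)
  rw [← Ideal.sum_ramification_inertia_eq_finrank 𝔭 D]
  refine Finset.dvd_sum fun q _ => Dvd.dvd.mul_right ?_ _
  obtain ⟨q, hq1, hq2⟩ := q
  have hqne : q ≠ ⊥ := ne_bot_of_le_ne_bot hne (Ideal.map_le_of_le_comap (q.over_def 𝔭).le)
  set v : HeightOneSpectrum D := ⟨q, hq1, hqne⟩
  have hXq : algebraMap κ[X] D X ∈ q := by
    have : (X : κ[X]) ∈ q.under κ[X] := by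
      rw [← q.over_def 𝔭]; exact Ideal.mem_span_singleton_self _
    exact this
  have hval : v.valuation E (algebraMap κ[X] E X) =
      exp (-(multiplicity q (𝔭.map (algebraMap κ[X] D)) : ℕ) : ℤ) := by
    rw [IsScalarTower.algebraMap_apply κ[X] D E, HeightOneSpectrum.valuation_of_algebraMap,
      HeightOneSpectrum.intValuation_eq_exp_neg_multiplicity v hXD, h𝔭, Ideal.map_span,
      Set.image_singleton]
  have h1 := h D hD hded hfrac v (by
    rw [IsScalarTower.algebraMap_apply κ[X] D E, HeightOneSpectrum.valuation_lt_one_iff_mem]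
    exact hXq)
  rw [hval, WithZero.log_exp, dvd_neg] at h1
  rw [Ideal.IsDedekindDomain.ramificationIdx_eq_multiplicity 𝔭 q hne]
  exact_mod_cast h1

end Pool.Agent.CurveDeg
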