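import Pool.Agent.CurveDeg.Slope
import Pool.Agent.CurveDeg.Ram

/-!
Divisibility of the degree of a curve from congruences between the orders of the coordinates.
-/

set_option autoImplicit false

namespace Pool.Agent.CurveDeg

open MvPolynomial

lemma aeval_scale {σ κ E : Type*} [Field κ] [Field E] [Algebra κ E] (y : σ → E) (t : E) {k : ℕ}
    {s : MvPolynomial σ κ} (hs : s ∈ homogeneousSubmodule σ κ k) :
    aeval (fun i => y i * t) s = aeval y s * t ^ k := by
  rw [aeval_def, aeval_def, eval₂_eq, eval₂_eq, Finset.sum_mul]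
  refine Finset.sum_congr rfl fun d hd => ?_
  rw [mul_assoc]
  congr 1
  simp only [mul_pow]
  rw [Finset.prod_mul_distrib, Finset.prod_pow_eq_pow_sum]
  congr 2
  have h1 : d.degree = k := by
    by_contra hc
    exact (mem_support_iff.1 hd) (IsHomogeneous.coeff_eq_zero hs hc)
  rw [← h1]
  rfl

/-- The function field of the projective variety of a homogeneous prime. -/
theorem exists_field {σ κ : Type} [Field κ] (P : Ideal (MvPolynomial σ κ)) (hp : P.IsPrime)
    (l : MvPolynomial σ κ) (hl : l ∈ homogeneousSubmodule σ κ 1) (hlP : l ∉ P) :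
    ∃ (E : Type) (_ : Field E) (_ : Algebra κ E) (x : σ → E), aeval x l = 1 ∧
      (∀ k, ∀ s ∈ homogeneousSubmodule σ κ k, aeval x s = 0 ↔ s ∈ P) ∧
      (∀ z : E, ∃ a c : MvPolynomial σ κ, aeval x c ≠ 0 ∧ z = aeval x a / aeval x c) := by
  let A := MvPolynomial σ κ ⧸ P
  let KA := FractionRing A
  let mk : MvPolynomial σ κ →ₐ[κ] KA :=
    (IsScalarTower.toAlgHom κ A KA).comp (Ideal.Quotient.mkₐ κ P)
  have hmk : ∀ s, mk s = 0 ↔ s ∈ P := by
    intro s
    change algebraMap A KA (Ideal.Quotient.mk P s) = 0 ↔ _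
    rw [FaithfulSMul.algebraMap_eq_zero_iff, Ideal.Quotient.eq_zero_iff_mem]
  have hmk' : ∀ s, mk s = aeval (fun i => mk (X i)) s := by
    intro s
    have := aeval_unique mk
    exact DFunLike.congr_fun this s
  have hl0 : mk l ≠ 0 := fun h => hlP ((hmk l).1 h)
  let φ : MvPolynomial σ κ →ₐ[κ] KA := aeval (fun i => mk (X i) * (mk l)⁻¹)
  have hφ : ∀ k, ∀ s ∈ homogeneousSubmodule σ κ k, φ s = mk s * (mk l)⁻¹ ^ k := by
    intro k s hs
    rw [hmk' s]
    exact aeval_scale _ _ hs
  have hkp : (RingHom.ker φ).IsPrime := RingHom.ker_isPrime φ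
  let E := FractionRing (MvPolynomial σ κ ⧸ RingHom.ker φ)
  let x : σ → E := fun i => algebraMap (MvPolynomial σ κ ⧸ RingHom.ker φ) E
    (Ideal.Quotient.mk _ (X i))
  have hx : ∀ s, aeval x s = algebraMap (MvPolynomial σ κ ⧸ RingHom.ker φ) E
      (Ideal.Quotient.mk _ s) := by
    intro s
    have := aeval_unique ((IsScalarTower.toAlgHom κ (MvPolynomial σ κ ⧸ RingHom.ker φ) E).comp
      (Ideal.Quotient.mkₐ κ (RingHom.ker φ)))
    exact (DFunLike.congr_fun this s).symm
  refine ⟨E, inferInstance, inferInstance, x, ?_, ?_, ?_⟩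
  · rw [hx]
    have h1 : Ideal.Quotient.mk (RingHom.ker φ) l = Ideal.Quotient.mk (RingHom.ker φ) 1 := by
      rw [Ideal.Quotient.eq, RingHom.mem_ker, map_sub, map_one, hφ 1 l hl, pow_one,
        mul_inv_cancel₀ hl0, sub_self]
    rw [h1, map_one, map_one]
  · intro k s hs
    rw [hx, FaithfulSMul.algebraMap_eq_zero_iff, Ideal.Quotient.eq_zero_iff_mem, RingHom.mem_ker,
      hφ k s hs, mul_eq_zero, hmk]
    have : (mk l)⁻¹ ^ k ≠ 0 := pow_ne_zero _ (inv_ne_zero hl0)
    exact ⟨fun h => h.resolve_right this, fun h => Or.inl h⟩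
  · intro z
    obtain ⟨a, c, hc, rfl⟩ := IsFractionRing.div_surjective (A := MvPolynomial σ κ ⧸ RingHom.ker φ) z
    obtain ⟨a, rfl⟩ := Ideal.Quotient.mk_surjective a
    obtain ⟨c, rfl⟩ := Ideal.Quotient.mk_surjective c
    refine ⟨a, c, ?_, by rw [hx, hx]⟩
    rw [hx]
    exact IsFractionRing.to_map_ne_zero_of_mem_nonZeroDivisors hc

lemma finrank_VV {σ : Type*} [Finite σ] {κ : Type*} [Field κ] {E : Type*} [Field E] [Algebra κ E]
    (P : Ideal (MvPolynomial σ κ)) (x : σ → E) (k : ℕ)
    (h : ∀ s ∈ homogeneousSubmodule σ κ k, aeval x s = 0 ↔ s ∈ P) :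
    Module.finrank κ (VV (κ := κ) x k) = hilb P k := by
  set V := homogeneousSubmodule σ κ k
  set φ := (aeval x : MvPolynomial σ κ →ₐ[κ] E).toLinearMap
  have h0 := hilb_add_part P k
  have h' := (φ.domRestrict V).finrank_range_add_finrank_ker
  rw [LinearMap.range_domRestrict] at h'
  have hk : Module.finrank κ (LinearMap.ker (φ.domRestrict V)) = Module.finrank κ (part P k) := by
    refine LinearEquiv.finrank_eq ?_
    refine LinearEquiv.ofBijective
      ((V.subtype.comp (LinearMap.ker (φ.domRestrict V)).subtype).codRestrict (part P k) ?_) ?_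
    · rintro ⟨⟨y, hy⟩, hy2⟩
      refine mem_part.2 ⟨hy, ?_⟩
      change y ∈ P
      rw [← h y hy]
      have h3 : φ y = 0 := by simpa using hy2
      exact h3
    · constructor
      · intro y z hyz
        have h1 := congrArg Subtype.val hyz
        exact Subtype.ext (Subtype.ext h1)
      · rintro ⟨y, hy⟩
        obtain ⟨h1, h2⟩ := mem_part.1 hy
        refine ⟨⟨⟨y, h1⟩, ?_⟩, ?_⟩
        · simpa [φ] using (h y h1).2 h2
        · rfl
  rw [hk] at h'
  change Module.finrank κ (VV (κ := κ) x k) + _ = Module.finrank κ V at h'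
  change _ = Module.finrank κ V at h0
  omega

lemma evAffine_bounded {h : ℕ → ℕ} {e : ℤ} (he : EvAffine h e) {C : ℕ} (hC : ∀ k, h k ≤ C) :
    e = 0 := by
  have h0 := he.slope_nonneg
  obtain ⟨c, K, he⟩ := he
  have h1 : e ≤ 0 := by
    refine le_of_affine (β := c) (δ := C) K fun m hm => ?_
    rw [← he m hm]
    have := hC m
    have h2 : ((h m : ℕ) : ℤ) ≤ C := by exact_mod_cast this
    linarith
  omega


/-- If the second parameter is algebraic, the Hilbert function is bounded. -/
lemma slope_zero_of_isIntegral {σ : Type*} [Finite σ] {κ : Type*} [Field κ] {E : Type*} [Field E]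
    [Algebra κ E] (x : σ → E) (l : MvPolynomial σ κ) (hl : l ∈ homogeneousSubmodule σ κ 1)
    (hl1 : aeval x l = 1) (b : E) (K : ℕ)
    (hK : ∀ k, K ≤ k → ∀ s ∈ homogeneousSubmodule σ κ (k + 1), ∃ s₁ ∈ homogeneousSubmodule σ κ k,
      ∃ s₂ ∈ homogeneousSubmodule σ κ k, aeval x s = aeval x s₁ * b + aeval x s₂)
    (hb : IsIntegral κ b) (e : ℤ)
    (he : EvAffine (fun k => Module.finrank κ (VV (κ := κ) x k)) e) : e = 0 := by
  set W : Submodule κ E := VV (κ := κ) x K * Subalgebra.toSubmodule (Algebra.adjoin κ {b})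
  have hWfg : W.FG := (Module.Finite.iff_fg.1 (finite_VV (κ := κ) x K)).mul hb.fg_adjoin_singleton
  have hWfin : Module.Finite κ W := Module.Finite.iff_fg.2 hWfg
  have hWb : ∀ z ∈ W, z * b ∈ W := by
    intro z hz
    refine Submodule.mul_induction_on hz ?_ ?_
    · intro m hm n hn
      rw [mul_assoc]
      exact Submodule.mul_mem_mul hm (Subalgebra.mul_mem _ hn (Algebra.self_mem_adjoin_singleton κ b))
    · intro y z hy hz
      rw [add_mul]; exact W.add_mem hy hz
  have hKW : VV (κ := κ) x K ≤ W := by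
    intro z hz
    have h1 : (1 : E) ∈ Subalgebra.toSubmodule (Algebra.adjoin κ {b}) :=
      Subalgebra.one_mem (Algebra.adjoin κ {b})
    have := Submodule.mul_mem_mul hz h1
    rwa [mul_one] at this
  have hVW : ∀ k, VV (κ := κ) x k ≤ W := by
    intro k
    rcases le_total k K with hk | hk
    · exact (VV_mono hl hl1 hk).trans hKW
    · induction k, hk using Nat.le_induction with
      | base => exact hKW
      | succ k hk ih =>
        rintro _ ⟨s, hs, rfl⟩
        obtain ⟨s₁, hs₁, s₂, hs₂, h⟩ := hK k hk s hs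
        change aeval x s ∈ W
        rw [h]
        exact W.add_mem (hWb _ (ih (mem_VV hs₁))) (ih (mem_VV hs₂))
  exact evAffine_bounded he (C := Module.finrank κ W) fun k => Submodule.finrank_mono (hVW k)

open Polynomial in
attribute [local instance] FractionRing.liftAlgebra in
lemma finiteDimensional_of_integral {σ : Type*} [Finite σ] {κ : Type*} [Field κ] {E : Type*}
    [Field E] [Algebra κ E] [Algebra κ[X] E] [IsScalarTower κ κ[X] E] [FaithfulSMul κ[X] E]
    (x : σ → E) (hint : ∀ i, IsIntegral κ[X] (x i))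
    (hE : ∀ z : E, ∃ a c : MvPolynomial σ κ, MvPolynomial.aeval x c ≠ 0 ∧
      z = MvPolynomial.aeval x a / MvPolynomial.aeval x c) :
    FiniteDimensional (FractionRing κ[X]) E := by
  have h1 : FiniteDimensional (FractionRing κ[X])
      (IntermediateField.adjoin (FractionRing κ[X]) (Set.range x)) := by
    refine IntermediateField.finiteDimensional_adjoin ?_
    rintro _ ⟨i, rfl⟩
    exact (hint i).tower_top
  have h2 : ∀ z : E, z ∈ IntermediateField.adjoin (FractionRing κ[X]) (Set.range x) := by
    intro z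
    obtain ⟨a, c, _, rfl⟩ := hE z
    have h3 : ∀ s : MvPolynomial σ κ, MvPolynomial.aeval x s ∈
        IntermediateField.adjoin (FractionRing κ[X]) (Set.range x) := by
      intro s
      induction s using MvPolynomial.induction_on with
      | C a =>
        have h4 : MvPolynomial.aeval x (MvPolynomial.C a : MvPolynomial σ κ) =
            algebraMap (FractionRing κ[X]) E (algebraMap κ[X] (FractionRing κ[X])
              (algebraMap κ κ[X] a)) := by
          rw [← IsScalarTower.algebraMap_apply κ[X] (FractionRing κ[X]) E,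
            ← IsScalarTower.algebraMap_apply κ κ[X] E, MvPolynomial.aeval_C]
        rw [h4]
        exact IntermediateField.algebraMap_mem _ _
      | add p q hp hq => rw [map_add]; exact add_mem hp hq
      | mul_X p i hp =>
        rw [map_mul, MvPolynomial.aeval_X]
        exact mul_mem hp (IntermediateField.subset_adjoin _ _ ⟨i, rfl⟩)
    exact div_mem (h3 a) (h3 c)
  exact Module.Finite.of_surjective
    (IntermediateField.adjoin (FractionRing κ[X]) (Set.range x)).val.toLinearMap
    fun z => ⟨⟨z, h2 z⟩, rfl⟩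

open WithZero in
/-- **Divisibility of the degree** of the projective variety of a homogeneous prime `P` with
eventually affine Hilbert function: if the orders of the (nonzero) coordinates `X (u j)` at all
places of function fields are congruent modulo `M`, then `M` divides the slope. -/
theorem dvd_slope_of_cong' {σ : Type} [Finite σ] {κ : Type} [Field κ] [CharZero κ] {ι : Type}
    [Fintype ι] (u : ι → σ) (P : Ideal (MvPolynomial σ κ)) (hP : Homog P) (hp : P.IsPrime)
    (hw : ∀ Q : Ideal (MvPolynomial σ κ), Homog Q → Q.IsPrime → P ≤ Q →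
      (∀ j, X (u j) ∈ Q) → ∀ i, X i ∈ Q) (M : ℕ)
    (hcong : ∀ (E : Type) [Field E] [Algebra κ E] (x : σ → E),
      (∀ k, ∀ s ∈ homogeneousSubmodule σ κ k, aeval x s = 0 ↔ s ∈ P) →
      ∀ v : Valuation E ℤᵐ⁰, (∀ a : κ, a ≠ 0 → v (algebraMap κ E a) = 1) →
      ∀ j j' : ι, x (u j) ≠ 0 → x (u j') ≠ 0 →
      (M : ℤ) ∣ WithZero.log (v (x (u j))) - WithZero.log (v (x (u j'))))
    (e : ℤ) (he : EvAffine (hilb P) e) : (M : ℤ) ∣ e := by
  classical
  have hinf : Infinite κ := inferInstance
  by_cases hall : ∀ j, X (u j) ∈ P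
  · have h1 : e = 0 := by
      refine evAffine_bounded he (C := hilb P 0) fun k => ?_
      rcases Nat.eq_zero_or_pos k with h | h
      · rw [h]
      · rw [hilb_eq_zero_of_vars (hw P hP hp le_rfl hall) h]; exact Nat.zero_le _
    rw [h1]; exact dvd_zero _
  push Not at hall
  obtain ⟨j₀, hj₀⟩ := hall
  obtain ⟨c, hcP, K, hK⟩ := exists_second_param u P hP hp e he hw j₀ hj₀
  obtain ⟨E, _, _, x, hx1, hxP, hE⟩ := exists_field P hp (lin u c) (lin_mem_one u c) hcP
  set b : E := aeval x (X (u j₀) : MvPolynomial σ κ) with hb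
  have hKE : ∀ k, K ≤ k → ∀ s ∈ homogeneousSubmodule σ κ (k + 1),
      ∃ s₁ ∈ homogeneousSubmodule σ κ k, ∃ s₂ ∈ homogeneousSubmodule σ κ k,
        aeval x s = aeval x s₁ * b + aeval x s₂ := by
    intro k hk s hs
    have h1 := form_mem_of_hilb_eq_zero (hK (k + 1) (by omega)) hs
    rw [Submodule.mem_sup] at h1
    obtain ⟨y, hy, z, hz, rfl⟩ := h1
    rw [Ideal.mem_span_singleton'] at hz
    obtain ⟨c', rfl⟩ := hz
    rw [Submodule.mem_sup] at hy
    obtain ⟨y, hy, z, hz, rfl⟩ := hy
    rw [Ideal.mem_span_singleton'] at hz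
    obtain ⟨c'', rfl⟩ := hz
    refine ⟨homogeneousComponent k c'', homogeneousComponent_mem _ _,
      homogeneousComponent k c', homogeneousComponent_mem _ _, ?_⟩
    have e1 := homogeneousComponent_of_mem (m := k + 1) hs
    rw [if_pos rfl] at e1
    rw [← e1]
    simp only [map_add]
    rw [mul_comm c'', mul_comm c',
      homogeneousComponent_mul_form (X_mem_one (u j₀)),
      homogeneousComponent_mul_form (lin_mem_one u c), map_mul, map_mul, hx1,
      (hxP (k + 1) _ (homogeneousComponent_mem _ _)).2 (hP y hy (k + 1))]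
    rw [zero_add, mul_comm, one_mul]
  have he' : EvAffine (fun k => Module.finrank κ (VV (κ := κ) x k)) e := by
    have : (fun k => Module.finrank κ (VV (κ := κ) x k)) = hilb P := by
      funext k
      exact finrank_VV P x k (hxP k)
    rw [this]; exact he
  by_cases hbint : IsIntegral κ b
  · rw [slope_zero_of_isIntegral x _ (lin_mem_one u c) hx1 b K hKE hbint e he']
    exact dvd_zero _
  have htr : Transcendental κ b := fun h => hbint h.isIntegral
  let algE : Algebra (Polynomial κ) E := (Polynomial.aeval b).toAlgebra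
  have hmapE : ∀ q : Polynomial κ, algebraMap (Polynomial κ) E q = Polynomial.aeval b q :=
    fun q => rfl
  have : IsScalarTower κ (Polynomial κ) E := IsScalarTower.of_algebraMap_eq fun a => by
    rw [hmapE, Polynomial.algebraMap_eq, Polynomial.aeval_C]
  have : FaithfulSMul (Polynomial κ) E := by
    rw [faithfulSMul_iff_algebraMap_injective]
    exact transcendental_iff_injective.1 htr
  obtain ⟨hslope, hint⟩ := slope_eq_rank x (lin u c) (X (u j₀)) (lin_mem_one u c) hx1
    (X_mem_one _) (by rw [hmapE, Polynomial.aeval_X]) K hKE hE e he'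
  rw [hslope]
  let := FractionRing.liftAlgebra (Polynomial κ) E
  have := finiteDimensional_of_integral x (fun i => by
    have := hint (X i); rwa [aeval_X] at this) hE
  have hrank : M ∣ Module.finrank (Polynomial κ) E := by
    refine rank_dvd M ?_
    intro D hD hded hfrac v hv
    have hXb : algebraMap (Polynomial κ) E Polynomial.X = b := by rw [hmapE, Polynomial.aeval_X]
    rw [hXb] at hv ⊢
    have hle : ∀ z : E, IsIntegral (Polynomial κ) z → v.valuation E z ≤ 1 := by
      intro z hz
      have hzD : z ∈ D := by rw [hD]; exact hz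
      have := v.valuation_le_one (K := E) (⟨z, hzD⟩ : D)
      exact this
    have hsum : ∑ j, aeval x (C (c j) : MvPolynomial σ κ) * x (u j) = 1 := by
      rw [← hx1, lin_apply, map_sum]
      refine Finset.sum_congr rfl fun j _ => ?_
      rw [map_mul, aeval_X]
    obtain ⟨j₁, hj₁⟩ : ∃ j₁, v.valuation E (x (u j₁)) = 1 := by
      by_contra hcon
      push Not at hcon
      have hlt : ∀ j, v.valuation E (aeval x (C (c j) : MvPolynomial σ κ) * x (u j)) < 1 := by
        intro j
        rw [map_mul]
        have h1 := hle _ (hint (C (c j)))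
        have h2 : v.valuation E (x (u j)) < 1 := by
          refine lt_of_le_of_ne ?_ (hcon j)
          have := hle _ (hint (X (u j)))
          rwa [aeval_X] at this
        exact mul_lt_one_of_nonneg_of_lt_one_right h1 zero_le h2
      have h3 := (v.valuation E).map_sum_lt (s := Finset.univ)
        (f := fun j => aeval x (C (c j) : MvPolynomial σ κ) * x (u j)) one_ne_zero
        (fun j _ => hlt j)
      rw [hsum, map_one] at h3
      exact lt_irrefl _ h3
    have hj₁0 : x (u j₁) ≠ 0 := by
      intro h0; rw [h0, map_zero] at hj₁; exact zero_ne_one hj₁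
    have hj₀0 : x (u j₀) ≠ 0 := by
      intro h0
      apply hj₀
      rw [← hxP 1 _ (X_mem_one _), aeval_X, h0]
    have hκ1 : ∀ a : κ, v.valuation E (algebraMap κ E a) ≤ 1 := by
      intro a
      refine hle _ ?_
      rw [IsScalarTower.algebraMap_apply κ (Polynomial κ) E]
      exact isIntegral_algebraMap
    have hκ : ∀ a : κ, a ≠ 0 → v.valuation E (algebraMap κ E a) = 1 := by
      intro a ha
      refine le_antisymm (hκ1 a) ?_
      have h1 := hκ1 a⁻¹
      have h2 : v.valuation E (algebraMap κ E a) * v.valuation E (algebraMap κ E a⁻¹) = 1 := by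
        rw [← map_mul, ← map_mul, mul_inv_cancel₀ ha, map_one, map_one]
      rw [← h2]
      exact mul_le_of_le_one_right' h1
    have h4 := hcong E x hxP (v.valuation E) hκ j₀ j₁ hj₀0 hj₁0
    rw [hj₁, WithZero.log_one, sub_zero] at h4
    rw [hb, aeval_X]
    exact h4
  exact_mod_cast hrank

open WithZero in
/-- The same statement, with a hypothesis on all valuations. -/
theorem dvd_slope_of_cong {σ : Type} [Finite σ] {κ : Type} [Field κ] [CharZero κ] {ι : Type}
    [Fintype ι] (u : ι → σ) (P : Ideal (MvPolynomial σ κ)) (hP : Homog P) (hp : P.IsPrime)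
    (hw : ∀ Q : Ideal (MvPolynomial σ κ), Homog Q → Q.IsPrime → P ≤ Q →
      (∀ j, X (u j) ∈ Q) → ∀ i, X i ∈ Q) (M : ℕ)
    (hcong : ∀ (E : Type) [Field E] [Algebra κ E] (x : σ → E),
      (∀ k, ∀ s ∈ homogeneousSubmodule σ κ k, aeval x s = 0 ↔ s ∈ P) →
      ∀ v : Valuation E ℤᵐ⁰, ∀ j j' : ι, x (u j) ≠ 0 → x (u j') ≠ 0 →
      (M : ℤ) ∣ WithZero.log (v (x (u j))) - WithZero.log (v (x (u j'))))
    (e : ℤ) (he : EvAffine (hilb P) e) : (M : ℤ) ∣ e :=
  dvd_slope_of_cong' u P hP hp hw M (fun E _ _ x hx v _ => hcong E x hx v) e he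

end Pool.Agent.CurveDeg
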