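import Pool.Agent.CurveDeg.Growth

/-!
From the Krull dimension to the growth of the Hilbert function.
-/

set_option autoImplicit false

namespace Pool.Agent.CurveDeg

open MvPolynomial

variable {σ : Type*} {κ : Type*} [Field κ]

lemma hilb_le_of_small [Finite σ] (J : Ideal (MvPolynomial σ κ)) (K : ℕ) :
    ∃ C : ℕ, ∀ k, k < K → hilb J k ≤ C := by
  refine ⟨∑ k ∈ Finset.range K, hilb J k, fun k hk => ?_⟩
  exact Finset.single_le_sum (f := fun k => hilb J k) (fun _ _ => Nat.zero_le _)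
    (Finset.mem_range.2 hk)

lemma dim_le_of_le {J J' : Ideal (MvPolynomial σ κ)} (h : J ≤ J') :
    ringKrullDim (MvPolynomial σ κ ⧸ J') ≤ ringKrullDim (MvPolynomial σ κ ⧸ J) :=
  ringKrullDim_le_of_surjective (Ideal.Quotient.factor h) (Ideal.Quotient.factor_surjective h)

lemma dim_step {J : Ideal (MvPolynomial σ κ)} (hp : J.IsPrime) {a : MvPolynomial σ κ}
    (ha : a ∉ J) :
    ringKrullDim (MvPolynomial σ κ ⧸ (J ⊔ Ideal.span {a})) + 1 ≤
      ringKrullDim (MvPolynomial σ κ ⧸ J) := by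
  refine ringKrullDim_succ_le_of_surjective
    (Ideal.Quotient.factor (le_sup_left : J ≤ J ⊔ Ideal.span {a}))
    (Ideal.Quotient.factor_surjective _) (r := Ideal.Quotient.mk J a) ?_ ?_
  · rw [mem_nonZeroDivisors_iff_ne_zero]
    intro h
    exact ha (Ideal.Quotient.eq_zero_iff_mem.1 h)
  · rw [Ideal.Quotient.factor_mk]
    exact Ideal.Quotient.eq_zero_iff_mem.2
      (Submodule.mem_sup_right (Ideal.mem_span_singleton_self a))

lemma sup_span_X_ne_top {J : Ideal (MvPolynomial σ κ)} (hJ : Homog J) (hp : J ≠ ⊤) (i : σ) :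
    J ⊔ Ideal.span {X i} ≠ ⊤ := by
  intro h
  have h1 : (1 : MvPolynomial σ κ) ∈ J ⊔ Ideal.span {X i} := by rw [h]; exact Submodule.mem_top
  rw [Submodule.mem_sup] at h1
  obtain ⟨y, hy, z, hz, hyz⟩ := h1
  rw [Ideal.mem_span_singleton'] at hz
  obtain ⟨c, rfl⟩ := hz
  have h2 := congrArg (homogeneousComponent 0) hyz
  rw [map_add, mul_comm c, homogeneousComponent_mul_form_lt (X_mem_one i) Nat.one_pos, add_zero,
    homogeneousComponent_of_mem (isHomogeneous_one σ κ), if_pos rfl] at h2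
  apply hp
  rw [Ideal.eq_top_iff_one, ← h2]
  exact hJ y hy 0

/-- Dimension `≤ 0` implies that the Hilbert function vanishes eventually. -/
theorem growth_zero [Finite σ] (J : Ideal (MvPolynomial σ κ)) (hJ : Homog J)
    (hd : ringKrullDim (MvPolynomial σ κ ⧸ J) ≤ 0) : ∃ K, ∀ k, K ≤ k → hilb J k = 0 := by
  revert hd
  refine noeth_induction (Q := fun J => ringKrullDim (MvPolynomial σ κ ⧸ J) ≤ 0 →
    ∃ K, ∀ k, K ≤ k → hilb J k = 0) ?_ ?_ ?_ J hJ
  · intro J hJ hp _ hd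
    by_cases hall : ∀ i, X i ∈ J
    · exact ⟨1, fun k hk => hilb_eq_zero_of_vars hall hk⟩
    push Not at hall
    obtain ⟨i, hi⟩ := hall
    exfalso
    have h1 := dim_step hp hi
    have : Nontrivial (MvPolynomial σ κ ⧸ (J ⊔ Ideal.span {X i})) :=
      Ideal.Quotient.nontrivial_iff.mpr (sup_span_X_ne_top hJ hp.ne_top i)
    have h2 : (0 : WithBot ℕ∞) ≤ ringKrullDim (MvPolynomial σ κ ⧸ (J ⊔ Ideal.span {X i})) :=
      ringKrullDim_nonneg_of_nontrivial
    have h3 : (1 : WithBot ℕ∞) ≤ 0 := by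
      calc (1 : WithBot ℕ∞) = 0 + 1 := by simp
        _ ≤ ringKrullDim (MvPolynomial σ κ ⧸ (J ⊔ Ideal.span {X i})) + 1 := by gcongr
        _ ≤ _ := h1
        _ ≤ 0 := hd
    exact absurd h3 (by decide)
  · intro _
    exact ⟨0, fun k _ => hilb_top k⟩
  · intro J a d hJ ha ha0 h1 h2 hd
    obtain ⟨K1, hK1⟩ := h1 ((dim_le_of_le (le_colon J a)).trans hd)
    obtain ⟨K2, hK2⟩ := h2 ((dim_le_of_le le_sup_left).trans hd)
    refine ⟨K1 + K2 + d, fun k hk => ?_⟩
    obtain ⟨m, rfl⟩ : ∃ m, k = m + d := ⟨k - d, by omega⟩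
    rw [hilb_colon hJ ha ha0, hK1 m (by omega), hK2 (m + d) (by omega)]

lemma dim_sub_one {σ : Type*} {κ : Type*} [Field κ] {J : Ideal (MvPolynomial σ κ)}
    (hp : J.IsPrime) {a : MvPolynomial σ κ} (ha : a ∉ J) {D : ℕ}
    (hd : ringKrullDim (MvPolynomial σ κ ⧸ J) ≤ ((D + 1 : ℕ) : WithBot ℕ∞)) :
    ringKrullDim (MvPolynomial σ κ ⧸ (J ⊔ Ideal.span {a})) ≤ (D : WithBot ℕ∞) := by
  have h := (dim_step hp ha).trans hd
  generalize ringKrullDim (MvPolynomial σ κ ⧸ (J ⊔ Ideal.span {a})) = x at h ⊢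
  induction x with
  | bot => exact bot_le
  | coe x =>
    induction x using ENat.recTopCoe with
    | top =>
      exfalso
      have h1 : ((⊤ : ℕ∞) : WithBot ℕ∞) + 1 = ((⊤ : ℕ∞) : WithBot ℕ∞) := rfl
      rw [h1] at h
      have h2 : (⊤ : ℕ∞) ≤ ((D + 1 : ℕ) : ℕ∞) := by exact_mod_cast h
      exact absurd h2 (by simp)
    | coe x =>
      have h2 : x + 1 ≤ D + 1 := by exact_mod_cast h
      have h3 : x ≤ D := by omega
      exact_mod_cast h3

/-- Dimension `≤ 1` implies that the Hilbert function is bounded. -/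
theorem growth_one [Finite σ] (J : Ideal (MvPolynomial σ κ)) (hJ : Homog J)
    (hd : ringKrullDim (MvPolynomial σ κ ⧸ J) ≤ 1) : ∃ C, ∀ k, hilb J k ≤ C := by
  revert hd
  refine noeth_induction (Q := fun J => ringKrullDim (MvPolynomial σ κ ⧸ J) ≤ 1 →
    ∃ C, ∀ k, hilb J k ≤ C) ?_ ?_ ?_ J hJ
  · intro J hJ hp _ hd
    by_cases hall : ∀ i, X i ∈ J
    · obtain ⟨C, hC⟩ := hilb_le_of_small J 1
      refine ⟨C, fun k => ?_⟩
      by_cases hk : k < 1
      · exact hC k hk
      · rw [hilb_eq_zero_of_vars hall (by omega)]; exact Nat.zero_le _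
    push Not at hall
    obtain ⟨i, hi⟩ := hall
    obtain ⟨K, hK⟩ := growth_zero _ (hJ.sup_span (X_mem_one i)) (dim_sub_one hp hi (D := 0)
      (by simpa using hd))
    obtain ⟨C, hC⟩ := hilb_le_of_small J (K + 1)
    refine ⟨C, fun k => ?_⟩
    by_cases hk : k < K + 1
    · exact hC k hk
    · obtain ⟨m, rfl⟩ : ∃ m, k = K + m := ⟨k - K, by omega⟩
      clear hk
      induction m with
      | zero => exact hC _ (by omega)
      | succ m ihm =>
        rw [← Nat.add_assoc, hilb_prime_step hJ hp (X_mem_one i) hi, hK _ (by omega), add_zero]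
        exact ihm
  · intro _
    exact ⟨0, fun k => by rw [hilb_top]⟩
  · intro J a d hJ ha ha0 h1 h2 hd
    obtain ⟨C1, hC1⟩ := h1 ((dim_le_of_le (le_colon J a)).trans hd)
    obtain ⟨C2, hC2⟩ := h2 ((dim_le_of_le le_sup_left).trans hd)
    obtain ⟨C3, hC3⟩ := hilb_le_of_small J d
    refine ⟨C1 + C2 + C3, fun k => ?_⟩
    by_cases hk : k < d
    · exact (hC3 k hk).trans (by omega)
    · obtain ⟨m, rfl⟩ : ∃ m, k = m + d := ⟨k - d, by omega⟩
      rw [hilb_colon hJ ha ha0]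
      have := hC1 m
      have := hC2 (m + d)
      omega

/-- Dimension `≤ 2` implies that the Hilbert function has linear growth. -/
theorem growth_two [Finite σ] (J : Ideal (MvPolynomial σ κ)) (hJ : Homog J)
    (hd : ringKrullDim (MvPolynomial σ κ ⧸ J) ≤ 2) : ∃ C, ∀ k, hilb J k ≤ C * (k + 1) := by
  revert hd
  refine noeth_induction (Q := fun J => ringKrullDim (MvPolynomial σ κ ⧸ J) ≤ 2 →
    ∃ C, ∀ k, hilb J k ≤ C * (k + 1)) ?_ ?_ ?_ J hJ
  · intro J hJ hp _ hd
    by_cases hall : ∀ i, X i ∈ J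
    · obtain ⟨C, hC⟩ := hilb_le_of_small J 1
      refine ⟨C, fun k => ?_⟩
      by_cases hk : k < 1
      · exact (hC k hk).trans (Nat.le_mul_of_pos_right _ (by omega))
      · rw [hilb_eq_zero_of_vars hall (by omega)]; exact Nat.zero_le _
    push Not at hall
    obtain ⟨i, hi⟩ := hall
    obtain ⟨C1, hC1⟩ := growth_one _ (hJ.sup_span (X_mem_one i)) (dim_sub_one hp hi (D := 1)
      (by simpa using hd))
    refine ⟨hilb J 0 + C1, fun k => ?_⟩
    induction k with
    | zero => simp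
    | succ m ihm =>
      rw [hilb_prime_step hJ hp (X_mem_one i) hi]
      have := hC1 (m + 1)
      nlinarith
  · intro _
    exact ⟨0, fun k => by rw [hilb_top]; simp⟩
  · intro J a d hJ ha ha0 h1 h2 hd
    obtain ⟨C1, hC1⟩ := h1 ((dim_le_of_le (le_colon J a)).trans hd)
    obtain ⟨C2, hC2⟩ := h2 ((dim_le_of_le le_sup_left).trans hd)
    obtain ⟨C3, hC3⟩ := hilb_le_of_small J d
    refine ⟨C1 + C2 + C3, fun k => ?_⟩
    by_cases hk : k < d
    · exact (hC3 k hk).trans (by nlinarith)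
    · obtain ⟨m, rfl⟩ : ∃ m, k = m + d := ⟨k - d, by omega⟩
      rw [hilb_colon hJ ha ha0]
      have := hC1 m
      have := hC2 (m + d)
      nlinarith

end Pool.Agent.CurveDeg
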