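import Pool.Agent.CurveDeg.Hilb

/-!
Specialisation along a valuation ring.
-/

set_option autoImplicit false

namespace Pool.Agent.CurveDeg

open MvPolynomial

lemma finrank_hyper {F N : Type*} [Field F] [Finite N] (V : Submodule F (N → F)) (s : N)
    (w : N → F) (hw : w s = 1) (hwV : w ∈ V) :
    Module.finrank F V =
      Module.finrank F (V ⊓ LinearMap.ker (LinearMap.proj s : (N → F) →ₗ[F] F) :
        Submodule F (N → F)) + 1 := by
  set V' := V ⊓ LinearMap.ker (LinearMap.proj s : (N → F) →ₗ[F] F)
  have h1 := Submodule.finrank_sup_add_finrank_inf_eq V' (Submodule.span F {w})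
  have hmem : ∀ y : N → F, y ∈ V' ↔ y ∈ V ∧ y s = 0 := by
    intro y
    simp [V', Submodule.mem_inf]
  have h2 : V' ⊔ Submodule.span F {w} = V := by
    apply le_antisymm
    · refine sup_le inf_le_left ?_
      rw [Submodule.span_singleton_le_iff_mem]; exact hwV
    · intro y hy
      have e : y = (y - y s • w) + y s • w := by simp
      rw [e]
      refine Submodule.add_mem_sup ?_ (Submodule.smul_mem _ _ (Submodule.mem_span_singleton_self w))
      rw [hmem]
      exact ⟨V.sub_mem hy (V.smul_mem _ hwV), by simp [hw]⟩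
  have h3 : V' ⊓ Submodule.span F {w} = ⊥ := by
    rw [eq_bot_iff]
    rintro y ⟨hy1, hy2⟩
    have hy1' := (hmem y).1 hy1
    obtain ⟨a, rfl⟩ := Submodule.mem_span_singleton.1 hy2
    have : a = 0 := by simpa [hw] using hy1'.2
    rw [this]; simp
  have hw0 : w ≠ 0 := by rintro rfl; simp at hw
  rw [h2, h3, finrank_bot, add_zero, finrank_span_singleton hw0] at h1
  exact h1

section red

variable {K : Type*} [Field K] (O : ValuationSubring K) {N : Type*}

/-- The reduction of a subspace. -/
def redSub (W : Submodule K (N → K)) :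
    Submodule (IsLocalRing.ResidueField O) (N → IsLocalRing.ResidueField O) where
  carrier := {y | ∃ w : N → O, (fun j => (w j : K)) ∈ W ∧
    (fun j => IsLocalRing.residue O (w j)) = y}
  add_mem' := by
    rintro _ _ ⟨w, hw, rfl⟩ ⟨w', hw', rfl⟩
    refine ⟨w + w', ?_, ?_⟩
    · exact W.add_mem hw hw'
    · funext j; simp
  zero_mem' := ⟨0, W.zero_mem, by funext j; simp⟩
  smul_mem' := by
    rintro c _ ⟨w, hw, rfl⟩
    obtain ⟨c, rfl⟩ := IsLocalRing.residue_surjective c
    refine ⟨fun j => c * w j, ?_, ?_⟩
    · exact W.smul_mem (c : K) hw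
    · funext j; simp

lemma mem_redSub (W : Submodule K (N → K)) (y : N → IsLocalRing.ResidueField O) :
    y ∈ redSub O W ↔ ∃ w : N → O, (fun j => (w j : K)) ∈ W ∧
      (fun j => IsLocalRing.residue O (w j)) = y := Iff.rfl

theorem finrank_redSub [Finite N] (W : Submodule K (N → K)) :
    Module.finrank (IsLocalRing.ResidueField O) (redSub O W) = Module.finrank K W := by
  classical
  have := Fintype.ofFinite N
  obtain ⟨m, hm⟩ : ∃ m, Module.finrank K W = m := ⟨_, rfl⟩
  induction m generalizing W with
  | zero =>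
    have hW : W = ⊥ := Submodule.finrank_eq_zero.1 hm
    have h1 : redSub O W = ⊥ := by
      rw [eq_bot_iff]
      rintro _ ⟨w, hw, rfl⟩
      rw [hW, Submodule.mem_bot] at hw
      have h2 : w = 0 := by
        funext j
        apply Subtype.ext
        exact congrFun hw j
      rw [h2]
      simp only [Pi.zero_apply, map_zero]
      exact Submodule.zero_mem _
    rw [h1, hW, finrank_bot, finrank_bot]
  | succ m ih =>
    have hW : W ≠ ⊥ := by
      rintro rfl
      rw [finrank_bot] at hm
      omega
    obtain ⟨w₀, hw₀W, hw₀⟩ := Submodule.exists_mem_ne_zero_of_ne_bot hW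
    obtain ⟨j₀, hj₀⟩ : ∃ j, w₀ j ≠ 0 := Function.ne_iff.1 hw₀
    obtain ⟨s, _, hs⟩ := Finset.univ.exists_max_image (fun j => O.valuation (w₀ j))
      ⟨j₀, Finset.mem_univ _⟩
    have hs0 : w₀ s ≠ 0 := by
      intro h
      have h1 := hs j₀ (Finset.mem_univ _)
      rw [h, map_zero] at h1
      exact hj₀ ((O.valuation.zero_iff).1 (le_antisymm h1 zero_le))
    set w₁ : N → K := (w₀ s)⁻¹ • w₀ with hw₁
    have hw₁W : w₁ ∈ W := W.smul_mem _ hw₀W
    have hw₁s : w₁ s = 1 := by simp [hw₁, hs0]
    have hw₁O : ∀ j, w₁ j ∈ O := by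
      intro j
      rw [← O.valuation_le_one_iff]
      simp only [hw₁, Pi.smul_apply, smul_eq_mul, map_mul, map_inv₀]
      rw [inv_mul_le_one₀ ((O.valuation.pos_iff).2 hs0)]
      exact hs j (Finset.mem_univ _)
    set w : N → O := fun j => ⟨w₁ j, hw₁O j⟩ with hw
    have hws : w s = 1 := Subtype.ext hw₁s
    set W' := W ⊓ LinearMap.ker (LinearMap.proj s : (N → K) →ₗ[K] K) with hW'
    have hmem : ∀ y : N → K, y ∈ W' ↔ y ∈ W ∧ y s = 0 := by
      intro y
      simp [W', Submodule.mem_inf]
    have h1 := finrank_hyper W s w₁ hw₁s hw₁W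
    rw [← hW'] at h1
    have h2 := finrank_hyper (redSub O W) s (fun j => IsLocalRing.residue O (w j))
      (by simp only [hws, map_one]) ⟨w, hw₁W, rfl⟩
    have h3 : redSub O W ⊓ LinearMap.ker (LinearMap.proj s :
        (N → IsLocalRing.ResidueField O) →ₗ[IsLocalRing.ResidueField O] _) = redSub O W' := by
      apply le_antisymm
      · rintro _ ⟨⟨y, hy, rfl⟩, hy2⟩
        have hy3 : IsLocalRing.residue O (y s) = 0 := by simpa using hy2
        refine ⟨fun j => y j - y s * w j, ?_, ?_⟩
        · rw [hmem]
          refine ⟨W.sub_mem hy (W.smul_mem (y s : K) hw₁W), ?_⟩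
          simp [hws]
        · funext j
          simp [hy3]
      · rintro _ ⟨y, hy, rfl⟩
        rw [hmem] at hy
        refine ⟨⟨y, hy.1, rfl⟩, ?_⟩
        have : y s = 0 := Subtype.ext hy.2
        simp [this]
    rw [h3, ih W' (by omega)] at h2
    rw [h2, h1]

end red

section coord

variable {σ : Type} [Finite σ]

/-- Monomials of degree `k`. -/
abbrev Mon (σ : Type) (k : ℕ) : Type := {m : σ →₀ ℕ // m.degree = k}

instance (k : ℕ) : Finite (Mon σ k) := by
  classical
  have := Fintype.ofFinite σ
  have h : {m : σ →₀ ℕ | m.degree = k}.Finite := by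
    refine (Finset.univ.finsuppAntidiag k : Finset (σ →₀ ℕ)).finite_toSet.subset ?_
    intro m hm
    rw [Finset.mem_coe, Finset.mem_finsuppAntidiag]
    refine ⟨?_, by simp⟩
    rw [← (show m.degree = k from hm), Finsupp.degree_eq_sum]
  exact h

/-- The vector of coefficients in degree `k`. -/
noncomputable def cf (σ : Type) (K : Type*) [Field K] (k : ℕ) :
    MvPolynomial σ K →ₗ[K] (Mon σ k → K) where
  toFun p m := coeff m.1 p
  map_add' p q := by funext m; simp
  map_smul' a p := by funext m; simp

omit [Finite σ] in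
lemma cf_apply {K : Type*} [Field K] {k : ℕ} (p : MvPolynomial σ K) (m : Mon σ k) :
    cf σ K k p m = coeff m.1 p := rfl

omit [Finite σ] in
lemma cf_inj {K : Type*} [Field K] {k : ℕ} {p q : MvPolynomial σ K}
    (hp : p ∈ homogeneousSubmodule σ K k) (hq : q ∈ homogeneousSubmodule σ K k)
    (h : cf σ K k p = cf σ K k q) : p = q := by
  ext m
  by_cases hm : m.degree = k
  · exact congrFun h ⟨m, hm⟩
  · rw [IsHomogeneous.coeff_eq_zero hp hm, IsHomogeneous.coeff_eq_zero hq hm]

omit [Finite σ] in
lemma finrank_cf {K : Type*} [Field K] {k : ℕ} (V : Submodule K (MvPolynomial σ K))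
    (hV : V ≤ homogeneousSubmodule σ K k) :
    Module.finrank K (V.map (cf σ K k)) = Module.finrank K V := by
  refine (LinearEquiv.finrank_eq (LinearEquiv.ofBijective
    (((cf σ K k).comp V.subtype).codRestrict (V.map (cf σ K k)) fun y => ⟨y, y.2, rfl⟩)
      ?_)).symm
  constructor
  · intro y z h
    exact Subtype.ext (cf_inj (hV y.2) (hV z.2) (congrArg Subtype.val h))
  · rintro ⟨_, y, hy, rfl⟩
    exact ⟨⟨y, hy⟩, rfl⟩

/-- The form with a given vector of coefficients. -/
noncomputable def form {R : Type*} [CommSemiring R] {k : ℕ} (w : Mon σ k → R) :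
    MvPolynomial σ R :=
  letI := Fintype.ofFinite (Mon σ k)
  ∑ m : Mon σ k, monomial m.1 (w m)

lemma form_mem {R : Type*} [CommSemiring R] {k : ℕ} (w : Mon σ k → R) :
    form w ∈ homogeneousSubmodule σ R k := by
  unfold form
  exact Submodule.sum_mem _ fun m _ => isHomogeneous_monomial _ m.2

lemma coeff_form {R : Type*} [CommSemiring R] {k : ℕ} (w : Mon σ k → R) (m : Mon σ k) :
    coeff m.1 (form w) = w m := by
  classical
  unfold form
  let := Fintype.ofFinite (Mon σ k)
  rw [coeff_sum, Finset.sum_eq_single m]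
  · simp
  · intro b _ hb
    rw [coeff_monomial, if_neg]
    exact fun h => hb (Subtype.ext h)
  · intro h; exact absurd (Finset.mem_univ m) h

lemma map_form {R R' : Type*} [CommSemiring R] [CommSemiring R'] (f : R →+* R') {k : ℕ}
    (w : Mon σ k → R) : map f (form w) = form fun m => f (w m) := by
  unfold form
  rw [map_sum]
  simp only [map_monomial]

lemma finrank_homog (K : Type*) [Field K] (k : ℕ) :
    Module.finrank K (homogeneousSubmodule σ K k) = Nat.card (Mon σ k) := by
  classical
  let := Fintype.ofFinite (Mon σ k)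
  rw [← finrank_cf (homogeneousSubmodule σ K k) le_rfl]
  have : (homogeneousSubmodule σ K k).map (cf σ K k) = ⊤ := by
    rw [eq_top_iff]
    intro w _
    refine ⟨form w, form_mem w, ?_⟩
    funext m
    rw [cf_apply, coeff_form]
  rw [this, finrank_top, Module.finrank_fintype_fun_eq_card, Nat.card_eq_fintype_card]

omit [Finite σ] in
lemma map_homogeneousComponent {R R' : Type*} [CommSemiring R] [CommSemiring R'] (f : R →+* R')
    (k : ℕ) (p : MvPolynomial σ R) :
    map f (homogeneousComponent k p) = homogeneousComponent k (map f p) := by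
  ext m
  rw [coeff_map, coeff_homogeneousComponent, coeff_homogeneousComponent, coeff_map]
  split_ifs <;> simp

end coord

/-- **Specialisation.** -/
theorem exists_place {σ : Type} [Finite σ] {r : ℕ} (d : Fin r → ℕ) {K₀ L : Type} [Field K₀]
    [CharZero K₀] [Field L] [Algebra K₀ L] (f : Fin r → MvPolynomial σ L)
    (hf : ∀ i, f i ∈ homogeneousSubmodule σ L (d i))
    (hgen : ∀ q : MvPolynomial (Σ i : Fin r, Mon σ (d i)) K₀, q ≠ 0 →
      aeval (fun x => coeff x.2.1 (f x.1)) q ≠ 0)
    (g : Fin r → MvPolynomial σ K₀) (hg : ∀ i, g i ∈ homogeneousSubmodule σ K₀ (d i))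
    (I : Ideal (MvPolynomial σ L)) (hI : Homog I) (hfI : ∀ i, f i ∈ I) :
    ∃ (κ : Type) (_ : Field κ) (_ : Algebra K₀ κ) (_ : CharZero κ)
      (I₀ : Ideal (MvPolynomial σ κ)), Homog I₀ ∧ (∀ i, map (algebraMap K₀ κ) (g i) ∈ I₀) ∧
      ∀ k, hilb I₀ k = hilb I k := by
  classical
  let Θ := Σ i : Fin r, Mon σ (d i)
  let cv : Θ → L := fun x => coeff x.2.1 (f x.1)
  let φ : MvPolynomial Θ K₀ →ₐ[K₀] L := aeval cv
  have hφ : Function.Injective φ := by
    rw [injective_iff_map_eq_zero]
    intro q hq
    by_contra h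
    exact hgen q h hq
  let ψ : MvPolynomial Θ K₀ →ₐ[K₀] K₀ := aeval fun x => coeff x.2.1 (g x.1)
  -- the valuation ring
  let A : Subring L := φ.toRingHom.range
  let ε : MvPolynomial Θ K₀ ≃+* A := RingEquiv.ofBijective φ.toRingHom.rangeRestrict
    ⟨fun a b h => hφ (congrArg Subtype.val h), φ.toRingHom.rangeRestrict_surjective⟩
  let 𝔞 : Ideal A := (RingHom.ker ψ.toRingHom).comap ε.symm.toRingHom
  have h𝔞 : 𝔞 ≠ ⊤ := by
    rw [Ne, Ideal.eq_top_iff_one, Ideal.mem_comap, map_one, RingHom.mem_ker, map_one]
    exact one_ne_zero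
  obtain ⟨O, hAO, hnon⟩ := Ideal.image_subset_nonunits_valuationSubring 𝔞 h𝔞
  have hφO : ∀ q, φ q ∈ O := fun q => hAO ⟨q, rfl⟩
  have hψ : ∀ q, ψ q = 0 → φ q ∈ O.nonunits := by
    intro q hq
    refine hnon ⟨ε q, ?_, rfl⟩
    change ε.symm.toRingHom (ε q) ∈ RingHom.ker ψ.toRingHom
    have : ε.symm.toRingHom (ε q) = q := ε.symm_apply_apply q
    rw [this, RingHom.mem_ker]
    exact hq
  let j₀ : K₀ →+* O := (algebraMap K₀ L).codRestrict O.toSubring fun a => by
    have := hφO (C a)
    rwa [show φ (C a) = algebraMap K₀ L a from aeval_C _ _] at this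
  let κ := IsLocalRing.ResidueField O
  let alg : Algebra K₀ κ := ((IsLocalRing.residue O).comp j₀).toAlgebra
  have hchar : CharZero κ := by
    have h1 : Function.Injective (algebraMap K₀ κ) := (algebraMap K₀ κ).injective
    exact charZero_of_injective_algebraMap h1
  let inc : MvPolynomial σ O →+* MvPolynomial σ L := map (algebraMap O L)
  let red : MvPolynomial σ O →+* MvPolynomial σ κ := map (IsLocalRing.residue O)
  have hred : Function.Surjective red := map_surjective _ IsLocalRing.residue_surjective
  let J : Ideal (MvPolynomial σ O) := I.comap inc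
  have hJ : ∀ F ∈ J, ∀ k, homogeneousComponent k F ∈ J := by
    intro F hF k
    change inc (homogeneousComponent k F) ∈ I
    rw [show inc (homogeneousComponent k F) = homogeneousComponent k (inc F) from
      map_homogeneousComponent _ _ _]
    exact hI _ hF _
  have hmem : ∀ y, y ∈ J.map red ↔ ∃ F ∈ J, red F = y := fun y =>
    Ideal.mem_map_iff_of_surjective red hred
  refine ⟨κ, inferInstance, alg, hchar, J.map red, ?_, ?_, ?_⟩
  · intro y hy k
    rw [hmem] at hy ⊢
    obtain ⟨F, hF, rfl⟩ := hy
    exact ⟨homogeneousComponent k F, hJ F hF k, map_homogeneousComponent _ _ _⟩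
  · intro i
    rw [hmem]
    let wO : Mon σ (d i) → O := fun m => ⟨coeff m.1 (f i), by
      have := hφO (X ⟨i, m⟩)
      rwa [show φ (X ⟨i, m⟩) = coeff m.1 (f i) from aeval_X _ _] at this⟩
    refine ⟨form wO, ?_, ?_⟩
    · change inc (form wO) ∈ I
      have : inc (form wO) = f i := by
        rw [show inc (form wO) = form (fun m => algebraMap O L (wO m)) from map_form _ _]
        refine cf_inj (form_mem _) (hf i) ?_
        funext m
        rw [cf_apply, coeff_form]
        rfl
      rw [this]; exact hfI i
    · rw [show red (form wO) = form (fun m => IsLocalRing.residue O (wO m)) from map_form _ _]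
      refine cf_inj (form_mem _) ((show IsHomogeneous (g i) (d i) from hg i).map _) ?_
      funext m
      rw [cf_apply, cf_apply, coeff_form, coeff_map]
      have h1 : ψ (X ⟨i, m⟩ - C (coeff m.1 (g i))) = 0 := by
        rw [map_sub, show ψ (X ⟨i, m⟩) = coeff m.1 (g i) from aeval_X _ _,
          show ψ (C (coeff m.1 (g i))) = coeff m.1 (g i) from aeval_C _ _, sub_self]
      have h2 := hψ _ h1
      rw [map_sub, show φ (X ⟨i, m⟩) = coeff m.1 (f i) from aeval_X _ _,
          show φ (C (coeff m.1 (g i))) = algebraMap K₀ L (coeff m.1 (g i)) from aeval_C _ _] at h2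
      have h3 : ((wO m - j₀ (coeff m.1 (g i)) : O) : L) ∈ O.nonunits := h2
      rw [O.coe_mem_nonunits_iff, ← Ideal.Quotient.eq_zero_iff_mem] at h3
      have h4 : IsLocalRing.residue O (wO m - j₀ (coeff m.1 (g i))) = 0 := h3
      rw [map_sub, sub_eq_zero] at h4
      rw [h4]
      rfl
  · intro k
    have h1 := hilb_add_part (J.map red) k
    have h2 := hilb_add_part I k
    rw [finrank_homog] at h1 h2
    have h3 : Module.finrank κ (part (J.map red) k) = Module.finrank L (part I k) := by
      rw [← finrank_cf (k := k) (part (J.map red) k) inf_le_left,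
        ← finrank_cf (k := k) (part I k) inf_le_left, ← finrank_redSub O]
      have h4 : (part (J.map red) k).map (cf σ κ k) = redSub O ((part I k).map (cf σ L k)) := by
        apply le_antisymm
        · rintro _ ⟨y, hy, rfl⟩
          obtain ⟨hy1, hy2⟩ := mem_part.1 hy
          obtain ⟨F, hF, hFy⟩ := (hmem y).1 hy2
          have h5 : red (homogeneousComponent k F) = y := by
            rw [show red (homogeneousComponent k F) = homogeneousComponent k (red F) from
              map_homogeneousComponent _ _ _, hFy, homogeneousComponent_of_mem hy1, if_pos rfl]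
          refine ⟨fun m => coeff m.1 (homogeneousComponent k F), ?_, ?_⟩
          · refine ⟨inc (homogeneousComponent k F), mem_part.2 ⟨?_, hJ F hF k⟩, ?_⟩
            · exact IsHomogeneous.map (homogeneousComponent_isHomogeneous k F) _
            · funext m
              rw [cf_apply]
              exact coeff_map _ _ _
          · rw [← h5]
            funext m
            rw [cf_apply]
            exact (coeff_map _ _ _).symm
        · rintro _ ⟨w, ⟨q, hq, hqw⟩, rfl⟩
          obtain ⟨hq1, hq2⟩ := mem_part.1 hq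
          have h5 : inc (form w) = q := by
            rw [show inc (form w) = form (fun m => algebraMap O L (w m)) from map_form _ _]
            refine cf_inj (form_mem _) hq1 ?_
            rw [hqw]
            funext m
            rw [cf_apply, coeff_form]
            rfl
          refine ⟨red (form w), mem_part.2 ⟨?_, (hmem _).2 ⟨form w, ?_, rfl⟩⟩, ?_⟩
          · exact IsHomogeneous.map (show IsHomogeneous (form w) k from form_mem w) _
          · change inc (form w) ∈ I
            rw [h5]; exact hq2
          · rw [show red (form w) = form (fun m => IsLocalRing.residue O (w m)) from map_form _ _]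
            funext m
            rw [cf_apply, coeff_form]
      rw [h4]
    omega

end Pool.Agent.CurveDeg
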