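import Pool.Agent.CurveDeg.Special
import Pool.Agent.CurveDeg.Place

/-!
Assembly of the divisibility theorem for curves on very general complete intersections.
-/

set_option autoImplicit false

namespace Pool.Agent.CurveDeg

open MvPolynomial

/-- The polynomials over `ℚ` that must not vanish at the coefficients. -/
lemma exists_bad (Θ : Type) [Countable Θ] : ∃ bad : ℕ → MvPolynomial Θ ℂ,
    (∀ j, bad j ≠ 0) ∧ ∀ c : Θ → ℂ, (∀ j, eval c (bad j) ≠ 0) →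
      ∀ q : MvPolynomial Θ ℚ, q ≠ 0 → aeval c q ≠ 0 := by
  have h1 : Countable (MvPolynomial Θ ℚ) := by
    rw [← Cardinal.mk_le_aleph0_iff]
    exact cardinalMk_le_max.trans (by simp)
  have h2 : Nonempty {q : MvPolynomial Θ ℚ // q ≠ 0} := ⟨⟨1, one_ne_zero⟩⟩
  obtain ⟨F, hF⟩ := exists_surjective_nat {q : MvPolynomial Θ ℚ // q ≠ 0}
  refine ⟨fun j => map (algebraMap ℚ ℂ) (F j).1, fun j => ?_, ?_⟩
  · intro h
    have h3 : map (algebraMap ℚ ℂ) (F j).1 = map (algebraMap ℚ ℂ) 0 := h.trans (map_zero _).symm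
    exact (F j).2 (map_injective _ (algebraMap ℚ ℂ).injective h3)
  · intro c hc q hq
    obtain ⟨j, hj⟩ := hF ⟨q, hq⟩
    have h3 : eval c (map (algebraMap ℚ ℂ) (F j).1) ≠ 0 := hc j
    rw [hj, eval_map] at h3
    exact h3

/-- The divisibility of the slope. -/
theorem dvd_of_generic {n r : ℕ} (d : Fin r → ℕ) (f : Fin r → MvPolynomial (Fin (n + r + 1)) ℂ)
    (hf : ∀ i, f i ∈ homogeneousSubmodule (Fin (n + r + 1)) ℂ (d i))
    (hgen : ∀ q : MvPolynomial (Σ i : Fin r, Mon (Fin (n + r + 1)) (d i)) ℚ, q ≠ 0 →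
      aeval (fun x => coeff x.2.1 (f x.1)) q ≠ 0)
    (I : Ideal (MvPolynomial (Fin (n + r + 1)) ℂ)) (hI : Homog I) (hfI : ∀ i, f i ∈ I)
    (hdim : ringKrullDim (MvPolynomial (Fin (n + r + 1)) ℂ ⧸ I) ≤ 2)
    (e : ℤ) (he : EvAffine (hilb I) e) {p L : ℕ} {δ : ℕ → ℕ} (hp : p.Prime)
    (γ : Fin r → Option (Colour p δ n))
    (hL : ∀ τ : Colour p δ n, L ≤ ∑ i, if γ i = some τ ∧ δ τ.1 < (d i).factorization p then
      (d i).factorization p else 0) :
    ((p : ℤ) ^ (L - loss δ n)) ∣ e := by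
  let u : Fin (n + 1) → Fin (n + r + 1) := fun j => ⟨j, by omega⟩
  let w : Fin r → Fin (n + r + 1) := fun i => ⟨n + 1 + i, by omega⟩
  have huw : ∀ i : Fin (n + r + 1), (∃ j, i = u j) ∨ ∃ j, i = w j := by
    intro i
    by_cases h : i.val < n + 1
    · exact Or.inl ⟨⟨i, h⟩, rfl⟩
    · refine Or.inr ⟨⟨i - (n + 1), by omega⟩, ?_⟩
      apply Fin.ext
      change i.val = n + 1 + (i.val - (n + 1))
      omega
  obtain ⟨κ, _, _, _, I₀, hI₀, hgI, hh⟩ := exists_place d f hf hgen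
    (fun i => spec u w d p δ γ ℚ i) (fun i => spec_homog u w d hp γ ℚ i) I hI hfI
  obtain ⟨C, hC⟩ := growth_two I hI hdim
  have hhilb : hilb I₀ = hilb I := funext hh
  refine dvd_slope_of_primes ((p : ℤ) ^ (L - loss δ n)) I₀ hI₀
    ⟨C, fun k => by rw [hhilb]; exact hC k⟩ ?_ e (by rw [hhilb]; exact he)
  intro P hP hPp hle e' he'
  refine dvd_slope_special u w huw d hp γ hL P hP hPp (fun i => ?_) e' he'
  have := hgI i
  rw [map_spec] at this
  exact hle this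

/-- The colour of a pair. -/
def dec (p : ℕ) (δ : ℕ → ℕ) (n : ℕ) (x : ℕ × ℕ) : Option (Colour p δ n) :=
  if hi : x.1 < n ∧ x.2 < x.1 / bs p (δ x.1) + 1 then some ⟨⟨x.1, hi.1⟩, ⟨x.2, hi.2⟩⟩ else none

/-- From a colouring by pairs of natural numbers to a colouring by colours. -/
lemma exists_colouring {n r p L : ℕ} {δ : ℕ → ℕ} (v : Fin r → ℕ) (γ : Fin r → ℕ × ℕ)
    (h : ∀ k < n, ∀ b ≤ k / ((p - 1) * p ^ δ k),
      L ≤ ∑ i, if γ i = (k, b) ∧ δ k < v i then v i else 0) :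
    ∃ γ' : Fin r → Option (Colour p δ n), ∀ τ : Colour p δ n,
      L ≤ ∑ i, if γ' i = some τ ∧ δ τ.1 < v i then v i else 0 := by
  classical
  refine ⟨fun i => dec p δ n (γ i), fun τ => ?_⟩
  obtain ⟨⟨k, hk⟩, ⟨b, hb⟩⟩ := τ
  refine (h k hk b (Nat.lt_succ_iff.1 hb)).trans (Finset.sum_le_sum fun i _ => ?_)
  by_cases h1 : γ i = (k, b) ∧ δ k < v i
  · have h4 : dec p δ n (γ i) = some ⟨⟨k, hk⟩, ⟨b, hb⟩⟩ := by
      rw [h1.1]
      exact dif_pos ⟨hk, hb⟩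
    rw [if_pos h1]
    exact (if_pos (⟨h4, h1.2⟩ : _ ∧ _)).ge
  · rw [if_neg h1]; exact Nat.zero_le _

/-- The main theorem. -/
theorem main (n r : ℕ) (d : Fin r → ℕ) :
    ∃ bad : ℕ → MvPolynomial (Σ i : Fin r, {m : Fin (n + r + 1) →₀ ℕ // m.degree = d i}) ℂ,
      (∀ j, bad j ≠ 0) ∧
      ∀ f : Fin r → MvPolynomial (Fin (n + r + 1)) ℂ,
        (∀ i, f i ∈ homogeneousSubmodule (Fin (n + r + 1)) ℂ (d i)) →
        (∀ j, eval (fun x => coeff x.2.1 (f x.1)) (bad j) ≠ 0) →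
        ∀ I : Ideal (MvPolynomial (Fin (n + r + 1)) ℂ), Homog I → I.IsPrime →
          ringKrullDim (MvPolynomial (Fin (n + r + 1)) ℂ ⧸ I) = 2 →
          (∀ i, f i ∈ I) →
          ∃ e : ℕ, (∃ K : ℕ, ∀ k : ℕ, K ≤ k → hilb I (k + 1) = hilb I k + e) ∧
            ∀ (p L : ℕ) (δ : ℕ → ℕ) (γ : Fin r → ℕ × ℕ), p.Prime →
              (∀ k < n, ∀ b ≤ k / ((p - 1) * p ^ δ k),
                L ≤ ∑ i, if γ i = (k, b) ∧ δ k < (d i).factorization p then
                  (d i).factorization p else 0) →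
              p ^ (L - ∑ k ∈ Finset.Ico 1 n, δ k) ∣ e := by
  obtain ⟨bad, hbad0, hbad⟩ := exists_bad (Σ i : Fin r, Mon (Fin (n + r + 1)) (d i))
  refine ⟨bad, hbad0, ?_⟩
  intro f hf hbadf I hI hIp hdim hfI
  have hgen := hbad _ hbadf
  obtain ⟨e, he⟩ := evAffine_of_growth I hI (growth_two I hI hdim.le)
  have he0 := he.slope_nonneg
  refine ⟨e.toNat, ?_, ?_⟩
  · obtain ⟨c, K, hK⟩ := he
    refine ⟨K, fun k hk => ?_⟩
    have h1 := hK k hk
    have h2 := hK (k + 1) (by omega)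
    have h3 : ((hilb I (k + 1) : ℕ) : ℤ) = (hilb I k : ℤ) + (e.toNat : ℤ) := by
      rw [h2, h1, Int.toNat_of_nonneg he0]; push_cast; ring
    exact_mod_cast h3
  · intro p L δ γ hp hL
    obtain ⟨γ', hγ'⟩ := exists_colouring (fun i => (d i).factorization p) γ hL
    have h1 := dvd_of_generic d f hf hgen I hI hfI hdim.le e he hp γ' hγ'
    have h2 : ((p ^ (L - ∑ k ∈ Finset.Ico 1 n, δ k) : ℕ) : ℤ) ∣ (e.toNat : ℤ) := by
      rw [Int.toNat_of_nonneg he0]; push_cast; exact h1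
    exact_mod_cast h2

end Pool.Agent.CurveDeg
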