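import Pool.Agent.CurveDeg.Hilb

set_option autoImplicit false

namespace Pool.Agent.CurveDeg

open MvPolynomial

variable {σ : Type*} {κ : Type*} [Field κ]

/-- Noetherian induction on homogeneous ideals. -/
theorem noeth_induction [Finite σ] (Q : Ideal (MvPolynomial σ κ) → Prop)
    (hprime : ∀ J, Homog J → J.IsPrime → (∀ J', J < J' → Homog J' → Q J') → Q J)
    (htop : Q ⊤)
    (hsplit : ∀ J (a : MvPolynomial σ κ) (d : ℕ), Homog J → a ∈ homogeneousSubmodule σ κ d →
      a ≠ 0 → Q (colon J a) → Q (J ⊔ Ideal.span {a}) → Q J) :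
    ∀ J, Homog J → Q J := by
  intro J
  induction J using WellFoundedGT.induction with
  | ind J ih =>
    intro hJ
    by_cases ht : J = ⊤
    · rw [ht]; exact htop
    by_cases hp : J.IsPrime
    · exact hprime J hJ hp fun J' hlt hJ' => ih J' hlt hJ'
    · obtain ⟨a, b, d, had, haJ, hbJ, hab⟩ := exists_forms_of_not_prime hJ hp ht
      refine hsplit J a d hJ had ?_ ?_ ?_
      · rintro rfl; exact haJ J.zero_mem
      · refine ih _ ?_ (hJ.colon had)
        refine lt_of_le_of_ne (le_colon J a) ?_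
        intro h
        apply hbJ
        rw [h]
        exact hab
      · refine ih _ ?_ (hJ.sup_span had)
        refine lt_of_le_of_ne le_sup_left ?_
        intro h
        apply haJ
        rw [h]
        exact Submodule.mem_sup_right (Ideal.mem_span_singleton_self a)

lemma hilb_top [Finite σ] (k : ℕ) : hilb (⊤ : Ideal (MvPolynomial σ κ)) k = 0 := by
  have h := hilb_add_part (⊤ : Ideal (MvPolynomial σ κ)) k
  have : part (⊤ : Ideal (MvPolynomial σ κ)) k = homogeneousSubmodule σ κ k := by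
    ext p; simp [mem_part]
  rw [this] at h
  omega

/-- Forms of degree `≥ n` lie in the `n`-th power of the ideal of the variables. -/
lemma form_mem_pow {p : MvPolynomial σ κ} {k n : ℕ} (hp : p ∈ homogeneousSubmodule σ κ k)
    (hk : n ≤ k) : p ∈ idealOfVars σ κ ^ n := by
  rw [mem_pow_idealOfVars_iff]
  intro x hx
  by_contra hc
  have := IsHomogeneous.coeff_eq_zero hp (d := x) (by omega)
  rw [mem_support_iff] at hx
  exact hx this

/-- If all variables lie in `J` then the Hilbert function vanishes in positive degrees. -/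
lemma hilb_eq_zero_of_pow_le [Finite σ] {J : Ideal (MvPolynomial σ κ)} {n : ℕ}
    (h : idealOfVars σ κ ^ n ≤ J) {k : ℕ} (hk : n ≤ k) : hilb J k = 0 := by
  have h1 := hilb_add_part J k
  have h2 : part J k = homogeneousSubmodule σ κ k := by
    apply le_antisymm inf_le_left
    intro p hp
    exact mem_part.2 ⟨hp, h (form_mem_pow hp hk)⟩
  rw [h2] at h1
  omega

lemma hilb_eq_zero_of_vars [Finite σ] {J : Ideal (MvPolynomial σ κ)} (h : ∀ i, X i ∈ J) {k : ℕ}
    (hk : 1 ≤ k) : hilb J k = 0 := by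
  refine hilb_eq_zero_of_pow_le (n := 1) ?_ hk
  rw [pow_one]
  exact Ideal.span_le.2 (by rintro _ ⟨i, rfl⟩; exact h i)

/-- Conversely, if the Hilbert function vanishes in degree `k`, all forms of degree `k` are in
`J`. -/
lemma form_mem_of_hilb_eq_zero [Finite σ] {J : Ideal (MvPolynomial σ κ)} {k : ℕ}
    (h : hilb J k = 0) {p : MvPolynomial σ κ} (hp : p ∈ homogeneousSubmodule σ κ k) : p ∈ J := by
  have h1 := hilb_add_part J k
  rw [h, zero_add] at h1
  have h2 : part J k = homogeneousSubmodule σ κ k :=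
    Submodule.eq_of_le_of_finrank_eq inf_le_left h1
  have : p ∈ part J k := h2 ▸ hp
  exact (mem_part.1 this).2

lemma X_mem_one (i : σ) : (X i : MvPolynomial σ κ) ∈ homogeneousSubmodule σ κ 1 :=
  isHomogeneous_X κ i

lemma colon_eq_of_prime {J : Ideal (MvPolynomial σ κ)} (hJ : J.IsPrime) {a : MvPolynomial σ κ}
    (ha : a ∉ J) : colon J a = J := by
  ext p
  rw [mem_colon]
  exact ⟨fun h => (hJ.mem_or_mem h).resolve_left ha, fun h => J.mul_mem_left a h⟩

/-- Step for a prime ideal. -/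
lemma hilb_prime_step [Finite σ] {J : Ideal (MvPolynomial σ κ)} (hJ : Homog J) (hp : J.IsPrime)
    {a : MvPolynomial σ κ} {d : ℕ} (ha : a ∈ homogeneousSubmodule σ κ d) (haJ : a ∉ J) (k : ℕ) :
    hilb J (k + d) = hilb J k + hilb (J ⊔ Ideal.span {a}) (k + d) := by
  have h := hilb_colon hJ ha (by rintro rfl; exact haJ J.zero_mem) k
  rwa [colon_eq_of_prime hp haJ] at h

lemma lt_sup_span {J : Ideal (MvPolynomial σ κ)} {a : MvPolynomial σ κ} (ha : a ∉ J) :
    J < J ⊔ Ideal.span {a} := by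
  refine lt_of_le_of_ne le_sup_left ?_
  intro h
  apply ha
  rw [h]
  exact Submodule.mem_sup_right (Ideal.mem_span_singleton_self a)

/-- A function `ℕ → ℕ` is eventually affine with slope `e`. -/
def EvAffine (h : ℕ → ℕ) (e : ℤ) : Prop := ∃ c : ℤ, ∃ K : ℕ, ∀ k, K ≤ k → (h k : ℤ) = e * k + c

lemma EvAffine.slope_unique {h : ℕ → ℕ} {e e' : ℤ} (h1 : EvAffine h e) (h2 : EvAffine h e') :
    e = e' := by
  obtain ⟨c, K, h1⟩ := h1
  obtain ⟨c', K', h2⟩ := h2
  have a1 := h1 (max K K') (le_max_left _ _)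
  have a2 := h2 (max K K') (le_max_right _ _)
  have b1 := h1 (max K K' + 1) (by omega)
  have b2 := h2 (max K K' + 1) (by omega)
  push_cast at *
  linarith

lemma EvAffine.slope_nonneg {h : ℕ → ℕ} {e : ℤ} (h1 : EvAffine h e) : 0 ≤ e := by
  obtain ⟨c, K, h1⟩ := h1
  by_contra hc
  push Not at hc
  have := h1 (K + c.natAbs + 1) (by omega)
  have h2 : (0 : ℤ) ≤ (h (K + c.natAbs + 1) : ℤ) := by positivity
  rw [this] at h2
  push_cast at h2
  have h3 : c ≤ |c| := le_abs_self c
  nlinarith [abs_nonneg c]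

/-- Linear growth implies eventually affine. -/
theorem evAffine_of_growth [Finite σ] (J : Ideal (MvPolynomial σ κ)) (hJ : Homog J)
    (hg : ∃ C : ℕ, ∀ k, hilb J k ≤ C * (k + 1)) : ∃ e, EvAffine (hilb J) e := by
  revert hg
  refine noeth_induction (Q := fun J => (∃ C : ℕ, ∀ k, hilb J k ≤ C * (k + 1)) →
    ∃ e, EvAffine (hilb J) e) ?_ ?_ ?_ J hJ
  · intro J hJ hp ih hg
    by_cases hall : ∀ i, X i ∈ J
    · exact ⟨0, 0, 1, fun k hk => by rw [hilb_eq_zero_of_vars hall hk]; simp⟩
    push Not at hall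
    obtain ⟨i, hi⟩ := hall
    obtain ⟨C, hC⟩ := hg
    obtain ⟨e, c, K, hK⟩ := ih _ (lt_sup_span hi) (hJ.sup_span (X_mem_one i))
      ⟨C, fun k => (hilb_anti le_sup_left k).trans (hC k)⟩
    have hstep : ∀ k, hilb J (k + 1) = hilb J k + hilb (J ⊔ Ideal.span {X i}) (k + 1) :=
      fun k => hilb_prime_step hJ hp (X_mem_one i) hi k
    have he0 : 0 ≤ e := EvAffine.slope_nonneg ⟨c, K, hK⟩
    have he : e = 0 := by
      by_contra hne
      have he1 : 1 ≤ e := by omega
      have claim : ∀ m : ℕ, (m : ℤ) * m + 2 * m * (K + c) ≤ 2 * (hilb J (K + m) : ℤ) := by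
        intro m
        induction m with
        | zero => simp
        | succ m ihm =>
          have h1 := hstep (K + m)
          have h2 := hK (K + m + 1) (by omega)
          rw [← Nat.add_assoc, h1]
          push_cast
          rw [h2]
          push_cast
          nlinarith
      set M : ℕ := 4 * C + 4 * C * K + 2 * c.natAbs + 4 with hM
      have h1 := claim M
      have h2 := hC (K + M)
      have h3 : ((hilb J (K + M) : ℕ) : ℤ) ≤ C * (K + M + 1) := by exact_mod_cast h2
      have h4 : -(c.natAbs : ℤ) ≤ c := by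
        have := neg_abs_le c
        simpa using this
      have h5 : (M : ℤ) = 4 * C + 4 * C * K + 2 * c.natAbs + 4 := by rw [hM]; push_cast; ring
      have hC0 : (0 : ℤ) ≤ C := by positivity
      have hK0 : (0 : ℤ) ≤ K := by positivity
      have hn0 : (0 : ℤ) ≤ c.natAbs := by positivity
      have hM0 : (0 : ℤ) ≤ M := by positivity
      have h6 : (M : ℤ) * M + 2 * M * (K + c) ≤ 2 * (C * (K + M + 1)) := by linarith
      have h7 : (M : ℤ) * (4 * C + 4 * C * K + 2 * c.natAbs + 4) + 2 * M * (K + c) ≤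
          2 * (C * (K + M + 1)) := by
        calc _ = (M : ℤ) * M + 2 * M * (K + c) := by rw [h5]
          _ ≤ _ := h6
      have h8 : (M : ℤ) * (-(c.natAbs : ℤ)) ≤ M * c := mul_le_mul_of_nonneg_left h4 hM0
      have h9 : (4 : ℤ) ≤ M := by rw [h5]; nlinarith [mul_nonneg hC0 hK0]
      nlinarith [mul_nonneg hC0 hK0, mul_nonneg hM0 hC0, mul_nonneg hM0 hK0,
        mul_nonneg (mul_nonneg hM0 hC0) hK0]
    subst he
    refine ⟨c, (hilb J K : ℤ) - c * K, K, ?_⟩
    intro k hk
    obtain ⟨m, rfl⟩ := Nat.exists_eq_add_of_le hk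
    clear hk
    induction m with
    | zero => simp
    | succ m ihm =>
      have h1 := hstep (K + m)
      have h2 := hK (K + m + 1) (by omega)
      rw [← Nat.add_assoc, h1]
      push_cast at *
      rw [h2, ihm]
      ring
  · intro _
    exact ⟨0, 0, 0, fun k _ => by rw [hilb_top]; simp⟩
  · intro J a d hJ ha ha0 h1 h2 ⟨C, hC⟩
    obtain ⟨e1, c1, K1, hK1⟩ := h1 ⟨C, fun k => (hilb_anti (le_colon J a) k).trans (hC k)⟩
    obtain ⟨e2, c2, K2, hK2⟩ := h2 ⟨C, fun k => (hilb_anti le_sup_left k).trans (hC k)⟩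
    refine ⟨e1 + e2, c1 - e1 * d + c2, K1 + K2 + d, ?_⟩
    intro k hk
    obtain ⟨m, rfl⟩ : ∃ m, k = m + d := ⟨k - d, by omega⟩
    rw [hilb_colon hJ ha ha0]
    push_cast
    rw [hK1 m (by omega), hK2 (m + d) (by omega)]
    push_cast
    ring

/-- Divisibility of the slope passes from primes to all homogeneous ideals containing a given
ideal of linear growth. -/
theorem dvd_slope_of_primes [Finite σ] (M : ℤ) (I₀ : Ideal (MvPolynomial σ κ)) (hI₀ : Homog I₀)
    (hg : ∃ C : ℕ, ∀ k, hilb I₀ k ≤ C * (k + 1))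
    (hP : ∀ P : Ideal (MvPolynomial σ κ), Homog P → P.IsPrime → I₀ ≤ P →
      ∀ e, EvAffine (hilb P) e → M ∣ e) :
    ∀ e, EvAffine (hilb I₀) e → M ∣ e := by
  have key : ∀ J : Ideal (MvPolynomial σ κ), Homog J → (I₀ ≤ J → ∀ e, EvAffine (hilb J) e →
      M ∣ e) := by
    refine noeth_induction _ ?_ ?_ ?_
    · intro J hJ hp _ hle e he
      exact hP J hJ hp hle e he
    · intro _ e he
      have : EvAffine (hilb (⊤ : Ideal (MvPolynomial σ κ))) 0 :=
        ⟨0, 0, fun k _ => by rw [hilb_top]; simp⟩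
      rw [he.slope_unique this]
      exact dvd_zero M
    · intro J a d hJ ha ha0 h1 h2 hle e he
      obtain ⟨C, hC⟩ := hg
      have hle1 : I₀ ≤ colon J a := hle.trans (le_colon J a)
      have hle2 : I₀ ≤ J ⊔ Ideal.span {a} := hle.trans le_sup_left
      obtain ⟨e1, he1⟩ := evAffine_of_growth (colon J a) (hJ.colon ha)
        ⟨C, fun k => (hilb_anti hle1 k).trans (hC k)⟩
      obtain ⟨e2, he2⟩ := evAffine_of_growth (J ⊔ Ideal.span {a}) (hJ.sup_span ha)
        ⟨C, fun k => (hilb_anti hle2 k).trans (hC k)⟩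
      have d1 := h1 hle1 e1 he1
      have d2 := h2 hle2 e2 he2
      have hsum : EvAffine (hilb J) (e1 + e2) := by
        obtain ⟨c1, K1, hK1⟩ := he1
        obtain ⟨c2, K2, hK2⟩ := he2
        refine ⟨c1 - e1 * d + c2, K1 + K2 + d, ?_⟩
        intro k hk
        obtain ⟨m, rfl⟩ : ∃ m, k = m + d := ⟨k - d, by omega⟩
        rw [hilb_colon hJ ha ha0]
        push_cast
        rw [hK1 m (by omega), hK2 (m + d) (by omega)]
        push_cast
        ring
      rw [he.slope_unique hsum]
      exact dvd_add d1 d2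
  exact key I₀ hI₀ le_rfl

end Pool.Agent.CurveDeg
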