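import Mathlib

/-!
Hilbert functions of homogeneous ideals of a polynomial ring over a field, and the Noetherian
induction scheme used in the proof.
-/

set_option autoImplicit false

namespace Pool.Agent.CurveDeg

open MvPolynomial

variable {σ : Type*} {κ : Type*} [Field κ]

/-- The Hilbert function of (the quotient by) an ideal: the dimension of the image of the space of
forms of degree `k`. -/
noncomputable def hilb (I : Ideal (MvPolynomial σ κ)) (k : ℕ) : ℕ :=
  Module.finrank κ (Submodule.map (Ideal.Quotient.mkₐ κ I).toLinearMap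
    (homogeneousSubmodule σ κ k))

/-- An ideal is homogeneous if it contains the homogeneous components of its elements. -/
def Homog (I : Ideal (MvPolynomial σ κ)) : Prop :=
  ∀ p ∈ I, ∀ k : ℕ, homogeneousComponent k p ∈ I

/-- The degree `k` part of an ideal. -/
noncomputable def part (I : Ideal (MvPolynomial σ κ)) (k : ℕ) : Submodule κ (MvPolynomial σ κ) :=
  homogeneousSubmodule σ κ k ⊓ I.restrictScalars κ

lemma mem_part {I : Ideal (MvPolynomial σ κ)} {k : ℕ} {p : MvPolynomial σ κ} :
    p ∈ part I k ↔ p ∈ homogeneousSubmodule σ κ k ∧ p ∈ I := by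
  simp [part]

instance finite_homog [Finite σ] (k : ℕ) : Module.Finite κ (homogeneousSubmodule σ κ k) :=
  Module.Finite.iff_fg.mpr (homogeneousSubmodule_fg σ κ k)

instance finite_part [Finite σ] (I : Ideal (MvPolynomial σ κ)) (k : ℕ) :
    Module.Finite κ (part I k) :=
  Submodule.finiteDimensional_of_le (inf_le_left : part I k ≤ homogeneousSubmodule σ κ k)

/-- The Hilbert function as a codimension. -/
lemma hilb_add_part [Finite σ] (I : Ideal (MvPolynomial σ κ)) (k : ℕ) :
    hilb I k + Module.finrank κ (part I k) =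
      Module.finrank κ (homogeneousSubmodule σ κ k) := by
  set V := homogeneousSubmodule σ κ k
  set φ := (Ideal.Quotient.mkₐ κ I).toLinearMap
  have h := (φ.domRestrict V).finrank_range_add_finrank_ker
  rw [LinearMap.range_domRestrict] at h
  have hk : Module.finrank κ (LinearMap.ker (φ.domRestrict V)) = Module.finrank κ (part I k) := by
    refine LinearEquiv.finrank_eq ?_
    refine LinearEquiv.ofBijective
      ((V.subtype.comp (LinearMap.ker (φ.domRestrict V)).subtype).codRestrict (part I k) ?_) ?_
    · rintro ⟨⟨x, hx⟩, hx2⟩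
      refine mem_part.2 ⟨hx, ?_⟩
      have : φ x = 0 := by simpa using hx2
      exact Ideal.Quotient.eq_zero_iff_mem.1 this
    · constructor
      · intro x y hxy
        have h1 := congrArg Subtype.val hxy
        exact Subtype.ext (Subtype.ext h1)
      · rintro ⟨x, hx⟩
        obtain ⟨h1, h2⟩ := mem_part.1 hx
        refine ⟨⟨⟨x, h1⟩, ?_⟩, ?_⟩
        · simpa [φ] using (Ideal.Quotient.eq_zero_iff_mem.2 h2)
        · rfl
  rw [hk] at h
  exact h

lemma hilb_anti [Finite σ] {I J : Ideal (MvPolynomial σ κ)} (h : I ≤ J) (k : ℕ) :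
    hilb J k ≤ hilb I k := by
  have h1 := hilb_add_part I k
  have h2 := hilb_add_part J k
  have h3 : Module.finrank κ (part I k) ≤ Module.finrank κ (part J k) :=
    Submodule.finrank_mono (inf_le_inf_left _ h)
  omega

section
attribute [local instance] MvPolynomial.gradedAlgebra

lemma Homog.isHomogeneous {I : Ideal (MvPolynomial σ κ)} (h : Homog I) :
    I.IsHomogeneous (homogeneousSubmodule σ κ) := by
  intro i p hp
  have := h p hp i
  have e : ((DirectSum.decompose (homogeneousSubmodule σ κ) p) i : MvPolynomial σ κ) =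
      homogeneousComponent i p :=
    MvPolynomial.decomposition.decompose'_apply p i
  rw [e]; exact this

/-- If a homogeneous ideal is not prime and not everything, there are forms `a, b` outside it
with product inside it. -/
lemma exists_forms_of_not_prime {I : Ideal (MvPolynomial σ κ)} (h : Homog I) (hp : ¬ I.IsPrime)
    (hI : I ≠ ⊤) : ∃ (a b : MvPolynomial σ κ) (d : ℕ), a ∈ homogeneousSubmodule σ κ d ∧
      a ∉ I ∧ b ∉ I ∧ a * b ∈ I := by
  by_contra hcon
  push Not at hcon
  apply hp
  refine h.isHomogeneous.isPrime_of_homogeneous_mem_or_mem hI ?_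
  rintro x y ⟨i, hx⟩ - hxy
  by_contra hc
  push Not at hc
  exact hcon x y i hx hc.1 hc.2 hxy

end

lemma Homog.top : Homog (⊤ : Ideal (MvPolynomial σ κ)) := fun _ _ _ => Submodule.mem_top

/-- Homogeneous components of a product with a form. -/
lemma homogeneousComponent_mul_form {a p : MvPolynomial σ κ} {d : ℕ}
    (ha : a ∈ homogeneousSubmodule σ κ d) (k : ℕ) :
    homogeneousComponent (k + d) (a * p) = a * homogeneousComponent k p := by
  classical
  conv_lhs => rw [← sum_homogeneousComponent p]
  rw [Finset.mul_sum, map_sum]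
  have h1 : ∀ i, homogeneousComponent (k + d) (a * homogeneousComponent i p) =
      if i = k then a * homogeneousComponent k p else 0 := by
    intro i
    have hm : a * homogeneousComponent i p ∈ homogeneousSubmodule σ κ (d + i) :=
      IsHomogeneous.mul ha (homogeneousComponent_isHomogeneous i p)
    rw [homogeneousComponent_of_mem hm]
    by_cases h : i = k
    · subst h; simp [add_comm]
    · rw [if_neg h, if_neg (by omega)]
  simp only [h1]
  by_cases hk : k < p.totalDegree + 1
  · rw [Finset.sum_ite_eq' (Finset.range (p.totalDegree + 1))]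
    simp only [Finset.mem_range]
    rw [if_pos hk]
  · rw [Finset.sum_ite_eq' (Finset.range (p.totalDegree + 1))]
    simp only [Finset.mem_range]
    rw [if_neg hk, homogeneousComponent_eq_zero _ _ (by omega), mul_zero]

lemma homogeneousComponent_mul_form_lt {a p : MvPolynomial σ κ} {d : ℕ}
    (ha : a ∈ homogeneousSubmodule σ κ d) {m : ℕ} (hm : m < d) :
    homogeneousComponent m (a * p) = 0 := by
  classical
  conv_lhs => rw [← sum_homogeneousComponent p]
  rw [Finset.mul_sum, map_sum]
  refine Finset.sum_eq_zero fun i _ => ?_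
  have h1 : a * homogeneousComponent i p ∈ homogeneousSubmodule σ κ (d + i) :=
    IsHomogeneous.mul ha (homogeneousComponent_isHomogeneous i p)
  rw [homogeneousComponent_of_mem h1, if_neg (by omega)]

/-- The sum of a homogeneous ideal and the ideal of a form. -/
lemma Homog.sup_span {J : Ideal (MvPolynomial σ κ)} (hJ : Homog J) {a : MvPolynomial σ κ} {d : ℕ}
    (ha : a ∈ homogeneousSubmodule σ κ d) : Homog (J ⊔ Ideal.span {a}) := by
  intro p hp k
  rw [Submodule.mem_sup] at hp
  obtain ⟨y, hy, z, hz, rfl⟩ := hp
  rw [Ideal.mem_span_singleton'] at hz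
  obtain ⟨c, rfl⟩ := hz
  rw [map_add]
  refine Submodule.add_mem_sup (hJ y hy k) ?_
  rw [mul_comm]
  by_cases hk : k < d
  · rw [homogeneousComponent_mul_form_lt ha hk]; exact Submodule.zero_mem _
  · obtain ⟨j, rfl⟩ := Nat.exists_eq_add_of_le (not_lt.1 hk)
    rw [add_comm d j, homogeneousComponent_mul_form ha]
    exact Ideal.mul_mem_right _ _ (Ideal.mem_span_singleton_self a)

/-- The colon ideal `(J : a)`. -/
def colon (J : Ideal (MvPolynomial σ κ)) (a : MvPolynomial σ κ) : Ideal (MvPolynomial σ κ) where
  carrier := {p | a * p ∈ J}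
  add_mem' := by
    intro p q hp hq
    simp only [Set.mem_ofPred_eq] at *
    rw [mul_add]; exact J.add_mem hp hq
  zero_mem' := by simp
  smul_mem' := by
    intro c p hp
    simp only [Set.mem_ofPred_eq, smul_eq_mul] at *
    rw [mul_left_comm]; exact J.mul_mem_left c hp

lemma mem_colon {J : Ideal (MvPolynomial σ κ)} {a p : MvPolynomial σ κ} :
    p ∈ colon J a ↔ a * p ∈ J := Iff.rfl

lemma le_colon (J : Ideal (MvPolynomial σ κ)) (a : MvPolynomial σ κ) : J ≤ colon J a :=
  fun _ hp => J.mul_mem_left _ hp

lemma Homog.colon {J : Ideal (MvPolynomial σ κ)} (hJ : Homog J) {a : MvPolynomial σ κ} {d : ℕ}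
    (ha : a ∈ homogeneousSubmodule σ κ d) : Homog (colon J a) := by
  intro p hp k
  rw [mem_colon] at *
  rw [← homogeneousComponent_mul_form ha]
  exact hJ _ hp _

/-- Additivity of the Hilbert function. -/
lemma hilb_colon [Finite σ] {J : Ideal (MvPolynomial σ κ)} (hJ : Homog J) {a : MvPolynomial σ κ}
    {d : ℕ} (ha : a ∈ homogeneousSubmodule σ κ d) (ha0 : a ≠ 0) (k : ℕ) :
    hilb J (k + d) = hilb (colon J a) k + hilb (J ⊔ Ideal.span {a}) (k + d) := by
  classical
  set V := homogeneousSubmodule σ κ k
  set W := homogeneousSubmodule σ κ (k + d)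
  set g : MvPolynomial σ κ →ₗ[κ] MvPolynomial σ κ := LinearMap.mulLeft κ a
  have ginj : Function.Injective g := fun x y hxy => mul_left_cancel₀ ha0 hxy
  have e1 : V.map g ⊔ part J (k + d) = part (J ⊔ Ideal.span {a}) (k + d) := by
    apply le_antisymm
    · refine sup_le ?_ ?_
      · rintro _ ⟨p, hp, rfl⟩
        refine mem_part.2 ⟨?_, ?_⟩
        · have : a * p ∈ homogeneousSubmodule σ κ (d + k) := IsHomogeneous.mul ha hp
          rw [add_comm k d]; exact this
        · exact Submodule.mem_sup_right
            (Ideal.mul_mem_right _ _ (Ideal.mem_span_singleton_self a))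
      · intro p hp
        obtain ⟨h1, h2⟩ := mem_part.1 hp
        exact mem_part.2 ⟨h1, Submodule.mem_sup_left h2⟩
    · intro p hp
      obtain ⟨h1, h2⟩ := mem_part.1 hp
      rw [Submodule.mem_sup] at h2
      obtain ⟨y, hy, z, hz, rfl⟩ := h2
      rw [Ideal.mem_span_singleton'] at hz
      obtain ⟨c, rfl⟩ := hz
      have h3 : y + c * a = homogeneousComponent (k + d) y + a * homogeneousComponent k c := by
        have := homogeneousComponent_of_mem (m := k + d) h1
        rw [if_pos rfl] at this
        conv_lhs => rw [← this]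
        rw [map_add, mul_comm c a, homogeneousComponent_mul_form ha]
      rw [h3, add_comm (homogeneousComponent (k + d) y)]
      refine Submodule.add_mem_sup ⟨homogeneousComponent k c, homogeneousComponent_mem k c, rfl⟩ ?_
      exact mem_part.2 ⟨homogeneousComponent_mem _ _, hJ y hy _⟩
  have e2 : V.map g ⊓ part J (k + d) = (part (colon J a) k).map g := by
    apply le_antisymm
    · rintro _ ⟨⟨p, hp, rfl⟩, h2⟩
      exact ⟨p, mem_part.2 ⟨hp, (mem_part.1 h2).2⟩, rfl⟩
    · rintro _ ⟨p, hp, rfl⟩
      obtain ⟨h1, h2⟩ := mem_part.1 hp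
      refine ⟨⟨p, h1, rfl⟩, mem_part.2 ⟨?_, h2⟩⟩
      have : a * p ∈ homogeneousSubmodule σ κ (d + k) := IsHomogeneous.mul ha h1
      rw [add_comm k d]; exact this
  have h := Submodule.finrank_sup_add_finrank_inf_eq (V.map g) (part J (k + d))
  rw [e1, e2] at h
  have h1 : Module.finrank κ (V.map g) = Module.finrank κ V :=
    (Submodule.equivMapOfInjective g ginj V).finrank_eq.symm
  have h2 : Module.finrank κ ((part (colon J a) k).map g) =
      Module.finrank κ (part (colon J a) k) :=
    (Submodule.equivMapOfInjective g ginj _).finrank_eq.symm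
  have a1 := hilb_add_part J (k + d)
  have a2 := hilb_add_part (colon J a) k
  have a3 := hilb_add_part (J ⊔ Ideal.span {a}) (k + d)
  rw [h1, h2] at h
  change _ = Module.finrank κ V at a2
  generalize Module.finrank κ V = x1 at *
  omega

end Pool.Agent.CurveDeg
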