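import Mathlib

/-!
Transcendence degree: a counting lemma, and a countable algebraically closed subfield of `ℂ` that
contains algebraically independent elements.
-/

set_option autoImplicit false

namespace Pool.Agent.CurveDeg

open MvPolynomial

/-- An algebraically independent set whose elements are all algebraic over `ℚ(S)` has at most as
many elements as `S`. -/
theorem encard_le_of_algebraic {Ω : Type*} [Field Ω] [Algebra ℚ Ω] (I S : Set Ω)
    (hI : AlgebraicIndepOn ℚ id I) (hS : ∀ a ∈ I, IsAlgebraic (Algebra.adjoin ℚ S) a) :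
    I.encard ≤ S.encard := by
  obtain ⟨B, hB⟩ := (AlgebraicIndependent.matroid ℚ Ω).exists_isBasis S (Set.subset_univ _)
  have hB' := AlgebraicIndependent.matroid_isBasis_iff.1 hB
  have hBSI : (AlgebraicIndependent.matroid ℚ Ω).IsBasis B (S ∪ I) := by
    rw [AlgebraicIndependent.matroid_isBasis_iff]
    refine ⟨hB'.1, hB'.2.1.trans Set.subset_union_left, ?_⟩
    rintro a (ha | ha)
    · exact hB'.2.2 a ha
    · exact (AlgebraicIndependent.isAlgebraic_adjoin_iff_of_matroid_isBasis hB).2 (hS a ha)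
  obtain ⟨J, hJ, hIJ⟩ := Matroid.Indep.subset_isBasis_of_subset
    (M := AlgebraicIndependent.matroid ℚ Ω) (I := I) hI (Set.subset_union_right (s := S))
    (Set.subset_univ _)
  calc I.encard ≤ J.encard := Set.encard_le_encard hIJ
    _ = B.encard := hJ.encard_eq_encard hBSI
    _ ≤ S.encard := Set.encard_le_encard hB'.2.1

/-- The relative algebraic closure of `ℚ(S)`. -/
def algCl {Ω : Type*} [Field Ω] [Algebra ℚ Ω] (S : Set Ω) : Subfield Ω where
  carrier := {a | IsAlgebraic (Algebra.adjoin ℚ S) a}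
  mul_mem' := fun ha hb => IsAlgebraic.mul ha hb
  one_mem' := isAlgebraic_one
  add_mem' := fun ha hb => IsAlgebraic.add ha hb
  zero_mem' := isAlgebraic_zero
  neg_mem' := fun ha => IsAlgebraic.neg ha
  inv_mem' := fun _ ha => IsAlgebraic.inv ha

lemma mem_algCl {Ω : Type*} [Field Ω] [Algebra ℚ Ω] {S : Set Ω} {a : Ω} :
    a ∈ algCl S ↔ IsAlgebraic (Algebra.adjoin ℚ S) a := Iff.rfl

lemma subset_algCl {Ω : Type*} [Field Ω] [Algebra ℚ Ω] {S : Set Ω} {a : Ω} (ha : a ∈ S) :
    a ∈ algCl S :=
  isAlgebraic_algebraMap (⟨a, Algebra.subset_adjoin ha⟩ : Algebra.adjoin ℚ S)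

lemma pow_mem_algCl {Ω : Type*} [Field Ω] [Algebra ℚ Ω] {S : Set Ω} {a : Ω} {q : ℕ} (hq : 0 < q)
    (ha : a ^ q ∈ algCl S) : a ∈ algCl S := IsAlgebraic.of_pow hq ha

/-- The counting lemma in the form it is used. -/
theorem not_all_mem {K₀ Ω : Type*} [Field K₀] [CharZero K₀] [Field Ω] [CharZero Ω] [Algebra K₀ Ω]
    {ι : Type*} [Fintype ι] (c : ι → K₀) (hc : AlgebraicIndependent ℚ c) (ξ : Ω)
    (hξ : Transcendental K₀ ξ) (T : Finset ι) (Y : Finset Ω) (hY : Y.card ≤ T.card)
    (h1 : ∀ t ∈ T, algebraMap K₀ Ω (c t) ∈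
      algCl (((fun i => algebraMap K₀ Ω (c i)) '' {i | i ∉ T}) ∪ (Y : Set Ω)))
    (h2 : ξ ∈ algCl (((fun i => algebraMap K₀ Ω (c i)) '' {i | i ∉ T}) ∪ (Y : Set Ω))) :
    False := by
  classical
  set S : Set Ω := ((fun i => algebraMap K₀ Ω (c i)) '' {i | i ∉ T}) ∪ (Y : Set Ω) with hS
  have hind : AlgebraicIndependent ℚ
      (Sum.elim (fun _ : Unit => ξ) (algebraMap K₀ Ω ∘ c)) :=
    AlgebraicIndependent.sumElim_comp hc (algebraicIndependent_unique_type_iff.2 hξ)
  have hinj := hind.injective
  have h3 := encard_le_of_algebraic (Set.range (Sum.elim (fun _ : Unit => ξ)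
    (algebraMap K₀ Ω ∘ c))) S hind.to_subtype_range (by
      rintro _ ⟨i | i, rfl⟩
      · exact h2
      · by_cases hi : i ∈ T
        · exact h1 i hi
        · exact subset_algCl (Or.inl ⟨i, hi, rfl⟩))
  have h4 : (Set.range (Sum.elim (fun _ : Unit => ξ) (algebraMap K₀ Ω ∘ c))).encard =
      ((Fintype.card ι + 1 : ℕ) : ℕ∞) := by
    rw [← Set.image_univ, hinj.encard_image, Set.encard_univ, ENat.card_eq_coe_fintype_card,
      Fintype.card_sum, Fintype.card_unit, add_comm]
  have h5 : S.encard ≤ ((Fintype.card ι : ℕ) : ℕ∞) := by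
    have e1 : S = ((((Finset.univ \ T).image fun i => algebraMap K₀ Ω (c i)) ∪ Y :
        Finset Ω) : Set Ω) := by
      rw [hS]
      push_cast
      congr 2
      ext i
      simp
    rw [e1, Set.encard_coe_eq_coe_finsetCard]
    have h6 : (((Finset.univ \ T).image fun i => algebraMap K₀ Ω (c i)) ∪ Y).card ≤
        Fintype.card ι := by
      refine (Finset.card_union_le _ _).trans ?_
      have h7 := Finset.card_image_le (s := Finset.univ \ T) (f := fun i => algebraMap K₀ Ω (c i))
      have h8 : (Finset.univ \ T).card = Fintype.card ι - T.card := by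
        rw [Finset.card_univ_sdiff]
      have h9 := Finset.card_le_univ T
      omega
    exact_mod_cast h6
  rw [h4] at h3
  have h6 := h3.trans h5
  have h7 : Fintype.card ι + 1 ≤ Fintype.card ι := by exact_mod_cast h6
  omega

/-- There is a countable algebraically closed field with a given finite number of algebraically
independent elements that embeds into `ℂ`. -/
theorem exists_subfield (ι : Type) [Countable ι] :
    ∃ (K₀ : Type) (_ : Field K₀) (_ : IsAlgClosed K₀) (_ : CharZero K₀) (_ : Algebra K₀ ℂ)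
      (_ : Countable K₀) (c : ι → K₀), AlgebraicIndependent ℚ c := by
  obtain ⟨s, hs⟩ := exists_isTranscendenceBasis ℚ ℂ
  have hcard := IsAlgClosed.cardinal_eq_cardinal_transcendence_basis_of_aleph0_lt' _ hs
    (by simp) (by rw [Cardinal.mk_complex]; exact Cardinal.aleph0_lt_continuum)
  have hinf : Infinite s := by
    rw [Cardinal.infinite_iff, ← hcard, Cardinal.mk_complex]
    exact Cardinal.aleph0_lt_continuum.le
  obtain ⟨f, hf⟩ := exists_injective_nat ι
  let g : ι → s := fun i => Infinite.natEmbedding s (f i)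
  have hg : Function.Injective g := (Infinite.natEmbedding s).injective.comp hf
  have hind : AlgebraicIndependent ℚ fun i => (g i : ℂ) := hs.1.comp g hg
  let F := IntermediateField.adjoin ℚ (Set.range fun i => (g i : ℂ))
  let K₀ := algebraicClosure F ℂ
  refine ⟨K₀, inferInstance, ?_, inferInstance, inferInstance, ?_, ?_⟩
  · exact IsAlgClosure.isAlgClosed F
  · rw [← Cardinal.mk_le_aleph0_iff]
    have h1 : Cardinal.mk F ≤ Cardinal.aleph0 := by
      refine (IntermediateField.cardinalMk_adjoin_le ℚ _).trans ?_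
      refine max_le (max_le (by simp) ?_) le_rfl
      have : Countable (Set.range fun i => (g i : ℂ)) := Set.countable_range _ |>.to_subtype
      exact Cardinal.mk_le_aleph0_iff.2 this
    exact (Algebra.IsAlgebraic.cardinalMk_le_max F K₀).trans (max_le h1 le_rfl)
  · have hmem : ∀ i, (g i : ℂ) ∈ F := fun i => IntermediateField.subset_adjoin _ _ ⟨i, rfl⟩
    let c : ι → K₀ := fun i => algebraMap F K₀ ⟨g i, hmem i⟩
    have hc : ∀ i, algebraMap K₀ ℂ (c i) = g i := fun i => rfl
    refine ⟨c, ?_⟩
    refine AlgebraicIndependent.of_comp (((algebraMap K₀ ℂ) : K₀ →+* ℂ).toRatAlgHom) ?_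
    exact hind

end Pool.Agent.CurveDeg
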