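import Pool.Agent.CurveDeg.Indep

/-!
The Kummer argument: if a sum with generic coefficients of monomials in roots lies in the base
field then so do the roots, up to an algebraic relation between the coefficients.
-/

set_option autoImplicit false

namespace Pool.Agent.CurveDeg

/-- Separation of characters. -/
lemma sum_fiber_eq_zero {Ω ι : Type*} [Field Ω] [DecidableEq Ω] (s : Finset ι) (χ T : ι → Ω)
    (ω : Ω) (h : ∀ i : ℕ, ∑ m ∈ s, χ m ^ i * T m = ω) (χ₀ : Ω) (hχ : χ₀ ≠ 1) :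
    ∑ m ∈ s with χ m = χ₀, T m = 0 := by
  classical
  have hP : ∀ P : Polynomial Ω, ∑ m ∈ s, P.eval (χ m) * T m = P.eval 1 * ω := by
    intro P
    simp only [Polynomial.eval_eq_sum, Polynomial.sum, one_pow, mul_one]
    simp only [Finset.sum_mul]
    rw [Finset.sum_comm]
    refine Finset.sum_congr rfl fun i _ => ?_
    rw [← h i, Finset.mul_sum]
    exact Finset.sum_congr rfl fun m _ => by ring
  let B : Finset Ω := (insert 1 (s.image χ)).erase χ₀
  let P : Polynomial Ω := ∏ b ∈ B, (Polynomial.X - Polynomial.C b)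
  have h0 : ∀ b ∈ B, P.eval b = 0 := by
    intro b hb
    change (∏ b ∈ B, (Polynomial.X - Polynomial.C b)).eval b = 0
    rw [Polynomial.eval_prod, Finset.prod_eq_zero hb]
    simp
  have h1 : P.eval χ₀ ≠ 0 := by
    change (∏ b ∈ B, (Polynomial.X - Polynomial.C b)).eval χ₀ ≠ 0
    rw [Polynomial.eval_prod, Finset.prod_ne_zero_iff]
    intro b hb
    simp only [Polynomial.eval_sub, Polynomial.eval_X, Polynomial.eval_C]
    exact sub_ne_zero.2 (Finset.ne_of_mem_erase hb).symm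
  have h2 := hP P
  rw [h0 1 (Finset.mem_erase.2 ⟨hχ.symm, Finset.mem_insert_self _ _⟩), zero_mul] at h2
  have h3 : ∑ m ∈ s, P.eval (χ m) * T m = P.eval χ₀ * ∑ m ∈ s with χ m = χ₀, T m := by
    rw [Finset.mul_sum, Finset.sum_filter]
    refine Finset.sum_congr rfl fun m hm => ?_
    split_ifs with hc
    · rw [hc]
    · rw [h0 (χ m) (Finset.mem_erase.2 ⟨hc, Finset.mem_insert_of_mem
        (Finset.mem_image_of_mem _ hm)⟩), zero_mul]
  rw [h3] at h2
  exact (mul_eq_zero.1 h2).resolve_left h1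

lemma mem_range_of_isAlgebraic {K₀ Ω : Type*} [Field K₀] [IsAlgClosed K₀] [Field Ω]
    [Algebra K₀ Ω] {z : Ω} (hz : IsAlgebraic K₀ z) : z ∈ Set.range (algebraMap K₀ Ω) := by
  have h1 := minpoly.irreducible (hz.isIntegral)
  exact minpoly.mem_range_of_degree_eq_one K₀ z (IsAlgClosed.degree_eq_one_of_irreducible K₀ h1)

lemma transcendental_of_val {K₀ Ω : Type*} [Field K₀] [IsAlgClosed K₀] [Field Ω]
    [Algebra K₀ Ω] {z : Ω} (hz : z ∉ Set.range (algebraMap K₀ Ω)) : Transcendental K₀ z :=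
  fun h => hz (mem_range_of_isAlgebraic h)

/-- Powers of a root of unity of order a power of `p` larger than `p ^ ε`. -/
lemma pow_ne_pow {Ω : Type*} [Field Ω] {p ε : ℕ} (hp : p.Prime) {z : Ω} {x : ℕ}
    (hz : z ^ (p ^ x) = 1) (hz1 : z ^ (p ^ ε) ≠ 1) {a b : ℕ} (ha : a < p ^ (ε + 1))
    (hb : b < p ^ (ε + 1)) (h : z ^ a = z ^ b) : a = b := by
  have h1 : orderOf z ∣ p ^ x := orderOf_dvd_of_pow_eq_one hz
  obtain ⟨s, _, hs⟩ := (Nat.dvd_prime_pow hp).1 h1
  have h2 : ε + 1 ≤ s := by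
    by_contra hc
    apply hz1
    rw [← orderOf_dvd_iff_pow_eq_one, hs]
    exact pow_dvd_pow _ (by omega)
  have h3 : p ^ (ε + 1) ≤ orderOf z := by
    rw [hs]
    exact Nat.pow_le_pow_right hp.pos h2
  exact pow_injOn_Iio_orderOf (Set.mem_Iio.2 (ha.trans_le h3)) (Set.mem_Iio.2 (hb.trans_le h3)) h

/-- **The Kummer argument.** -/
theorem kummer_mem {K₀ E Ω : Type*} [Field K₀] [IsAlgClosed K₀] [Field E] [Field Ω]
    [Algebra K₀ E] [Algebra E Ω] [Algebra K₀ Ω] [IsScalarTower K₀ E Ω] [IsGalois E Ω]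
    {p n ε : ℕ} (hp : p.Prime) (hn : n < p ^ (ε + 1)) {τ μ : Type*} [Fintype μ]
    (x : τ → ℕ) (act : Finset τ) (θ : τ → Ω)
    (hθ : ∀ l ∈ act, θ l ^ (p ^ x l) ∈ Set.range (algebraMap E Ω)) (υ : μ → E) (j₀ : μ)
    (hj₀ : υ j₀ = 1) (e : ℕ) (c : τ → μ → Fin n → K₀) (ω : E)
    (hF : algebraMap E Ω ω = ∑ l ∈ act, ∑ j, ∑ a : Fin n,
      algebraMap K₀ Ω (c l j a) * θ l ^ (a.val + 1) * algebraMap E Ω (υ j) ^ (e - (a.val + 1)))
    (k : τ) (hk : k ∈ act) (hkθ : θ k ^ (p ^ ε) ∉ Set.range (algebraMap E Ω)) (A : Subfield Ω)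
    (hA1 : ∀ l ∈ act, ∀ j a, ¬ (l = k ∧ j = j₀) → algebraMap K₀ Ω (c l j a) ∈ A)
    (hA2 : ∀ l ∈ act, θ l ∈ A) (hA3 : ∀ j, algebraMap E Ω (υ j) ∈ A) (a : Fin n) :
    algebraMap K₀ Ω (c k j₀ a) ∈ A := by
  classical
  obtain ⟨σ, hσ⟩ : ∃ σ : Ω ≃ₐ[E] Ω, σ (θ k ^ (p ^ ε)) ≠ θ k ^ (p ^ ε) := by
    by_contra hc
    push Not at hc
    exact hkθ ((InfiniteGalois.mem_range_algebraMap_iff_fixed _).2 hc)
  have hθk : θ k ≠ 0 := by
    rintro h
    rw [h, zero_pow (pow_pos hp.pos _).ne'] at hσ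
    exact hσ (map_zero _)
  -- the characters
  have hz : ∀ l, l ∈ act → ∃ z : Ω, z ^ (p ^ x l) = 1 ∧ σ (θ l) = z * θ l ∧ σ z = z := by
    intro l hl
    by_cases h0 : θ l = 0
    · exact ⟨1, one_pow _, by rw [h0, map_zero, mul_zero], map_one _⟩
    · refine ⟨σ (θ l) / θ l, ?_, (div_mul_cancel₀ _ h0).symm, ?_⟩
      · obtain ⟨y, hy⟩ := hθ l hl
        rw [div_pow, ← map_pow, ← hy, AlgEquiv.commutes, hy]
        exact div_self (pow_ne_zero _ h0)
      · have h1 : (σ (θ l) / θ l) ^ (p ^ x l) = 1 := by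
          obtain ⟨y, hy⟩ := hθ l hl
          rw [div_pow, ← map_pow, ← hy, AlgEquiv.commutes, hy]
          exact div_self (pow_ne_zero _ h0)
        have h2 : IsAlgebraic K₀ (σ (θ l) / θ l) := by
          refine IsAlgebraic.of_pow (pow_pos hp.pos (x l)) ?_
          rw [h1]; exact isAlgebraic_one
        obtain ⟨b, hb⟩ := mem_range_of_isAlgebraic h2
        rw [← hb, IsScalarTower.algebraMap_apply K₀ E Ω, AlgEquiv.commutes]
  choose! z hz1 hz2 hz3 using hz
  have hzk : z k ^ (p ^ ε) ≠ 1 := by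
    intro h
    apply hσ
    rw [map_pow, hz2 k hk, mul_pow, h, one_mul]
  let s : Finset (τ × μ × Fin n) := act ×ˢ Finset.univ
  let T : τ × μ × Fin n → Ω := fun m => algebraMap K₀ Ω (c m.1 m.2.1 m.2.2) *
    θ m.1 ^ (m.2.2.val + 1) * algebraMap E Ω (υ m.2.1) ^ (e - (m.2.2.val + 1))
  let χ : τ × μ × Fin n → Ω := fun m => z m.1 ^ (m.2.2.val + 1)
  have hF' : algebraMap E Ω ω = ∑ m ∈ s, T m := by
    rw [hF]
    simp only [s, T]
    rw [Finset.sum_product]
    refine Finset.sum_congr rfl fun l _ => ?_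
    rw [← Finset.univ_product_univ, Finset.sum_product]
  have hσT : ∀ m ∈ s, ∀ b : Ω, σ b = b → σ (b * T m) = b * χ m * T m := by
    intro m hm b hb
    have hm1 : m.1 ∈ act := (Finset.mem_product.1 hm).1
    simp only [T, χ]
    rw [map_mul, map_mul, map_mul, map_pow, map_pow, hz2 _ hm1, hb, AlgEquiv.commutes,
      IsScalarTower.algebraMap_apply K₀ E Ω, AlgEquiv.commutes, mul_pow]
    ring
  have hχσ : ∀ m ∈ s, ∀ i, σ (χ m ^ i) = χ m ^ i := by
    intro m hm i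
    have hm1 : m.1 ∈ act := (Finset.mem_product.1 hm).1
    simp only [χ]
    rw [map_pow, map_pow, hz3 _ hm1]
  have hpow : ∀ i : ℕ, ∑ m ∈ s, χ m ^ i * T m = algebraMap E Ω ω := by
    intro i
    induction i with
    | zero => rw [hF']; simp
    | succ i ih =>
      have h1 := congrArg σ ih
      rw [AlgEquiv.commutes, map_sum] at h1
      rw [← h1]
      refine Finset.sum_congr rfl fun m hm => ?_
      rw [hσT m hm _ (hχσ m hm i), pow_succ]
  have ha : a.val + 1 < p ^ (ε + 1) := by have := a.2; omega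
  have hχ0 : z k ^ (a.val + 1) ≠ 1 := by
    intro h
    have := pow_ne_pow hp (hz1 k hk) hzk ha (pow_pos hp.pos _) (h.trans (pow_zero _).symm)
    omega
  have hsum := sum_fiber_eq_zero s χ T _ hpow (z k ^ (a.val + 1)) hχ0
  have hmem : (k, j₀, a) ∈ s.filter fun m => χ m = z k ^ (a.val + 1) := by
    rw [Finset.mem_filter]
    exact ⟨Finset.mem_product.2 ⟨hk, Finset.mem_univ _⟩, rfl⟩
  rw [← Finset.add_sum_erase _ _ hmem] at hsum
  have hT0 : T (k, j₀, a) = algebraMap K₀ Ω (c k j₀ a) * θ k ^ (a.val + 1) := by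
    simp only [T]
    rw [hj₀, map_one, one_pow, mul_one]
  have hrest : ∑ m ∈ (s.filter fun m => χ m = z k ^ (a.val + 1)).erase (k, j₀, a), T m ∈ A := by
    refine A.sum_mem fun m hm => ?_
    obtain ⟨hne, hm⟩ := Finset.mem_erase.1 hm
    obtain ⟨hms, hmχ⟩ := Finset.mem_filter.1 hm
    have hm1 : m.1 ∈ act := (Finset.mem_product.1 hms).1
    refine A.mul_mem (A.mul_mem (hA1 _ hm1 _ _ ?_) (A.pow_mem (hA2 _ hm1) _))
      (A.pow_mem (hA3 _) _)
    rintro ⟨h1, h2⟩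
    apply hne
    have hmp : m.2.2.val + 1 < p ^ (ε + 1) := by have := m.2.2.2; omega
    have h3 : z k ^ (m.2.2.val + 1) = z k ^ (a.val + 1) := by
      have := hmχ
      simp only [χ] at this
      rwa [h1] at this
    have h4 := pow_ne_pow hp (hz1 k hk) hzk hmp ha h3
    have h5 : m.2.2 = a := Fin.ext (by omega)
    exact Prod.ext h1 (Prod.ext h2 h5)
  rw [hT0] at hsum
  have h6 : algebraMap K₀ Ω (c k j₀ a) =
      -(∑ m ∈ (s.filter fun m => χ m = z k ^ (a.val + 1)).erase (k, j₀, a), T m) /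
        θ k ^ (a.val + 1) := by
    rw [eq_div_iff (pow_ne_zero _ hθk)]
    linear_combination hsum
  rw [h6]
  exact A.div_mem (A.neg_mem hrest) (A.pow_mem (hA2 k hk) _)

end Pool.Agent.CurveDeg
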