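import Pool.Agent.CurveDeg.Star
import Pool.Agent.CurveDeg.Place

/-!
Assembly of the second divisibility theorem for curves on very general complete intersections.
-/

set_option autoImplicit false

namespace Pool.Agent.CurveDeg

open MvPolynomial

/-- The polynomials over a countable field that must not vanish at the coefficients. -/
lemma exists_bad_over (Θ : Type) [Countable Θ] (K₀ : Type) [Field K₀] [Countable K₀]
    [Algebra K₀ ℂ] : ∃ bad : ℕ → MvPolynomial Θ ℂ,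
    (∀ j, bad j ≠ 0) ∧ ∀ c : Θ → ℂ, (∀ j, eval c (bad j) ≠ 0) →
      ∀ q : MvPolynomial Θ K₀, q ≠ 0 → aeval c q ≠ 0 := by
  have h0 : Cardinal.mk K₀ ≤ Cardinal.aleph0 := Cardinal.mk_le_aleph0_iff.2 inferInstance
  have h1 : Countable (MvPolynomial Θ K₀) := by
    rw [← Cardinal.mk_le_aleph0_iff]
    refine cardinalMk_le_max.trans (max_le (max_le h0 ?_) le_rfl)
    exact Cardinal.mk_le_aleph0_iff.2 inferInstance
  have h2 : Nonempty {q : MvPolynomial Θ K₀ // q ≠ 0} := ⟨⟨1, one_ne_zero⟩⟩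
  obtain ⟨F, hF⟩ := exists_surjective_nat {q : MvPolynomial Θ K₀ // q ≠ 0}
  refine ⟨fun j => map (algebraMap K₀ ℂ) (F j).1, fun j => ?_, ?_⟩
  · intro h
    have h3 : map (algebraMap K₀ ℂ) (F j).1 = map (algebraMap K₀ ℂ) 0 := h.trans (map_zero _).symm
    exact (F j).2 (map_injective _ (algebraMap K₀ ℂ).injective h3)
  · intro c hc q hq
    obtain ⟨j, hj⟩ := hF ⟨q, hq⟩
    have h3 : eval c (map (algebraMap K₀ ℂ) (F j).1) ≠ 0 := hc j
    rw [hj, eval_map] at h3
    exact h3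

/-- The divisibility of the slope. -/
theorem dvd_of_generic_star {n r : ℕ} (d : Fin r → ℕ) {K₀ : Type} [Field K₀] [IsAlgClosed K₀]
    [CharZero K₀] [Algebra K₀ ℂ] (c : Cf n r → K₀) (hc : AlgebraicIndependent ℚ c)
    (f : Fin r → MvPolynomial (Fin (n + r + 1)) ℂ)
    (hf : ∀ i, f i ∈ homogeneousSubmodule (Fin (n + r + 1)) ℂ (d i))
    (hgen : ∀ q : MvPolynomial (Σ i : Fin r, Mon (Fin (n + r + 1)) (d i)) K₀, q ≠ 0 →
      aeval (fun x => coeff x.2.1 (f x.1)) q ≠ 0)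
    (I : Ideal (MvPolynomial (Fin (n + r + 1)) ℂ)) (hI : Homog I) (hfI : ∀ i, f i ∈ I)
    (hdim : ringKrullDim (MvPolynomial (Fin (n + r + 1)) ℂ ⧸ I) ≤ 2)
    (e : ℤ) (he : EvAffine (hilb I) e) {p L ε : ℕ} (hp : p.Prime) (hn : n ≤ (p - 1) * p ^ ε)
    (x : Fin r → Fin n → ℕ) (hx : ∀ i k, x i k = 0 ∨ ε < x i k)
    (h1 : ∀ i, p ^ (∑ k, x i k) ∣ d i)
    (h2 : ∀ k, L ≤ ∑ i, (x i k - ε))
    (h3 : ∀ k i i', Multi x i → Multi x i' → 0 < x i k → 0 < x i' k → i = i')
    (h4 : ∀ i, Multi x i → n * p ^ (∑ k, x i k) ≤ d i) :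
    ((p : ℤ) ^ (L - (n - 1) * ε)) ∣ e := by
  have hloss : loss (fun _ => ε) n = (n - 1) * ε := by
    unfold loss
    rw [Finset.sum_const, Nat.card_Ico, smul_eq_mul]
  rw [← hloss]
  let u : Fin (n + 1) → Fin (n + r + 1) := fun j => ⟨j, by omega⟩
  let w : Fin r → Fin (n + r + 1) := fun i => ⟨n + 1 + i, by omega⟩
  have huw : ∀ i : Fin (n + r + 1), (∃ j, i = u j) ∨ ∃ j, i = w j := by
    intro i
    by_cases h : i.val < n + 1
    · exact Or.inl ⟨⟨i, h⟩, rfl⟩
    · refine Or.inr ⟨⟨i - (n + 1), by omega⟩, ?_⟩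
      apply Fin.ext
      change i.val = n + 1 + (i.val - (n + 1))
      omega
  obtain ⟨g, hg, hg'⟩ := star_forms u w huw d hp hn x hx h1 h2 h3 h4 c hc
  obtain ⟨κ, _, _, _, I₀, hI₀, hgI, hh⟩ := exists_place d f hf hgen g hg I hI hfI
  obtain ⟨C, hC⟩ := growth_two I hI hdim
  have hhilb : hilb I₀ = hilb I := funext hh
  refine dvd_slope_of_primes ((p : ℤ) ^ (L - loss (fun _ => ε) n)) I₀ hI₀
    ⟨C, fun k => by rw [hhilb]; exact hC k⟩ ?_ e (by rw [hhilb]; exact he)
  intro P hP hPp hle e' he'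
  exact hg' κ P hP hPp (fun i => hle (hgI i)) e' he'

/-- The second main theorem. -/
theorem main_star (n r : ℕ) (d : Fin r → ℕ) :
    ∃ bad : ℕ → MvPolynomial (Σ i : Fin r, {m : Fin (n + r + 1) →₀ ℕ // m.degree = d i}) ℂ,
      (∀ j, bad j ≠ 0) ∧
      ∀ f : Fin r → MvPolynomial (Fin (n + r + 1)) ℂ,
        (∀ i, f i ∈ homogeneousSubmodule (Fin (n + r + 1)) ℂ (d i)) →
        (∀ j, eval (fun x => coeff x.2.1 (f x.1)) (bad j) ≠ 0) →
        ∀ I : Ideal (MvPolynomial (Fin (n + r + 1)) ℂ), Homog I → I.IsPrime →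
          ringKrullDim (MvPolynomial (Fin (n + r + 1)) ℂ ⧸ I) = 2 →
          (∀ i, f i ∈ I) →
          ∃ e : ℕ, (∃ K : ℕ, ∀ k : ℕ, K ≤ k → hilb I (k + 1) = hilb I k + e) ∧
            ∀ (p L ε : ℕ) (x : Fin r → Fin n → ℕ), p.Prime → n ≤ (p - 1) * p ^ ε →
              (∀ i, p ^ (∑ k, x i k) ∣ d i) → (∀ k, L ≤ ∑ i, (x i k - ε)) →
              (∀ k i i', i ≠ i' → 0 < x i k → 0 < x i' k →
                (∀ k', k' ≠ k → x i k' = 0) ∨ (∀ k', k' ≠ k → x i' k' = 0)) →
              (∀ i, (∃ k k', k ≠ k' ∧ 0 < x i k ∧ 0 < x i k') → n * p ^ (∑ k, x i k) ≤ d i) →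
              p ^ (L - (n - 1) * ε) ∣ e := by
  obtain ⟨K₀, _, _, _, _, _, c, hc⟩ := exists_subfield (Cf n r)
  obtain ⟨bad, hbad0, hbad⟩ := exists_bad_over (Σ i : Fin r, Mon (Fin (n + r + 1)) (d i)) K₀
  refine ⟨bad, hbad0, ?_⟩
  intro f hf hbadf I hI hIp hdim hfI
  have hgen := hbad _ hbadf
  obtain ⟨e, he⟩ := evAffine_of_growth I hI (growth_two I hI hdim.le)
  have he0 := he.slope_nonneg
  refine ⟨e.toNat, ?_, ?_⟩
  · obtain ⟨c, K, hK⟩ := he
    refine ⟨K, fun k hk => ?_⟩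
    have h1 := hK k hk
    have h2 := hK (k + 1) (by omega)
    have h3 : ((hilb I (k + 1) : ℕ) : ℤ) = (hilb I k : ℤ) + (e.toNat : ℤ) := by
      rw [h2, h1, Int.toNat_of_nonneg he0]; push_cast; ring
    exact_mod_cast h3
  · intro p L ε x hp hn h1 h2 h3 h4
    set x' : Fin r → Fin n → ℕ := fun i k => if x i k ≤ ε then 0 else x i k with hx'
    have hle : ∀ i k, x' i k ≤ x i k := by
      intro i k
      simp only [hx']
      split_ifs
      · exact Nat.zero_le _
      · exact le_rfl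
    have hsum : ∀ i, ∑ k, x' i k ≤ ∑ k, x i k := fun i => Finset.sum_le_sum fun k _ => hle i k
    have hM : ∀ i, Multi x' i → Multi x i := by
      rintro i ⟨k, k', hne, h5, h6⟩
      exact ⟨k, k', hne, h5.trans_le (hle i k), h6.trans_le (hle i k')⟩
    have h5 := dvd_of_generic_star d c hc f hf hgen I hI hfI hdim.le e he hp hn x' (by
      intro i k
      simp only [hx']
      split_ifs with h
      · exact Or.inl rfl
      · exact Or.inr (by omega)) (fun i => (pow_dvd_pow p (hsum i)).trans (h1 i)) (by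
      intro k
      refine (h2 k).trans (Finset.sum_le_sum fun i _ => ?_)
      simp only [hx']
      split_ifs with h
      · omega
      · exact le_rfl) (by
      intro k i i' hi hi' hik hik'
      by_contra hne
      rcases h3 k i i' hne (hik.trans_le (hle i k)) (hik'.trans_le (hle i' k)) with h | h
      · obtain ⟨k₁, k₂, hne', hk₁, hk₂⟩ := hM i hi
        by_cases hk : k₁ = k
        · have := h k₂ (by rintro rfl; exact hne' hk)
          omega
        · have := h k₁ hk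
          omega
      · obtain ⟨k₁, k₂, hne', hk₁, hk₂⟩ := hM i' hi'
        by_cases hk : k₁ = k
        · have := h k₂ (by rintro rfl; exact hne' hk)
          omega
        · have := h k₁ hk
          omega) (fun i hi => (Nat.mul_le_mul_left n (Nat.pow_le_pow_right hp.pos (hsum i))).trans
            (h4 i (hM i hi)))
    have h6 : ((p ^ (L - (n - 1) * ε) : ℕ) : ℤ) ∣ (e.toNat : ℤ) := by
      rw [Int.toNat_of_nonneg he0]; push_cast; exact h5
    exact_mod_cast h6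

end Pool.Agent.CurveDeg
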