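import Mathlib

/-!
Norm forms: a polynomial in the powers `X s ^ q s` whose zeros come from the relation
`X o ^ e = F (roots)`.
-/

set_option autoImplicit false

namespace Pool.Agent.CurveDeg

open MvPolynomial

section

variable {K : Type*} [Field K] {V : Type*} [Fintype V]

/-- Scaling the variables. -/
noncomputable def sc (z : V → K) : MvPolynomial V K →ₐ[K] MvPolynomial V K :=
  aeval fun s => C (z s) * X s

omit [Fintype V] in
lemma sc_X (z : V → K) (s : V) : sc z (X s) = C (z s) * X s := aeval_X _ _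

omit [Fintype V] in
lemma sc_sc (z z' : V → K) (p : MvPolynomial V K) : sc z (sc z' p) = sc (fun s => z s * z' s) p := by
  have : (sc z).comp (sc z') = sc (fun s => z s * z' s) := by
    refine algHom_ext fun s => ?_
    rw [AlgHom.comp_apply, sc_X, map_mul, sc_X, sc_X]
    have : sc z (C (z' s)) = C (z' s) := by
      rw [← algebraMap_eq, AlgHom.commutes]
    rw [this, C_mul]; ring
  exact DFunLike.congr_fun this p

lemma sc_monomial (z : V → K) (m : V →₀ ℕ) (a : K) :
    sc z (monomial m a) = monomial m ((∏ s, z s ^ m s) * a) := by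
  unfold sc
  rw [aeval_monomial, Finsupp.prod_fintype _ _ (by simp)]
  simp only [mul_pow]
  rw [Finset.prod_mul_distrib, monomial_eq, Finsupp.prod_fintype _ _ (by simp), algebraMap_eq,
    C_mul, map_prod]
  simp only [map_pow]
  ring

lemma coeff_sc (z : V → K) (p : MvPolynomial V K) (m : V →₀ ℕ) :
    coeff m (sc z p) = (∏ s, z s ^ m s) * coeff m p := by
  classical
  induction p using MvPolynomial.induction_on' with
  | monomial m' a =>
    rw [sc_monomial, coeff_monomial, coeff_monomial]
    split_ifs with h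
    · rw [h]
    · rw [mul_zero]
  | add p q hp hq => rw [map_add, coeff_add, coeff_add, hp, hq]; ring

omit [Fintype V] in
lemma aeval_sc {Ω : Type*} [Field Ω] [Algebra K Ω] (ω : V → Ω) (z : V → K)
    (p : MvPolynomial V K) :
    aeval ω (sc z p) = aeval (fun s => algebraMap K Ω (z s) * ω s) p := by
  have : (aeval ω).comp (sc z) = aeval (fun s => algebraMap K Ω (z s) * ω s) := by
    refine algHom_ext fun s => ?_
    rw [AlgHom.comp_apply, sc_X, map_mul, aeval_X, aeval_X, aeval_C]
  exact DFunLike.congr_fun this p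

omit [Fintype V] in
lemma sc_homog (z : V → K) {p : MvPolynomial V K} {e : ℕ} (hp : p.IsHomogeneous e) :
    (sc z p).IsHomogeneous e := by
  have := IsHomogeneous.aeval (S := K) hp (fun s => C (z s) * X s) (n := 1) (fun s => by
    have := (isHomogeneous_C V (z s)).mul (isHomogeneous_X K s)
    rwa [zero_add] at this)
  rwa [one_mul] at this

end

/-- **Norm forms.** -/
theorem exists_norm {K : Type*} [Field K] [IsAlgClosed K] [CharZero K] {V : Type*} [Fintype V]
    (o : V) (F : MvPolynomial V K) {e : ℕ} (hF : F.IsHomogeneous e) (q : V → ℕ)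
    (hq : ∀ s, 0 < q s) (ho : q o = 1) :
    ∃ N : MvPolynomial V K, (∀ m ∈ N.support, ∑ s, q s * m s = e * ∏ s, q s) ∧
      ∀ (Ω : Type*) [Field Ω] [Algebra K Ω] (ω : V → Ω), aeval (fun s => ω s ^ q s) N = 0 →
        ∃ z : V → K, (∀ s, z s ^ q s = 1) ∧
          ω o ^ e = aeval (fun s => algebraMap K Ω (z s) * ω s) F := by
  classical
  have hne : ∀ s, NeZero (q s) := fun s => ⟨(hq s).ne'⟩
  let G := ∀ s, rootsOfUnity (q s) K
  have hfin : ∀ s, Finite (rootsOfUnity (q s) K) := fun s => inferInstance
  let fG : Fintype G := Fintype.ofFinite G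
  let v : G → V → K := fun z s => ((z s : Kˣ) : K)
  have hv : ∀ (z : G) s, v z s ^ q s = 1 := by
    intro z s
    have h := (z s).2
    rw [mem_rootsOfUnity] at h
    have := congrArg (Units.val) h
    simpa [v] using this
  have hvo : ∀ z : G, v z o = 1 := by
    intro z
    have := hv z o
    rwa [ho, pow_one] at this
  let Φ : MvPolynomial V K := ∏ z : G, (X o ^ e - sc (v z) F)
  have hcard : Fintype.card G = ∏ s, q s := by
    rw [← Nat.card_eq_fintype_card]
    change Nat.card (∀ s, rootsOfUnity (q s) K) = _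
    rw [Nat.card_pi]
    refine Finset.prod_congr rfl fun s _ => ?_
    have : NeZero ((q s : ℕ) : K) := ⟨by exact_mod_cast (hq s).ne'⟩
    exact HasEnoughRootsOfUnity.natCard_rootsOfUnity K (q s)
  have hΦ : Φ.IsHomogeneous (e * ∏ s, q s) := by
    have h := IsHomogeneous.prod (Finset.univ : Finset G) (fun z => X o ^ e - sc (v z) F)
      (fun _ => e) (fun z _ => by
        refine Submodule.sub_mem (homogeneousSubmodule V K e) (isHomogeneous_X_pow _ _)
          (sc_homog _ hF))
    rw [Finset.sum_const, Finset.card_univ, hcard, smul_eq_mul, mul_comm] at h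
    exact h
  have hinv : ∀ g : G, sc (v g) Φ = Φ := by
    intro g
    change sc (v g) (∏ z : G, (X o ^ e - sc (v z) F)) = ∏ z : G, (X o ^ e - sc (v z) F)
    rw [map_prod]
    refine Fintype.prod_equiv (Equiv.mulLeft g) _ _ fun z => ?_
    rw [map_sub, map_pow, sc_X, hvo, sc_sc, C_1, one_mul]
    rfl
  have hdvd : ∀ m ∈ Φ.support, ∀ s, q s ∣ m s := by
    intro m hm s
    have : NeZero ((q s : ℕ) : K) := ⟨by exact_mod_cast (hq s).ne'⟩
    obtain ⟨ζ, hζ⟩ := HasEnoughRootsOfUnity.exists_primitiveRoot K (q s)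
    let g : G := Pi.mulSingle s (rootsOfUnity.mkOfPowEq ζ hζ.pow_eq_one)
    have h1 := congrArg (coeff m) (hinv g)
    rw [coeff_sc] at h1
    have h2 : coeff m Φ ≠ 0 := mem_support_iff.1 hm
    have h3 : ∏ s', v g s' ^ m s' = 1 := by
      have := mul_right_cancel₀ h2 (h1.trans (one_mul _).symm)
      exact this
    have h4 : ∏ s', v g s' ^ m s' = ζ ^ m s := by
      rw [Finset.prod_eq_single s]
      · have : v g s = ζ := by simp [v, g]
        rw [this]
      · intro s' _ hs'
        have : v g s' = 1 := by simp [v, g, Pi.mulSingle_eq_of_ne hs']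
        rw [this, one_pow]
      · intro h; exact absurd (Finset.mem_univ s) h
    rw [h4] at h3
    exact hζ.dvd_of_pow_eq_one _ h3
  let dv : (V →₀ ℕ) → (V →₀ ℕ) := fun m => Finsupp.equivFunOnFinite.symm fun s => m s / q s
  have hdv : ∀ m s, dv m s = m s / q s := fun m s => rfl
  let N : MvPolynomial V K := ∑ m ∈ Φ.support, monomial (dv m) (coeff m Φ)
  refine ⟨N, ?_, ?_⟩
  · intro m' hm'
    have h1 : coeff m' N ≠ 0 := mem_support_iff.1 hm'
    have h2 : coeff m' N = ∑ m ∈ Φ.support, coeff m' (monomial (dv m) (coeff m Φ)) := by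
      change coeff m' (∑ m ∈ Φ.support, monomial (dv m) (coeff m Φ)) = _
      rw [coeff_sum]
    rw [h2] at h1
    obtain ⟨m, hm, h3⟩ := Finset.exists_ne_zero_of_sum_ne_zero h1
    rw [coeff_monomial] at h3
    have h4 : dv m = m' := by
      by_contra hc
      rw [if_neg hc] at h3
      exact h3 rfl
    have h5 : m.degree = e * ∏ s, q s := by
      by_contra hc
      exact (mem_support_iff.1 hm) (IsHomogeneous.coeff_eq_zero hΦ hc)
    rw [← h5, Finsupp.degree_eq_sum]
    refine Finset.sum_congr rfl fun s _ => ?_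
    rw [← h4, hdv, Nat.mul_div_cancel' (hdvd m hm s)]
  · intro Ω _ _ ω hω
    have h1 : aeval (fun s => ω s ^ q s) N = aeval ω Φ := by
      change aeval (fun s => ω s ^ q s) (∑ m ∈ Φ.support, monomial (dv m) (coeff m Φ)) = _
      rw [map_sum]
      conv_rhs => rw [aeval_def, eval₂_eq']
      refine Finset.sum_congr rfl fun m hm => ?_
      rw [aeval_monomial, Finsupp.prod_fintype _ _ (by simp)]
      congr 1
      refine Finset.prod_congr rfl fun s _ => ?_
      rw [← pow_mul, hdv, Nat.mul_div_cancel' (hdvd m hm s)]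
    rw [h1] at hω
    change aeval ω (∏ z : G, (X o ^ e - sc (v z) F)) = 0 at hω
    rw [map_prod, Finset.prod_eq_zero_iff] at hω
    obtain ⟨z, _, hz⟩ := hω
    rw [map_sub, map_pow, aeval_X, aeval_sc] at hz
    exact ⟨v z, hv z, sub_eq_zero.1 hz⟩

end Pool.Agent.CurveDeg
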