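import Pool.Agent.CurveDeg.Dim

/-!
General linear forms in a subset of the variables are parameters.
-/

set_option autoImplicit false

namespace Pool.Agent.CurveDeg

open MvPolynomial

variable {σ : Type*} {κ : Type*} [Field κ] {ι : Type*} [Fintype ι]

/-- The linear form with coefficients `c` in the variables `X (u j)`. -/
noncomputable def lin (u : ι → σ) : (ι → κ) →ₗ[κ] MvPolynomial σ κ where
  toFun c := ∑ j, C (c j) * X (u j)
  map_add' a b := by
    simp only [Pi.add_apply, C_add, add_mul, Finset.sum_add_distrib]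
  map_smul' a b := by
    simp only [Pi.smul_apply, smul_eq_mul, C_mul, RingHom.id_apply, Finset.smul_sum, smul_eq_C_mul,
      mul_assoc]

lemma lin_apply (u : ι → σ) (c : ι → κ) : lin u c = ∑ j, C (c j) * X (u j) := rfl

lemma lin_mem_one (u : ι → σ) (c : ι → κ) : lin u c ∈ homogeneousSubmodule σ κ 1 := by
  rw [lin_apply]
  refine Submodule.sum_mem _ fun j _ => ?_
  rw [← smul_eq_C_mul]
  exact Submodule.smul_mem _ _ (X_mem_one _)

lemma lin_single [DecidableEq ι] (u : ι → σ) (j : ι) :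
    lin u (Pi.single j (1 : κ)) = X (u j) := by
  rw [lin_apply, Finset.sum_eq_single j]
  · simp
  · intro b _ hb
    simp [Pi.single_eq_of_ne hb]
  · simp

lemma hilb_eq_zero_of_forms_mem [Finite σ] {J : Ideal (MvPolynomial σ κ)} {k : ℕ}
    (h : ∀ p ∈ homogeneousSubmodule σ κ k, p ∈ J) : hilb J k = 0 := by
  have h1 := hilb_add_part J k
  have h2 : part J k = homogeneousSubmodule σ κ k :=
    le_antisymm inf_le_left fun p hp => mem_part.2 ⟨hp, h p hp⟩
  rw [h2] at h1
  omega

/-- The space of coefficient vectors whose linear form lies in `J`. -/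
noncomputable def badSub (u : ι → σ) (J : Ideal (MvPolynomial σ κ)) : Submodule κ (ι → κ) :=
  (J.restrictScalars κ).comap (lin u)

lemma mem_badSub (u : ι → σ) (J : Ideal (MvPolynomial σ κ)) (c : ι → κ) :
    c ∈ badSub u J ↔ lin u c ∈ J := by
  simp [badSub]

lemma badSub_ne_top (u : ι → σ) (J : Ideal (MvPolynomial σ κ)) (j : ι)
    (hj : X (u j) ∉ J) : badSub u J ≠ ⊤ := by
  classical
  intro h
  apply hj
  have : (Pi.single j (1 : κ) : ι → κ) ∈ badSub u J := by rw [h]; exact Submodule.mem_top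
  rw [mem_badSub, lin_single] at this
  exact this

lemma eventually_const_of_bounded {h : ℕ → ℕ} (hm : ∀ k, h k ≤ h (k + 1)) {C : ℕ}
    (hC : ∀ k, h k ≤ C) : ∃ K, ∀ k, K ≤ k → h (k + 1) = h k := by
  have hmono : Monotone h := monotone_nat_of_le_succ hm
  by_contra hcon
  push Not at hcon
  have key : ∀ m, ∃ k, m ≤ h k := by
    intro m
    induction m with
    | zero => exact ⟨0, Nat.zero_le _⟩
    | succ m ih =>
      obtain ⟨k, hk⟩ := ih
      obtain ⟨k', hk', hne⟩ := hcon k
      refine ⟨k' + 1, ?_⟩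
      have h1 := hm k'
      have h2 := hmono hk'
      omega
  obtain ⟨k, hk⟩ := key (C + 1)
  have := hC k
  omega

/-- For an ideal with bounded Hilbert function, general linear forms are parameters. -/
theorem exists_param [Finite σ] (u : ι → σ) (I₀ : Ideal (MvPolynomial σ κ)) (hI₀ : Homog I₀)
    (hb : ∃ C : ℕ, ∀ k, hilb I₀ k ≤ C)
    (hw : ∀ Q : Ideal (MvPolynomial σ κ), Homog Q → Q.IsPrime → I₀ ≤ Q →
      (∀ j, X (u j) ∈ Q) → ∀ i, X i ∈ Q) :
    ∃ F : Finset (Submodule κ (ι → κ)), ⊤ ∉ F ∧ ∀ c : ι → κ, (∀ W ∈ F, c ∉ W) →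
      ∃ K, ∀ k, K ≤ k → hilb (I₀ ⊔ Ideal.span {lin u c}) k = 0 := by
  classical
  have key : ∀ J : Ideal (MvPolynomial σ κ), Homog J → (I₀ ≤ J →
      ∃ F : Finset (Submodule κ (ι → κ)), ⊤ ∉ F ∧ ∀ c : ι → κ, (∀ W ∈ F, c ∉ W) →
      ∃ K, ∀ k, K ≤ k → hilb (J ⊔ Ideal.span {lin u c}) k = 0) := by
    refine noeth_induction _ ?_ ?_ ?_
    · intro J hJ hp _ hle
      by_cases hall : ∀ j, X (u j) ∈ J
      · refine ⟨∅, by simp, fun c _ => ⟨1, fun k hk => ?_⟩⟩
        have h1 := hilb_eq_zero_of_vars (hw J hJ hp hle hall) hk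
        have h2 := hilb_anti (κ := κ) (le_sup_left : J ≤ J ⊔ Ideal.span {lin u c}) k
        omega
      · push Not at hall
        obtain ⟨j, hj⟩ := hall
        refine ⟨{badSub u J}, ?_, ?_⟩
        · rw [Finset.mem_singleton]
          exact fun h => badSub_ne_top u J j hj h.symm
        · intro c hc
          have hcJ : lin u c ∉ J := by
            rw [← mem_badSub]
            exact hc _ (Finset.mem_singleton_self _)
          have hstep : ∀ k, hilb J (k + 1) =
              hilb J k + hilb (J ⊔ Ideal.span {lin u c}) (k + 1) :=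
            fun k => hilb_prime_step hJ hp (lin_mem_one u c) hcJ k
          obtain ⟨C, hC⟩ := hb
          obtain ⟨K, hK⟩ := eventually_const_of_bounded (h := hilb J)
            (fun k => by rw [hstep k]; omega) (fun k => (hilb_anti hle k).trans (hC k))
          refine ⟨K + 1, fun k hk => ?_⟩
          obtain ⟨m, rfl⟩ : ∃ m, k = m + 1 := ⟨k - 1, by omega⟩
          have h1 := hK m (by omega)
          have h2 := hstep m
          omega
    · intro _
      refine ⟨∅, by simp, fun c _ => ⟨0, fun k _ => ?_⟩⟩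
      rw [top_sup_eq, hilb_top]
    · intro J a d hJ ha ha0 h1 h2 hle
      obtain ⟨F1, hF1, h1⟩ := h1 (hle.trans (le_colon J a))
      obtain ⟨F2, hF2, h2⟩ := h2 (hle.trans le_sup_left)
      refine ⟨F1 ∪ F2, by simp [hF1, hF2], ?_⟩
      intro c hc
      obtain ⟨K1, hK1⟩ := h1 c fun W hW => hc W (Finset.mem_union_left _ hW)
      obtain ⟨K2, hK2⟩ := h2 c fun W hW => hc W (Finset.mem_union_right _ hW)
      refine ⟨K1 + K2 + d + 1, fun k hk => hilb_eq_zero_of_forms_mem fun s hs => ?_⟩
      obtain ⟨m, rfl⟩ : ∃ m, k = m + d := ⟨k - d, by omega⟩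
      have hm2 := form_mem_of_hilb_eq_zero (hK2 (m + d) (by omega)) hs
      rw [Submodule.mem_sup] at hm2
      obtain ⟨y, hy, z, hz, rfl⟩ := hm2
      rw [Ideal.mem_span_singleton'] at hz
      obtain ⟨c', rfl⟩ := hz
      rw [Submodule.mem_sup] at hy
      obtain ⟨y, hy, z, hz, rfl⟩ := hy
      rw [Ideal.mem_span_singleton'] at hz
      obtain ⟨c'', rfl⟩ := hz
      have e1 := homogeneousComponent_of_mem (m := m + d) hs
      rw [if_pos rfl] at e1
      rw [← e1]
      simp only [map_add]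
      refine Submodule.add_mem _ (Submodule.add_mem _ ?_ ?_) ?_
      · exact Submodule.mem_sup_left (hJ _ hy _)
      · rw [mul_comm, homogeneousComponent_mul_form ha]
        have h3 := form_mem_of_hilb_eq_zero (hK1 m (by omega))
          (homogeneousComponent_mem m c'')
        rw [Submodule.mem_sup] at h3
        obtain ⟨y', hy', z', hz', e⟩ := h3
        rw [Ideal.mem_span_singleton'] at hz'
        obtain ⟨c3, rfl⟩ := hz'
        rw [← e, mul_add]
        refine Submodule.add_mem_sup hy' ?_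
        rw [← mul_assoc]
        exact Ideal.mul_mem_left _ _ (Ideal.mem_span_singleton_self _)
      · obtain ⟨m', hm'⟩ : ∃ m', m + d = m' + 1 := ⟨m + d - 1, by omega⟩
        rw [hm', mul_comm, homogeneousComponent_mul_form (lin_mem_one u c)]
        exact Submodule.mem_sup_right
          (Ideal.mul_mem_right _ _ (Ideal.mem_span_singleton_self _))
  exact key I₀ hI₀ le_rfl

/-- A homogeneous prime with eventually affine Hilbert function, in which the variables are
nilpotent modulo the `X (u j)`, has a system of parameters consisting of a given `X (u j₀)` and a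
linear form in the `X (u j)`. -/
theorem exists_second_param [Finite σ] [Infinite κ] (u : ι → σ) (P : Ideal (MvPolynomial σ κ))
    (hP : Homog P) (hp : P.IsPrime) (e : ℤ) (he : EvAffine (hilb P) e)
    (hw : ∀ Q : Ideal (MvPolynomial σ κ), Homog Q → Q.IsPrime → P ≤ Q →
      (∀ j, X (u j) ∈ Q) → ∀ i, X i ∈ Q) (j₀ : ι) (hj₀ : X (u j₀) ∉ P) :
    ∃ c : ι → κ, lin u c ∉ P ∧ ∃ K, ∀ k, K ≤ k →
      hilb ((P ⊔ Ideal.span {X (u j₀)}) ⊔ Ideal.span {lin u c}) k = 0 := by
  classical
  have hstep : ∀ k, hilb P (k + 1) = hilb P k + hilb (P ⊔ Ideal.span {X (u j₀)}) (k + 1) :=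
    fun k => hilb_prime_step hP hp (X_mem_one _) hj₀ k
  obtain ⟨c₀, K₀, hK₀⟩ := he
  have hb : ∃ C : ℕ, ∀ k, hilb (P ⊔ Ideal.span {X (u j₀)}) k ≤ C := by
    obtain ⟨C, hC⟩ := hilb_le_of_small (P ⊔ Ideal.span {X (u j₀)}) (K₀ + 1)
    refine ⟨C + e.toNat, fun k => ?_⟩
    by_cases hk : k < K₀ + 1
    · exact (hC k hk).trans (by omega)
    · obtain ⟨m, rfl⟩ : ∃ m, k = m + 1 := ⟨k - 1, by omega⟩
      have h1 := hK₀ m (by omega)
      have h2 := hK₀ (m + 1) (by omega)
      have h3 := hstep m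
      push_cast at h2
      have h4 : ((hilb (P ⊔ Ideal.span {X (u j₀)}) (m + 1) : ℕ) : ℤ) = e := by
        have : ((hilb P (m + 1) : ℕ) : ℤ) =
          hilb P m + hilb (P ⊔ Ideal.span {X (u j₀)}) (m + 1) := by exact_mod_cast h3
        rw [h2, h1] at this
        linarith
      omega
  obtain ⟨F, hF, h⟩ := exists_param u (P ⊔ Ideal.span {X (u j₀)}) (hP.sup_span (X_mem_one _)) hb
    (fun Q hQ hQp hle hall => hw Q hQ hQp (le_sup_left.trans hle) hall)
  have hF' : (⊤ : Submodule κ (ι → κ)) ∉ insert (badSub u P) F := by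
    rw [Finset.mem_insert]
    rintro (h | h)
    · exact badSub_ne_top u P j₀ hj₀ h.symm
    · exact hF h
  have h2 := Subspace.biUnion_ne_univ_of_top_notMem hF'
  rw [Set.ne_univ_iff_exists_notMem] at h2
  obtain ⟨c, hc⟩ := h2
  simp only [Set.mem_iUnion, SetLike.mem_coe, not_exists] at hc
  refine ⟨c, ?_, ?_⟩
  · rw [← mem_badSub]
    exact hc _ (Finset.mem_insert_self _ _)
  · exact h c fun W hW => hc W (Finset.mem_insert_of_mem hW)

end Pool.Agent.CurveDeg
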