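import Pool.Agent.CurveDeg.Saturate

set_option autoImplicit false

namespace Pool.Agent.CurveDeg

open MvPolynomial IsLocalRing

section

variable {σ : Type*} [Fintype σ] [DecidableEq σ]

/-- Monomials of degree `k`. -/
abbrev MonDeg (σ : Type*) (k : ℕ) : Type _ := {m : σ →₀ ℕ // m.degree = k}

noncomputable instance (k : ℕ) : Fintype (MonDeg σ k) := by
  classical
  exact (Set.Finite.fintype (by
    have h : {m : σ →₀ ℕ | m.degree = k} ⊆
        ((Finset.univ : Finset σ).finsuppAntidiag k : Set (σ →₀ ℕ)) := by
      intro m hm
      rw [Finset.mem_coe, Finset.mem_finsuppAntidiag]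
      refine ⟨?_, fun _ _ => Finset.mem_univ _⟩
      rw [← hm, Finsupp.degree_eq_sum]
    exact (Finset.finite_toSet _).subset h) : Fintype {m : σ →₀ ℕ | m.degree = k})

/-- The form of degree `k` with a given coefficient vector. -/
noncomputable def ofVec (R : Type*) [CommSemiring R] (k : ℕ) :
    (MonDeg σ k → R) →ₗ[R] MvPolynomial σ R where
  toFun v := ∑ m : MonDeg σ k, monomial m.1 (v m)
  map_add' := by
    intro v w
    rw [← Finset.sum_add_distrib]
    exact Finset.sum_congr rfl fun m _ => by simp
  map_smul' := by
    intro c v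
    rw [RingHom.id_apply, Finset.smul_sum]
    exact Finset.sum_congr rfl fun m _ => by simp [smul_monomial]

theorem coeff_ofVec {R : Type*} [CommSemiring R] {k : ℕ} (v : MonDeg σ k → R) (m : MonDeg σ k) :
    coeff m.1 (ofVec R k v) = v m := by
  show coeff m.1 (∑ m' : MonDeg σ k, monomial m'.1 (v m')) = v m
  rw [coeff_sum, Finset.sum_eq_single m]
  · simp
  · intro b _ hb
    rw [coeff_monomial, if_neg]
    intro h
    exact hb (Subtype.ext h)
  · intro h
    exact absurd (Finset.mem_univ _) h

theorem ofVec_mem {R : Type*} [CommSemiring R] {k : ℕ} (v : MonDeg σ k → R) :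
    ofVec R k v ∈ homogeneousSubmodule σ R k := by
  refine Submodule.sum_mem _ fun m _ => ?_
  rw [mem_homogeneousSubmodule]
  exact isHomogeneous_monomial _ m.2

theorem ofVec_coeff {R : Type*} [CommSemiring R] {k : ℕ} {p : MvPolynomial σ R}
    (hp : p ∈ homogeneousSubmodule σ R k) :
    ofVec R k (fun m => coeff m.1 p) = p := by
  rw [mem_homogeneousSubmodule] at hp
  ext m
  by_cases hm : m.degree = k
  · exact coeff_ofVec (fun m => coeff m.1 p) (⟨m, hm⟩ : MonDeg σ k)
  · have h1 : coeff m p = 0 := by
      by_contra h
      exact hm (by rw [← hp h]; simp [Finsupp.weight_apply, Finsupp.degree_eq_sum, Finsupp.sum_fintype])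
    have h2 := (mem_homogeneousSubmodule _ _).mp
      (ofVec_mem (fun m : MonDeg σ k => coeff m.1 p))
    have h3 : coeff m (ofVec R k (fun m => coeff m.1 p)) = 0 := by
      by_contra h
      exact hm (by rw [← h2 h]; simp [Finsupp.weight_apply, Finsupp.degree_eq_sum, Finsupp.sum_fintype])
    rw [h1, h3]

theorem range_ofVec {R : Type*} [CommSemiring R] (k : ℕ) :
    LinearMap.range (ofVec (σ := σ) R k) = homogeneousSubmodule σ R k := by
  ext p
  constructor
  · rintro ⟨v, rfl⟩
    exact ofVec_mem v
  · intro hp
    exact ⟨_, ofVec_coeff hp⟩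

theorem map_ofVec {R S : Type*} [CommSemiring R] [CommSemiring S] (φ : R →+* S) {k : ℕ}
    (v : MonDeg σ k → R) :
    MvPolynomial.map φ (ofVec R k v) = ofVec S k (fun m => φ (v m)) := by
  show MvPolynomial.map φ (∑ m : MonDeg σ k, monomial m.1 (v m)) =
    ∑ m : MonDeg σ k, monomial m.1 (φ (v m))
  rw [map_sum]
  exact Finset.sum_congr rfl fun m _ => by rw [map_monomial]

/-- The degree `k` piece of an ideal, in coordinates. -/
noncomputable def piece {F : Type*} [Field F] (I : Ideal (MvPolynomial σ F)) (k : ℕ) :
    Submodule F (MonDeg σ k → F) :=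
  LinearMap.ker ((Ideal.Quotient.mkₐ F I).toLinearMap ∘ₗ ofVec F k)

theorem mem_piece {F : Type*} [Field F] (I : Ideal (MvPolynomial σ F)) (k : ℕ)
    (v : MonDeg σ k → F) : v ∈ piece I k ↔ ofVec F k v ∈ I := by
  unfold piece
  rw [LinearMap.mem_ker, LinearMap.comp_apply, AlgHom.toLinearMap_apply,
    Ideal.Quotient.mkₐ_eq_mk, Ideal.Quotient.eq_zero_iff_mem]

/-- The Hilbert function, as it appears in the problem. -/
theorem finrank_hilb {F : Type*} [Field F] (I : Ideal (MvPolynomial σ F)) (k : ℕ) :
    Module.finrank F (Submodule.map (Ideal.Quotient.mkₐ F I).toLinearMap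
      (homogeneousSubmodule σ F k)) + Module.finrank F (piece I k) =
      Fintype.card (MonDeg σ k) := by
  have h := LinearMap.finrank_range_add_finrank_ker
    ((Ideal.Quotient.mkₐ F I).toLinearMap ∘ₗ ofVec (σ := σ) F k)
  rw [LinearMap.range_comp, range_ofVec] at h
  rw [Module.finrank_fintype_fun_eq_card] at h
  exact h

end

section

variable {σ : Type*} [Fintype σ] [DecidableEq σ]
variable {O : Type*} [CommRing O] [IsDomain O] [ValuationRing O]
variable {K : Type*} [Field K] [Algebra O K] [IsFractionRing O K]

/-- Reduction of an ideal modulo the maximal ideal of a valuation ring. -/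
noncomputable def redIdeal (I : Ideal (MvPolynomial σ K)) :
    Ideal (MvPolynomial σ (ResidueField O)) :=
  Ideal.map (MvPolynomial.map (residue O))
    (Ideal.comap (MvPolynomial.map (algebraMap O K)) I)

theorem map_residue_surj :
    Function.Surjective (MvPolynomial.map (residue O) :
      MvPolynomial σ O →+* MvPolynomial σ (ResidueField O)) :=
  MvPolynomial.map_surjective _ residue_surjective

theorem mem_redIdeal (I : Ideal (MvPolynomial σ K)) (q : MvPolynomial σ (ResidueField O)) :
    q ∈ redIdeal (O := O) I ↔ ∃ p : MvPolynomial σ O,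
      MvPolynomial.map (algebraMap O K) p ∈ I ∧ MvPolynomial.map (residue O) p = q := by
  unfold redIdeal
  rw [Ideal.mem_map_iff_of_surjective _ map_residue_surj]
  simp only [Ideal.mem_comap]

theorem map_homogComp {R S : Type*} [CommSemiring R] [CommSemiring S] (φ : R →+* S) (k : ℕ)
    (p : MvPolynomial σ R) :
    homogeneousComponent k (MvPolynomial.map φ p) =
      MvPolynomial.map φ (homogeneousComponent k p) := by
  ext m
  rw [coeff_homogeneousComponent, coeff_map, coeff_map, coeff_homogeneousComponent]
  split_ifs <;> simp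

theorem redIdeal_homog (I : Ideal (MvPolynomial σ K))
    (hI : ∀ p ∈ I, ∀ k : ℕ, homogeneousComponent k p ∈ I) :
    ∀ q ∈ redIdeal (O := O) I, ∀ k : ℕ, homogeneousComponent k q ∈ redIdeal (O := O) I := by
  intro q hq k
  rw [mem_redIdeal] at hq ⊢
  obtain ⟨p, hp, rfl⟩ := hq
  refine ⟨homogeneousComponent k p, ?_, ?_⟩
  · rw [← map_homogComp]
    exact hI _ hp k
  · rw [map_homogComp]

theorem mem_piece_redIdeal (I : Ideal (MvPolynomial σ K))
    (hI : ∀ p ∈ I, ∀ k : ℕ, homogeneousComponent k p ∈ I) (k : ℕ)
    (v : MonDeg σ k → ResidueField O) :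
    v ∈ piece (redIdeal (O := O) I) k ↔
      ∃ w : MonDeg σ k → O, w ∈ intPts (O := O) (piece I k) ∧ ∀ m, residue O (w m) = v m := by
  rw [mem_piece, mem_redIdeal]
  constructor
  · rintro ⟨p, hp, hpv⟩
    refine ⟨fun m => coeff m.1 p, ?_, ?_⟩
    · rw [mem_intPts, mem_piece]
      have h1 : homogeneousComponent k p ∈ homogeneousSubmodule σ O k := by
        rw [mem_homogeneousSubmodule]
        exact homogeneousComponent_isHomogeneous k p
      have h2 := ofVec_coeff h1
      have h3 : (fun m : MonDeg σ k => coeff m.1 (homogeneousComponent k p)) =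
          fun m => coeff m.1 p := by
        ext m
        rw [coeff_homogeneousComponent, if_pos m.2]
      rw [h3] at h2
      rw [← map_ofVec (algebraMap O K) (fun m : MonDeg σ k => coeff m.1 p), h2,
        ← map_homogComp]
      exact hI _ hp k
    · intro m
      have h := congrArg (coeff m.1) hpv
      rw [coeff_map, coeff_ofVec] at h
      exact h
  · rintro ⟨w, hw, hwv⟩
    refine ⟨ofVec O k w, ?_, ?_⟩
    · rw [map_ofVec]
      exact (mem_piece I k _).mp hw
    · rw [map_ofVec]
      congr 1
      ext m
      exact hwv m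

/-- Reduction preserves the dimension of each graded piece. -/
theorem finrank_piece_redIdeal (I : Ideal (MvPolynomial σ K))
    (hI : ∀ p ∈ I, ∀ k : ℕ, homogeneousComponent k p ∈ I) (k : ℕ) :
    Module.finrank (ResidueField O) (piece (redIdeal (O := O) I) k) =
      Module.finrank K (piece I k) := by
  classical
  obtain ⟨r, A, hsurj, hker⟩ := exists_matrix (O := O) (piece I k)
  -- over K
  have hK : LinearMap.ker (A.map (algebraMap O K)).mulVecLin = piece I k := by
    ext v
    rw [LinearMap.mem_ker, Matrix.mulVecLin_apply]
    obtain ⟨b, hb⟩ := IsLocalization.exist_integer_multiples_of_finset (nonZeroDivisors O)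
      (Finset.univ.image v)
    choose w hw using fun m : MonDeg σ k =>
      hb (v m) (Finset.mem_image_of_mem _ (Finset.mem_univ m))
    have hb0 : algebraMap O K (b : O) ≠ 0 := by simp
    have hwv : (fun m => algebraMap O K (w m)) = algebraMap O K (b : O) • v := by
      ext m
      rw [hw m, Pi.smul_apply, Algebra.smul_def, smul_eq_mul]
    have h1 : (A.map (algebraMap O K)).mulVec (fun m => algebraMap O K (w m)) =
        fun i => algebraMap O K (A.mulVec w i) := by
      ext i
      rw [RingHom.map_mulVec]
      rfl
    have h2 : v ∈ piece I k ↔ (fun m => algebraMap O K (w m)) ∈ piece I k := by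
      rw [hwv]
      exact (Submodule.smul_mem_iff _ hb0).symm
    rw [h2, ← mem_intPts (O := O), ← hker w]
    rw [hwv, Matrix.mulVec_smul] at h1
    constructor
    · intro h
      rw [h, smul_zero] at h1
      ext i
      have := congrFun h1 i
      rw [Pi.zero_apply] at this
      exact (IsFractionRing.injective O K) (by rw [← this, Pi.zero_apply, map_zero])
    · intro h
      rw [h] at h1
      have h3 : algebraMap O K (b : O) • (A.map (algebraMap O K)).mulVec v = 0 := by
        rw [h1]; ext i; simp
      rcases smul_eq_zero.mp h3 with h4 | h4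
      · exact absurd h4 hb0
      · exact h4
  -- over the residue field
  have hκ : LinearMap.ker (A.map (residue O)).mulVecLin = piece (redIdeal (O := O) I) k := by
    ext v
    rw [LinearMap.mem_ker, Matrix.mulVecLin_apply, mem_piece_redIdeal I hI k]
    constructor
    · intro h
      choose w hw using fun m => residue_surjective (R := O) (v m)
      have h1 : (A.map (residue O)).mulVec (fun m => residue O (w m)) =
          fun i => residue O (A.mulVec w i) := by
        ext i
        rw [RingHom.map_mulVec]
        rfl
      have hwv : (fun m => residue O (w m)) = v := funext hw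
      rw [hwv, h] at h1
      have h2 : ∀ i, A.mulVec w i ∈ maximalIdeal O := by
        intro i
        rw [← residue_eq_zero_iff]
        exact (congrFun h1 i).symm
      choose g hg using fun j : Fin r => hsurj (Pi.single j 1)
      have h3 : A.mulVec (∑ j, (A.mulVec w j) • g j) = A.mulVec w := by
        rw [Matrix.mulVec_sum]
        have : ∀ j, A.mulVec ((A.mulVec w j) • g j) = (A.mulVec w j) • Pi.single j 1 := by
          intro j
          rw [Matrix.mulVec_smul, hg]
        simp_rw [this]
        ext i
        rw [Finset.sum_apply, Finset.sum_eq_single i]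
        · simp
        · intro j _ hj
          simp [Pi.single_apply, Ne.symm hj]
        · intro h; exact absurd (Finset.mem_univ _) h
      refine ⟨w - ∑ j, (A.mulVec w j) • g j, ?_, ?_⟩
      · rw [← hker, Matrix.mulVec_sub, h3, sub_self]
      · intro m
        rw [Pi.sub_apply, map_sub, hw, Finset.sum_apply, map_sum, sub_eq_self]
        refine Finset.sum_eq_zero fun j _ => ?_
        rw [Pi.smul_apply, smul_eq_mul, map_mul, (residue_eq_zero_iff _).mpr (h2 j), zero_mul]
    · rintro ⟨w, hw, hwv⟩
      rw [← hker] at hw
      have h1 : (A.map (residue O)).mulVec (fun m => residue O (w m)) =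
          fun i => residue O (A.mulVec w i) := by
        ext i
        rw [RingHom.map_mulVec]
        rfl
      have hwv' : (fun m => residue O (w m)) = v := funext hwv
      rw [hwv', hw] at h1
      rw [h1]
      ext i
      simp
  have e1 := finrank_ker_of_surj (A.map (algebraMap O K)) (surj_map _ A hsurj)
  have e2 := finrank_ker_of_surj (A.map (residue O)) (surj_map _ A hsurj)
  rw [hK] at e1
  rw [hκ] at e2
  omega

/-- Reduction preserves the Hilbert function. -/
theorem hilb_redIdeal (I : Ideal (MvPolynomial σ K))
    (hI : ∀ p ∈ I, ∀ k : ℕ, homogeneousComponent k p ∈ I) (k : ℕ) :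
    Module.finrank (ResidueField O) (Submodule.map
      (Ideal.Quotient.mkₐ (ResidueField O) (redIdeal (O := O) I)).toLinearMap
      (homogeneousSubmodule σ (ResidueField O) k)) =
    Module.finrank K (Submodule.map (Ideal.Quotient.mkₐ K I).toLinearMap
      (homogeneousSubmodule σ K k)) := by
  have h1 := finrank_hilb I k
  have h2 := finrank_hilb (redIdeal (O := O) I) k
  rw [finrank_piece_redIdeal I hI k] at h2
  omega

end

end Pool.Agent.CurveDeg
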