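import Mathlib

set_option autoImplicit false

namespace Pool.Agent.CurveDeg

open IsLocalRing

section

variable {O : Type*} [CommRing O] [IsDomain O] [ValuationRing O]
variable {K : Type*} [Field K] [Algebra O K] [IsFractionRing O K]
variable {n : Type*} [Fintype n] [DecidableEq n]

/-- The integral points of a subspace. -/
def intPts (S : Submodule K (n → K)) : Submodule O (n → O) where
  carrier := {v | (fun i => algebraMap O K (v i)) ∈ S}
  add_mem' := by
    intro a b ha hb
    have := S.add_mem ha hb
    simpa [Pi.add_def] using this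
  zero_mem' := by
    have h := S.zero_mem
    have h2 : (fun i : n => algebraMap O K ((0 : n → O) i)) = 0 := by
      ext i; simp
    show (fun i : n => algebraMap O K ((0 : n → O) i)) ∈ S
    rw [h2]; exact h
  smul_mem' := by
    intro c a ha
    have h := S.smul_mem (algebraMap O K c) ha
    have h2 : (fun i : n => algebraMap O K ((c • a) i)) =
        algebraMap O K c • (fun i => algebraMap O K (a i)) := by
      ext i; simp
    show (fun i : n => algebraMap O K ((c • a) i)) ∈ S
    rw [h2]; exact h

theorem mem_intPts (S : Submodule K (n → K)) (v : n → O) :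
    v ∈ intPts (O := O) S ↔ (fun i => algebraMap O K (v i)) ∈ S := Iff.rfl

/-- Over a valuation ring, the integral points of a subspace form the kernel of a
surjective integral matrix. -/
theorem exists_matrix (S : Submodule K (n → K)) :
    ∃ (r : ℕ) (A : Matrix (Fin r) n O), Function.Surjective A.mulVec ∧
      ∀ v : n → O, A.mulVec v = 0 ↔ v ∈ intPts (O := O) S := by
  classical
  let N := intPts (O := O) S
  have htors : Submodule.torsion O ((n → O) ⧸ N) = ⊥ := by
    rw [eq_bot_iff]
    rintro x ⟨a, ha⟩
    obtain ⟨v, rfl⟩ := N.mkQ_surjective x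
    have h1 : N.mkQ ((a : O) • v) = 0 := by
      rw [map_smul]; exact ha
    have h2 : (a : O) • v ∈ N := by
      rwa [Submodule.mkQ_apply, Submodule.Quotient.mk_eq_zero] at h1
    have ha0 : (a : O) ≠ 0 := nonZeroDivisors.ne_zero a.2
    have h3 : v ∈ N := by
      have h4 : (fun i => algebraMap O K (((a : O) • v) i)) ∈ S := h2
      have h5 : (fun i => algebraMap O K (v i)) =
          (algebraMap O K (a : O))⁻¹ • (fun i => algebraMap O K (((a : O) • v) i)) := by
        ext i
        have h6 : algebraMap O K (a : O) ≠ 0 := by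
          simp
        rw [Pi.smul_apply, Pi.smul_apply, smul_eq_mul, smul_eq_mul, map_mul,
          inv_mul_cancel_left₀ h6]
      show (fun i => algebraMap O K (v i)) ∈ S
      rw [h5]
      exact S.smul_mem _ h4
    rw [Submodule.mem_bot, Submodule.mkQ_apply, Submodule.Quotient.mk_eq_zero]
    exact h3
  haveI hflat : Module.Flat O ((n → O) ⧸ N) :=
    Module.Flat.flat_iff_torsion_eq_bot_of_isBezout.mpr htors
  haveI hfree : Module.Free O ((n → O) ⧸ N) := Module.free_of_flat_of_isLocalRing
  let b := Module.finBasis O ((n → O) ⧸ N)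
  let f : (n → O) →ₗ[O] (Fin (Module.finrank O ((n → O) ⧸ N)) → O) :=
    b.equivFun.toLinearMap ∘ₗ N.mkQ
  refine ⟨_, LinearMap.toMatrix' f, ?_, ?_⟩
  · intro y
    obtain ⟨x, hx⟩ := N.mkQ_surjective (b.equivFun.symm y)
    refine ⟨x, ?_⟩
    rw [LinearMap.toMatrix'_mulVec]
    show b.equivFun (N.mkQ x) = y
    rw [hx, LinearEquiv.apply_symm_apply]
  · intro v
    rw [LinearMap.toMatrix'_mulVec]
    simp only [f, LinearMap.comp_apply, LinearEquiv.coe_coe]
    rw [LinearEquiv.map_eq_zero_iff, Submodule.mkQ_apply, Submodule.Quotient.mk_eq_zero]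

/-- Rank-nullity for a matrix with surjective action. -/
theorem finrank_ker_of_surj {F : Type*} [Field F] {r : ℕ} (A : Matrix (Fin r) n F)
    (hA : Function.Surjective A.mulVec) :
    Module.finrank F (LinearMap.ker A.mulVecLin) + r = Fintype.card n := by
  have h := LinearMap.finrank_range_add_finrank_ker A.mulVecLin
  have h2 : LinearMap.range A.mulVecLin = ⊤ := by
    rw [LinearMap.range_eq_top]
    intro y
    obtain ⟨x, hx⟩ := hA y
    exact ⟨x, by simpa using hx⟩
  rw [h2] at h
  simp at h
  omega

/-- surjectivity is preserved by pushing forward the matrix. -/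
theorem surj_map {F : Type*} [Field F] (φ : O →+* F) {r : ℕ} (A : Matrix (Fin r) n O)
    (hA : Function.Surjective A.mulVec) : Function.Surjective (A.map φ).mulVec := by
  classical
  obtain ⟨B, hB⟩ : ∃ B : Matrix n (Fin r) O, A * B = 1 := by
    choose g hg using hA
    refine ⟨Matrix.of fun i j => g (Pi.single j 1) i, ?_⟩
    ext i j
    have h := congrFun (hg (Pi.single j 1)) i
    rw [Matrix.mul_apply]
    simp only [Matrix.mulVec, dotProduct] at h
    simp only [Matrix.of_apply]
    rw [h, Matrix.one_apply, Pi.single_apply]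
  intro y
  refine ⟨(B.map φ).mulVec y, ?_⟩
  rw [Matrix.mulVec_mulVec, ← Matrix.map_mul, hB]
  rw [Matrix.map_one φ (map_zero φ) (map_one φ), Matrix.one_mulVec]

end

end Pool.Agent.CurveDeg
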