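import Pool.Agent.CurveDeg.Param

/-!
The slope of the Hilbert function is the degree of a finite map to the line.
-/

set_option autoImplicit false

namespace Pool.Agent.CurveDeg

open MvPolynomial

lemma le_of_affine {α β γ δ : ℤ} (m₀ : ℕ) (h : ∀ m : ℕ, m₀ ≤ m → α * m + β ≤ γ * m + δ) :
    α ≤ γ := by
  by_contra hc
  push Not at hc
  have h1 := h (m₀ + (δ - β).natAbs + 1) (by omega)
  push_cast at h1
  have h2 : δ - β ≤ |δ - β| := le_abs_self _
  have h3 : γ + 1 ≤ α := hc
  have h4 : (0 : ℤ) ≤ |δ - β| := abs_nonneg _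
  have h5 : (0 : ℤ) ≤ m₀ := by positivity
  nlinarith

section

variable {σ : Type*} {κ : Type*} [Field κ] {E : Type*} [Field E] [Algebra κ E]

/-- The image of the space of forms of degree `k`. -/
noncomputable def VV (x : σ → E) (k : ℕ) : Submodule κ E :=
  (homogeneousSubmodule σ κ k).map (aeval x).toLinearMap

lemma mem_VV {x : σ → E} {k : ℕ} {s : MvPolynomial σ κ} (hs : s ∈ homogeneousSubmodule σ κ k) :
    aeval x s ∈ VV (κ := κ) x k := ⟨s, hs, rfl⟩

instance finite_VV [Finite σ] (x : σ → E) (k : ℕ) : Module.Finite κ (VV (κ := κ) x k) := by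
  unfold VV
  infer_instance

variable {x : σ → E} {l : MvPolynomial σ κ} (hl : l ∈ homogeneousSubmodule σ κ 1)
  (hl1 : aeval x l = 1)

include hl hl1 in
lemma VV_mono_succ (k : ℕ) : VV (κ := κ) x k ≤ VV x (k + 1) := by
  rintro _ ⟨s, hs, rfl⟩
  have : aeval x s = aeval x (s * l) := by rw [map_mul, hl1, mul_one]
  change aeval x s ∈ _
  rw [this]
  exact mem_VV (IsHomogeneous.mul hs hl)

include hl hl1 in
lemma VV_mono {k k' : ℕ} (h : k ≤ k') : VV (κ := κ) x k ≤ VV x k' := by
  induction h with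
  | refl => exact le_rfl
  | step _ ih => exact ih.trans (VV_mono_succ hl hl1 _)

include hl hl1 in
lemma mem_VV_totalDegree (s : MvPolynomial σ κ) : aeval x s ∈ VV (κ := κ) x s.totalDegree := by
  rw [← sum_homogeneousComponent s, map_sum]
  refine Submodule.sum_mem _ fun i hi => ?_
  rw [sum_homogeneousComponent s]
  refine VV_mono hl hl1 (k := i) ?_ (mem_VV (homogeneousComponent_mem _ _))
  rw [Finset.mem_range] at hi
  omega

end

open Polynomial in
/-- **Slope formula.** -/
theorem slope_eq_rank {σ : Type*} [Finite σ] {κ : Type*} [Field κ] {E : Type*} [Field E]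
    [Algebra κ E] [Algebra κ[X] E] [IsScalarTower κ κ[X] E] [FaithfulSMul κ[X] E]
    (x : σ → E) (l b₀ : MvPolynomial σ κ)
    (hl : l ∈ homogeneousSubmodule σ κ 1) (hl1 : MvPolynomial.aeval x l = 1)
    (hb₀ : b₀ ∈ homogeneousSubmodule σ κ 1)
    (hb : algebraMap κ[X] E Polynomial.X = MvPolynomial.aeval x b₀)
    (K : ℕ)
    (hK : ∀ k, K ≤ k → ∀ s ∈ homogeneousSubmodule σ κ (k + 1), ∃ s₁ ∈ homogeneousSubmodule σ κ k,
      ∃ s₂ ∈ homogeneousSubmodule σ κ k, MvPolynomial.aeval x s =
        MvPolynomial.aeval x s₁ * MvPolynomial.aeval x b₀ + MvPolynomial.aeval x s₂)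
    (hE : ∀ z : E, ∃ a c : MvPolynomial σ κ, MvPolynomial.aeval x c ≠ 0 ∧
      z = MvPolynomial.aeval x a / MvPolynomial.aeval x c) (e : ℤ)
    (he : EvAffine (fun k => Module.finrank κ (VV (κ := κ) x k)) e) :
    (e = Module.finrank κ[X] E) ∧ (∀ s : MvPolynomial σ κ, IsIntegral κ[X]
      (MvPolynomial.aeval x s)) := by
  classical
  set b := MvPolynomial.aeval x b₀ with hbdef
  -- the subalgebra
  have hpb : ∀ p : κ[X], algebraMap κ[X] E p = MvPolynomial.aeval x (Polynomial.aeval b₀ p) := by
    intro p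
    have h1 : algebraMap κ[X] E p = Polynomial.aeval b p := by
      rw [← hb]
      conv_lhs => rw [← Polynomial.aeval_X_left_apply (R := κ) p]
      rw [← Polynomial.aeval_algebraMap_apply]
    rw [h1, hbdef, Polynomial.aeval_algHom_apply]
  let B : Subalgebra κ[X] E :=
    { carrier := Set.range (MvPolynomial.aeval x : MvPolynomial σ κ → E)
      mul_mem' := by
        rintro _ _ ⟨s, rfl⟩ ⟨t, rfl⟩; exact ⟨s * t, map_mul _ _ _⟩
      add_mem' := by
        rintro _ _ ⟨s, rfl⟩ ⟨t, rfl⟩; exact ⟨s + t, map_add _ _ _⟩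
      algebraMap_mem' := fun p => ⟨_, (hpb p).symm⟩ }
  have hBmem : ∀ s : MvPolynomial σ κ, MvPolynomial.aeval x s ∈ B := fun s => ⟨s, rfl⟩
  have hVb : ∀ k, ∀ z ∈ VV (κ := κ) x k, z * b ∈ VV (κ := κ) x (k + 1) := by
    rintro k _ ⟨s, hs, rfl⟩
    have : (MvPolynomial.aeval x).toLinearMap s * b = MvPolynomial.aeval x (s * b₀) := by
      rw [map_mul]; rfl
    rw [this]
    exact mem_VV (IsHomogeneous.mul hs hb₀)
  have hXsmul : ∀ z : E, (Polynomial.X : κ[X]) • z = z * b := by
    intro z; rw [Algebra.smul_def, hb, mul_comm]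
  obtain ⟨t, ht⟩ := Submodule.fg_def.1 (Module.Finite.iff_fg.1 (finite_VV (κ := κ) x K))
  obtain ⟨htfin, htspan⟩ := ht
  set N : Submodule κ[X] E := Submodule.span κ[X] t with hN
  have hVN : ∀ k, VV (κ := κ) x k ≤ N.restrictScalars κ := by
    have hKN : VV (κ := κ) x K ≤ N.restrictScalars κ := by
      rw [← htspan, Submodule.span_le]
      intro z hz
      exact Submodule.subset_span hz
    intro k
    rcases le_total k K with hk | hk
    · exact (VV_mono hl hl1 hk).trans hKN
    · induction k, hk using Nat.le_induction with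
      | base => exact hKN
      | succ k hk ih =>
        rintro _ ⟨s, hs, rfl⟩
        obtain ⟨s₁, hs₁, s₂, hs₂, h⟩ := hK k hk s hs
        change MvPolynomial.aeval x s ∈ N
        rw [h, ← hXsmul]
        exact N.add_mem (N.smul_mem _ (ih (mem_VV hs₁))) (ih (mem_VV hs₂))
  have htB : t ⊆ B := by
    intro z hz
    have : z ∈ VV (κ := κ) x K := by rw [← htspan]; exact Submodule.subset_span hz
    obtain ⟨s, _, rfl⟩ := this
    exact ⟨s, rfl⟩
  have hBN : Subalgebra.toSubmodule B = N := by
    apply le_antisymm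
    · rintro _ ⟨s, rfl⟩
      exact hVN _ (mem_VV_totalDegree hl hl1 s)
    · rw [hN, Submodule.span_le]
      exact htB
  have hBfg : (Subalgebra.toSubmodule B).FG := by
    rw [hBN]; exact Submodule.fg_span htfin
  have hint : ∀ s : MvPolynomial σ κ, IsIntegral κ[X] (MvPolynomial.aeval x s) := fun s =>
    IsIntegral.of_mem_of_fg B hBfg _ (hBmem s)
  refine ⟨?_, hint⟩
  have hBfin : Module.Finite κ[X] B := Module.Finite.iff_fg.2 hBfg
  have hfrac : IsFractionRing B E := by
    refine IsFractionRing.of_field B E fun z => ?_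
    obtain ⟨a, c, _, hz⟩ := hE z
    exact ⟨⟨_, hBmem a⟩, ⟨_, hBmem c⟩, hz⟩
  rw [← IsFractionRing.finrank_left_eq κ[X] B E]
  have hBtf : Module.IsTorsionFree κ[X] B := by
    have h1 : Function.Injective (algebraMap κ[X] B) := by
      have h1 : Function.Injective (algebraMap κ[X] E) := FaithfulSMul.algebraMap_injective _ _
      rw [IsScalarTower.algebraMap_eq κ[X] B E, RingHom.coe_comp] at h1
      exact Function.Injective.of_comp h1
    have : FaithfulSMul κ[X] B := (faithfulSMul_iff_algebraMap_injective _ _).2 h1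
    infer_instance
  have hfree : Module.Free κ[X] B := inferInstance
  set ρ := Module.finrank κ[X] B with hρ
  let β := Module.finBasis κ[X] B
  -- the upper filtration
  let Φ : ∀ N : ℕ, (Fin ρ → Polynomial.degreeLT κ N) →ₗ[κ] E := fun N =>
    { toFun := fun r => ∑ j, ((r j : κ[X]) • (β j : E))
      map_add' := by
        intro r r'
        simp only [Pi.add_apply, Submodule.coe_add, add_smul, Finset.sum_add_distrib]
      map_smul' := by
        intro a r
        simp only [Pi.smul_apply, Submodule.coe_smul, smul_assoc, Finset.smul_sum,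
          RingHom.id_apply] }
  have hΦrank : ∀ N, Module.finrank κ (LinearMap.range (Φ N)) ≤ ρ * N := by
    intro N
    have hfd : Module.Finite κ (Polynomial.degreeLT κ N) :=
      Module.Finite.equiv (Polynomial.degreeLTEquiv κ N).symm
    refine (LinearMap.finrank_range_le (Φ N)).trans ?_
    rw [Module.finrank_pi_fintype]
    simp [(Polynomial.degreeLTEquiv κ N).finrank_eq]
  have hΦmem : ∀ (N : ℕ) (z : E), z ∈ LinearMap.range (Φ N) ↔
      ∃ r : Fin ρ → κ[X], (∀ j, r j ∈ Polynomial.degreeLT κ N) ∧ ∑ j, r j • (β j : E) = z := by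
    intro N z
    constructor
    · rintro ⟨r, rfl⟩
      exact ⟨fun j => r j, fun j => (r j).2, rfl⟩
    · rintro ⟨r, hr, rfl⟩
      exact ⟨fun j => ⟨r j, hr j⟩, rfl⟩
  have hΦmono : ∀ {N N' : ℕ}, N ≤ N' → LinearMap.range (Φ N) ≤ LinearMap.range (Φ N') := by
    intro N N' h z hz
    rw [hΦmem] at hz ⊢
    obtain ⟨r, hr, hz⟩ := hz
    exact ⟨r, fun j => Polynomial.degreeLT_mono h (hr j), hz⟩
  have hBΦ : ∀ z ∈ B, ∃ N, z ∈ LinearMap.range (Φ N) := by
    intro z hz
    refine ⟨∑ j, ((β.repr ⟨z, hz⟩ j).natDegree + 1), ?_⟩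
    rw [hΦmem]
    refine ⟨fun j => β.repr ⟨z, hz⟩ j, fun j => ?_, ?_⟩
    · rw [Polynomial.mem_degreeLT]
      refine lt_of_le_of_lt Polynomial.degree_le_natDegree ?_
      have h1 : (β.repr ⟨z, hz⟩ j).natDegree + 1 ≤ ∑ j, ((β.repr ⟨z, hz⟩ j).natDegree + 1) :=
        Finset.single_le_sum (f := fun j => (β.repr ⟨z, hz⟩ j).natDegree + 1)
          (fun _ _ => Nat.zero_le _) (Finset.mem_univ j)
      exact_mod_cast (by omega : (β.repr ⟨z, hz⟩ j).natDegree <
        ∑ j, ((β.repr ⟨z, hz⟩ j).natDegree + 1))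
    · have h1 := β.sum_repr ⟨z, hz⟩
      have h2 : ((∑ j, β.repr ⟨z, hz⟩ j • β j : B) : E) = z := congrArg (Subtype.val) h1
      refine Eq.trans ?_ h2
      rw [AddSubmonoidClass.coe_finsetSum]
      rfl
  obtain ⟨N₀, hN₀⟩ : ∃ N₀, VV (κ := κ) x K ≤ LinearMap.range (Φ N₀) := by
    choose! F hF using hBΦ
    refine ⟨∑ z ∈ htfin.toFinset, F z, ?_⟩
    rw [← htspan, Submodule.span_le]
    intro z hz
    refine hΦmono ?_ (hF z (htB hz))
    exact Finset.single_le_sum (f := F) (fun _ _ => Nat.zero_le _)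
      (htfin.mem_toFinset.2 hz)
  have hup : ∀ m, VV (κ := κ) x (K + m) ≤ LinearMap.range (Φ (N₀ + m)) := by
    intro m
    induction m with
    | zero => exact hN₀
    | succ m ih =>
      rintro _ ⟨s, hs, rfl⟩
      obtain ⟨s₁, hs₁, s₂, hs₂, h⟩ := hK (K + m) (by omega) s hs
      change MvPolynomial.aeval x s ∈ _
      rw [h, ← hXsmul]
      refine Submodule.add_mem _ ?_ ?_
      · have h1 := ih (mem_VV hs₁)
        rw [hΦmem] at h1 ⊢
        obtain ⟨r, hr, hz⟩ := h1
        refine ⟨fun j => Polynomial.X * r j, fun j => ?_, ?_⟩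
        · have h2 := hr j
          rw [Polynomial.mem_degreeLT] at h2 ⊢
          change (Polynomial.X * r j).degree < _
          by_cases h0 : r j = 0
          · rw [h0, mul_zero, Polynomial.degree_zero]; exact WithBot.bot_lt_coe _
          · rw [Polynomial.degree_mul, Polynomial.degree_X, Polynomial.degree_eq_natDegree h0] at *
            have h3 : (r j).natDegree < N₀ + m := by exact_mod_cast h2
            have h4 : 1 + (r j).natDegree < N₀ + (m + 1) := by omega
            exact_mod_cast h4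
        · rw [← hz, Finset.smul_sum]
          simp only [mul_smul]
      · exact hΦmono (by omega) (ih (mem_VV hs₂))
  -- lower bound
  have hβ : ∀ j, ∃ k, (β j : E) ∈ VV (κ := κ) x k := by
    intro j
    obtain ⟨s, hs⟩ := (β j).2
    exact ⟨_, hs ▸ mem_VV_totalDegree hl hl1 s⟩
  choose G hG using hβ
  have hβK : ∀ j, (β j : E) ∈ VV (κ := κ) x (∑ j, G j) := fun j =>
    VV_mono hl hl1 (Finset.single_le_sum (f := G) (fun _ _ => Nat.zero_le _)
      (Finset.mem_univ j)) (hG j)
  have hpow : ∀ (i : ℕ) (j), ((Polynomial.X : κ[X]) ^ i) • (β j : E) ∈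
      VV (κ := κ) x (∑ j, G j + i) := by
    intro i j
    induction i with
    | zero => simpa using hβK j
    | succ i ih =>
      rw [pow_succ', mul_smul, hXsmul]
      exact hVb _ _ ih
  have hlow : ∀ m, ρ * (m + 1) ≤ Module.finrank κ (VV (κ := κ) x (∑ j, G j + m)) := by
    intro m
    -- independence of the products
    let Ψ : (Fin ρ → Polynomial.degreeLT κ (m + 1)) →ₗ[κ] VV (κ := κ) x (∑ j, G j + m) :=
      (Φ (m + 1)).codRestrict _ (by
        intro r
        change ∑ j, ((r j : κ[X]) • (β j : E)) ∈ _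
        refine Submodule.sum_mem _ fun j _ => ?_
        have h1 := (r j).2
        rw [Polynomial.mem_degreeLT] at h1
        rw [(r j : κ[X]).as_sum_range' (m + 1) (by
          by_cases h0 : (r j : κ[X]) = 0
          · rw [h0]; simp
          · rw [Polynomial.degree_eq_natDegree h0] at h1; exact_mod_cast h1), Finset.sum_smul]
        refine Submodule.sum_mem _ fun i hi => ?_
        rw [← Polynomial.C_mul_X_pow_eq_monomial, mul_smul, ← Polynomial.algebraMap_eq,
          algebraMap_smul]
        refine Submodule.smul_mem _ _ (VV_mono hl hl1 ?_ (hpow i j))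
        rw [Finset.mem_range] at hi
        omega)
    have hΨ : Function.Injective Ψ := by
      intro r r' h
      have h1 : ∑ j, ((r j : κ[X]) • (β j : E)) = ∑ j, ((r' j : κ[X]) • (β j : E)) :=
        congrArg Subtype.val h
      have h2 : ∑ j, ((r j : κ[X]) • β j) = ∑ j, ((r' j : κ[X]) • β j) := by
        apply Subtype.ext
        simpa using h1
      have h3 := (Fintype.linearIndependent_iff.1 β.linearIndependent)
        (fun j => (r j : κ[X]) - (r' j : κ[X])) (by
          simp only [sub_smul, Finset.sum_sub_distrib]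
          rw [h2, sub_self])
      funext j
      apply Subtype.ext
      have := h3 j
      simpa [sub_eq_zero] using this
    have h4 := LinearMap.finrank_le_finrank_of_injective hΨ
    have hfd : Module.Finite κ (Polynomial.degreeLT κ (m + 1)) :=
      Module.Finite.equiv (Polynomial.degreeLTEquiv κ (m + 1)).symm
    rw [Module.finrank_pi_fintype] at h4
    simpa [(Polynomial.degreeLTEquiv κ (m + 1)).finrank_eq] using h4
  obtain ⟨c, K', he⟩ := he
  apply le_antisymm
  · refine le_of_affine (β := e * K + c) (δ := ρ * N₀) K' fun m hm => ?_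
    have h1 : Module.finrank κ (VV (κ := κ) x (K + m)) ≤ ρ * (N₀ + m) :=
      (Submodule.finrank_mono (hup m)).trans (hΦrank _)
    have h2 := he (K + m) (by omega)
    have h3 : ((Module.finrank κ (VV (κ := κ) x (K + m)) : ℕ) : ℤ) ≤ ρ * (N₀ + m) := by
      exact_mod_cast h1
    rw [h2] at h3
    push_cast at h3
    linarith
  · refine le_of_affine (β := ρ) (δ := e * (∑ j, G j : ℕ) + c) K' fun m hm => ?_
    have h1 := hlow m
    have h2 := he (∑ j, G j + m) (by omega)
    have h3 : (ρ : ℤ) * (m + 1) ≤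
        ((Module.finrank κ (VV (κ := κ) x (∑ j, G j + m)) : ℕ) : ℤ) := by
      exact_mod_cast h1
    rw [h2] at h3
    push_cast at h3 ⊢
    linarith

end Pool.Agent.CurveDeg
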