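import Pool.Agent.CurveDeg.Curve
import Pool.Agent.CurveDeg.Chain

/-!
The special forms, and the divisibility of degrees of curves on their common zero locus.
-/

set_option autoImplicit false

namespace Pool.Agent.CurveDeg

open MvPolynomial WithZero

/-- The size of the blocks. -/
abbrev bs (p δ : ℕ) : ℕ := (p - 1) * p ^ δ

/-- The colours: a variable `k + 1` together with a block of the previous variables. -/
abbrev Colour (p : ℕ) (δ : ℕ → ℕ) (n : ℕ) : Type := Σ k : Fin n, Fin (k / bs p (δ k) + 1)

section forms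

variable {σ : Type} {n r : ℕ} (u : Fin (n + 1) → σ) (w : Fin r → σ) (d : Fin r → ℕ) (p : ℕ)
  (δ : ℕ → ℕ) (γ : Fin r → Option (Colour p δ n))

/-- The variables in the block of a colour. -/
def block (τ : Colour p δ n) : Finset (Fin (n + 1)) :=
  Finset.univ.filter fun j => j.val ≤ τ.1.val ∧ j.val / bs p (δ τ.1) = τ.2.val

/-- The exponents: the positive integers prime to `p`. -/
def expo (p ε : ℕ) {n : ℕ} (j : Fin (n + 1)) : ℕ :=
  (j.val % bs p ε) / (p - 1) * p + (j.val % bs p ε) % (p - 1) + 1

/-- The `p`-adic valuation of the degrees. -/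
def ee (i : Fin r) : ℕ := (d i).factorization p

/-- The index `i` is used by the colour `τ`. -/
def Active (τ : Colour p δ n) (i : Fin r) : Prop := γ i = some τ ∧ δ τ.1 < ee d p i

instance (τ : Colour p δ n) : DecidablePred (Active d p δ γ τ) := fun i => by
  unfold Active; infer_instance

/-- The variable reached by the chain of colour `τ` after the indices `< m`. -/
def cur (τ : Colour p δ n) : ℕ → σ
  | 0 => u τ.1.succ
  | m + 1 => if h : m < r then (if Active d p δ γ τ ⟨m, h⟩ then w ⟨m, h⟩ else cur τ m)
      else cur τ m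

/-- The colour of an index, if it is active. -/
def act (i : Fin r) : Option (Colour p δ n) :=
  (γ i).bind fun τ => if δ τ.1 < ee d p i then some τ else none

/-- The degree of the basic form. -/
def qdeg (i : Fin r) : ℕ := if (act d p δ γ i).isSome then p ^ ee d p i else 1

variable (R : Type) [CommRing R]

/-- The basic form. -/
noncomputable def core (i : Fin r) : MvPolynomial σ R :=
  match act d p δ γ i with
  | none => X (w i)
  | some τ => X (w i) ^ (p ^ ee d p i) - ∑ j ∈ block p δ τ,
      X (cur u w d p δ γ τ i) ^ expo p (δ τ.1) j *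
        X (u j) ^ (p ^ ee d p i - expo p (δ τ.1) j)

/-- The special form. -/
noncomputable def spec (i : Fin r) : MvPolynomial σ R :=
  core u w d p δ γ R i ^ (d i / qdeg d p δ γ i)

end forms

section

variable {σ : Type} {n r : ℕ} (u : Fin (n + 1) → σ) (w : Fin r → σ) (d : Fin r → ℕ) {p : ℕ}
  {δ : ℕ → ℕ} (hp : p.Prime) (γ : Fin r → Option (Colour p δ n))

include hp

lemma bs_pos (ε : ℕ) : 0 < bs p ε := by
  have h2 := hp.two_le
  exact Nat.mul_pos (by omega) (pow_pos hp.pos _)

lemma expo_lt (ε : ℕ) (j : Fin (n + 1)) : expo p ε j < p ^ (ε + 1) := by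
  unfold expo
  have h2 := hp.two_le
  have h1 := Nat.mod_lt j.val (bs_pos hp ε)
  have h3 : (j.val % bs p ε) / (p - 1) < p ^ ε := by
    rw [Nat.div_lt_iff_lt_mul (by omega), mul_comm]
    exact h1
  have h4 := Nat.mod_lt (j.val % bs p ε) (by omega : 0 < p - 1)
  have h5 : (j.val % bs p ε) / (p - 1) * p + p ≤ p ^ ε * p := by
    calc (j.val % bs p ε) / (p - 1) * p + p = ((j.val % bs p ε) / (p - 1) + 1) * p := by ring
      _ ≤ p ^ ε * p := Nat.mul_le_mul_right _ h3
  rw [pow_succ]
  omega

lemma expo_coprime (ε : ℕ) (j : Fin (n + 1)) : IsCoprime (expo p ε j : ℤ) (p : ℤ) := by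
  have h2 := hp.two_le
  have h4 := Nat.mod_lt (j.val % bs p ε) (by omega : 0 < p - 1)
  rw [Nat.isCoprime_iff_coprime, Nat.coprime_comm, hp.coprime_iff_not_dvd]
  intro h
  unfold expo at h
  rw [add_assoc, Nat.dvd_add_right (Dvd.intro_left _ rfl)] at h
  have := Nat.le_of_dvd (by omega) h
  omega

omit hp in
lemma div_aux {x y q : ℕ} (h : y + 1 < q) : (x * q + y + 1) / q = x := by
  rw [add_assoc, mul_comm, Nat.mul_add_div (by omega), Nat.div_eq_of_lt h, add_zero]

lemma expo_inj' (ε : ℕ) (j j' : Fin (n + 1)) (hb : j.val / bs p ε = j'.val / bs p ε)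
    (h : expo p ε j = expo p ε j') : j = j' := by
  unfold expo at h
  have h2 := hp.two_le
  have h4 := Nat.mod_lt (j.val % bs p ε) (by omega : 0 < p - 1)
  have h4' := Nat.mod_lt (j'.val % bs p ε) (by omega : 0 < p - 1)
  have h5 : (j.val % bs p ε) / (p - 1) = (j'.val % bs p ε) / (p - 1) := by
    have e1 : ((j.val % bs p ε) / (p - 1) * p + (j.val % bs p ε) % (p - 1) + 1) / p =
        (j.val % bs p ε) / (p - 1) := div_aux (by omega)
    have e2 : ((j'.val % bs p ε) / (p - 1) * p + (j'.val % bs p ε) % (p - 1) + 1) / p =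
        (j'.val % bs p ε) / (p - 1) := div_aux (by omega)
    rw [← e1, ← e2, h]
  rw [h5] at h
  have h6 : (j.val % bs p ε) % (p - 1) = (j'.val % bs p ε) % (p - 1) := by omega
  have h7 : j.val % bs p ε = j'.val % bs p ε := by
    rw [← Nat.div_add_mod (j.val % bs p ε) (p - 1), ← Nat.div_add_mod (j'.val % bs p ε) (p - 1),
      h5, h6]
  apply Fin.ext
  rw [← Nat.div_add_mod j.val (bs p ε), ← Nat.div_add_mod j'.val (bs p ε), hb, h7]

lemma expo_inj (τ : Colour p δ n) : ∀ j ∈ block p δ τ, ∀ j' ∈ block p δ τ,
    expo p (δ τ.1) j = expo p (δ τ.1) j' → j = j' := by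
  intro j hj j' hj' h
  unfold block at hj hj'
  rw [Finset.mem_filter] at hj hj'
  exact expo_inj' hp _ j j' (hj.2.2.trans hj'.2.2.symm) h

omit hp in
lemma act_eq_some_iff (τ : Colour p δ n) (i : Fin r) :
    act d p δ γ i = some τ ↔ Active d p δ γ τ i := by
  unfold act Active
  rcases hγ : γ i with _ | τ'
  · simp
  · simp only [Option.bind_some]
    split_ifs with h
    · simp only [Option.some.injEq]
      constructor
      · rintro rfl; exact ⟨rfl, h⟩
      · exact fun h => h.1
    · simp only [Option.some.injEq]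
      constructor
      · intro h'; exact absurd h' (by simp)
      · rintro ⟨rfl, h'⟩; exact absurd h' h

lemma expo_lt_pow {ε : ℕ} (i : Fin r) (hi : ε < ee d p i) (j : Fin (n + 1)) :
    expo p ε j < p ^ ee d p i :=
  (expo_lt hp ε j).trans_le (Nat.pow_le_pow_right hp.pos hi)

lemma core_homog (R : Type) [CommRing R] (i : Fin r) :
    core u w d p δ γ R i ∈ homogeneousSubmodule σ R (qdeg d p δ γ i) := by
  unfold core qdeg
  rcases h : act d p δ γ i with _ | τ
  · simp only [Option.isSome_none, Bool.false_eq_true, if_false]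
    exact isHomogeneous_X R _
  · simp only [Option.isSome_some, if_true]
    have hact := ((act_eq_some_iff d γ τ i).1 h).2
    refine Submodule.sub_mem _ ?_ (Submodule.sum_mem _ fun j _ => ?_)
    · exact isHomogeneous_X_pow _ _
    · have h1 : IsHomogeneous (X (cur u w d p δ γ τ i) ^ expo p (δ τ.1) j * X (u j) ^
          (p ^ ee d p i - expo p (δ τ.1) j) : MvPolynomial σ R)
          (expo p (δ τ.1) j + (p ^ ee d p i - expo p (δ τ.1) j)) :=
        (isHomogeneous_X_pow _ _).mul (isHomogeneous_X_pow _ _)
      have h2 := expo_lt_pow d hp i hact j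
      rw [Nat.add_sub_cancel' h2.le] at h1
      exact h1

omit hp in
lemma qdeg_dvd (i : Fin r) : qdeg d p δ γ i ∣ d i := by
  unfold qdeg
  split_ifs
  · exact Nat.ordProj_dvd _ _
  · exact one_dvd _

lemma spec_homog (R : Type) [CommRing R] (i : Fin r) :
    spec u w d p δ γ R i ∈ homogeneousSubmodule σ R (d i) := by
  have h := IsHomogeneous.pow (core_homog u w d hp γ R i) (d i / qdeg d p δ γ i)
  rw [Nat.mul_div_cancel' (qdeg_dvd d γ i)] at h
  exact h

omit hp in
lemma map_core {R R' : Type} [CommRing R] [CommRing R'] (f : R →+* R') (i : Fin r) :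
    map f (core u w d p δ γ R i) = core u w d p δ γ R' i := by
  unfold core
  rcases act d p δ γ i with _ | τ <;> simp

omit hp in
lemma map_spec {R R' : Type} [CommRing R] [CommRing R'] (f : R →+* R') (i : Fin r) :
    map f (spec u w d p δ γ R i) = spec u w d p δ γ R' i := by
  unfold spec
  rw [map_pow, map_core]

end

/-- The total loss up to the variable of index `m`. -/
def loss (δ : ℕ → ℕ) (m : ℕ) : ℕ := ∑ k ∈ Finset.Ico 1 m, δ k

lemma loss_mono (δ : ℕ → ℕ) {m m' : ℕ} (h : m ≤ m') : loss δ m ≤ loss δ m' :=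
  Finset.sum_le_sum_of_subset (Finset.Ico_subset_Ico_right h)

lemma loss_succ (δ : ℕ → ℕ) {m : ℕ} (h : 1 ≤ m) : loss δ (m + 1) = loss δ m + δ m := by
  unfold loss
  rw [Finset.sum_Ico_succ_top h]

/-- **Divisibility for the special complete intersection.** -/
theorem dvd_slope_special {σ : Type} [Finite σ] {κ : Type} [Field κ] [CharZero κ] {n r : ℕ}
    (u : Fin (n + 1) → σ) (w : Fin r → σ) (huw : ∀ i, (∃ j, i = u j) ∨ ∃ j, i = w j)
    (d : Fin r → ℕ) {p L : ℕ} {δ : ℕ → ℕ} (hp : p.Prime) (γ : Fin r → Option (Colour p δ n))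
    (hL : ∀ τ : Colour p δ n, L ≤ ∑ i, if γ i = some τ ∧ δ τ.1 < (d i).factorization p then
      (d i).factorization p else 0)
    (P : Ideal (MvPolynomial σ κ)) (hP : Homog P) (hpr : P.IsPrime)
    (hs : ∀ i, spec u w d p δ γ κ i ∈ P) (e : ℤ) (he : EvAffine (hilb P) e) :
    ((p : ℤ) ^ (L - loss δ n)) ∣ e := by
  classical
  have hcore : ∀ i, core u w d p δ γ κ i ∈ P := fun i => hpr.mem_of_pow_mem _ (hs i)
  have hmain := dvd_slope_of_cong u P hP hpr ?_ (p ^ (L - loss δ n)) ?_ e he
  · exact_mod_cast hmain
  · intro Q hQ hQp hle hall i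
    rcases huw i with ⟨j, rfl⟩ | ⟨i', rfl⟩
    · exact hall j
    · have h1 := hle (hcore i')
      unfold core at h1
      rcases h : act d p δ γ i' with _ | τ
      · rw [h] at h1; exact h1
      · rw [h] at h1
        simp only at h1
        have hact := ((act_eq_some_iff d γ τ i').1 h).2
        have h2 : ∑ j ∈ block p δ τ, (X (cur u w d p δ γ τ i') ^ expo p (δ τ.1) j *
            X (u j) ^ (p ^ ee d p i' - expo p (δ τ.1) j) : MvPolynomial σ κ) ∈ Q := by
          refine Q.sum_mem fun j _ => Q.mul_mem_left _ ?_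
          have h2 := expo_lt_pow d hp i' hact j
          exact Ideal.pow_mem_of_mem Q (hall j) _ (by omega)
        have h3 := Q.add_mem h1 h2
        rw [sub_add_cancel] at h3
        exact hQp.mem_of_pow_mem _ h3
  · intro E _ _ x hxP v j j' hj hj'
    -- the relations between the coordinates
    have hrel : ∀ (τ : Colour p δ n) (i : Fin r), Active d p δ γ τ i →
        x (w i) ^ (p ^ ee d p i) =
        ∑ j ∈ block p δ τ, x (cur u w d p δ γ τ i) ^ expo p (δ τ.1) j *
          x (u j) ^ (p ^ ee d p i - expo p (δ τ.1) j) := by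
      intro τ i hi
      have h1 := (hxP _ _ (core_homog u w d hp γ κ i)).2 (hcore i)
      unfold core at h1
      rw [(act_eq_some_iff d γ τ i).2 hi] at h1
      simp only [map_sub, map_pow, aeval_X, map_sum, map_mul] at h1
      exact sub_eq_zero.1 h1
    -- the least index
    have hex : ∃ k : Fin (n + 1), x (u k) ≠ 0 := ⟨j, hj⟩
    obtain ⟨k₀, hk₀, hmin⟩ : ∃ k₀ : Fin (n + 1), x (u k₀) ≠ 0 ∧
        ∀ k, x (u k) ≠ 0 → k₀ ≤ k := by
      obtain ⟨k₀, h1, h2⟩ := (Finset.univ.filter fun k : Fin (n + 1) => x (u k) ≠ 0)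
        |>.exists_min_image id ⟨j, by simpa using hj⟩
      rw [Finset.mem_filter] at h1
      exact ⟨k₀, h1.2, fun k hk => h2 k (by simpa using hk)⟩
    -- normalised coordinates
    set y : σ → E := fun i => x i / x (u k₀) with hy
    have hrel' : ∀ (τ : Colour p δ n) (i : Fin r), Active d p δ γ τ i →
        y (w i) ^ (p ^ ee d p i) =
        ∑ j ∈ block p δ τ, y (cur u w d p δ γ τ i) ^ expo p (δ τ.1) j *
          y (u j) ^ (p ^ ee d p i - expo p (δ τ.1) j) := by
      intro τ i hi
      simp only [hy]
      rw [div_pow, hrel τ i hi, Finset.sum_div]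
      refine Finset.sum_congr rfl fun j _ => ?_
      rw [div_pow, div_pow, div_mul_div_comm, ← pow_add,
        Nat.add_sub_cancel' (expo_lt_pow d hp i hi.2 j).le]
    have hcur : ∀ (τ : Colour p δ n) (m : ℕ), y (cur u w d p δ γ τ m) =
        curEl (Active d p δ γ τ) (y (u τ.1.succ)) (fun i => y (w i)) m := by
      intro τ m
      induction m with
      | zero => rfl
      | succ m ih =>
        rw [cur, curEl]
        by_cases h : m < r
        · rw [dif_pos h, dif_pos h]
          split_ifs
          · rfl
          · exact ih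
        · rw [dif_neg h, dif_neg h]; exact ih
    have hcongr : ∀ (m : ℕ) (k : Fin (n + 1)), k.val = m → x (u k) ≠ 0 →
        ((p : ℤ) ^ (L - loss δ m)) ∣ lg v (y (u k)) := by
      intro m
      induction m using Nat.strong_induction_on with
      | _ m ih =>
        intro k hkm hk
        rcases (hmin k hk).eq_or_lt with h | h
        · have : y (u k) = 1 := by rw [← h]; exact div_self hk₀
          rw [this, lg_one]; exact dvd_zero _
        · obtain ⟨k', rfl⟩ : ∃ k' : Fin n, k = k'.succ := by
            refine ⟨k.pred ?_, (Fin.succ_pred _ _).symm⟩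
            rintro rfl
            exact absurd h (Fin.not_lt_zero _)
          have hkm' : k'.val + 1 = m := hkm
          have hk₀k' : k₀.val ≤ k'.val := by
            have : k₀.val < k'.val + 1 := h
            omega
          rcases Nat.lt_or_ge L (loss δ m) with hLm | hLm
          · rw [Nat.sub_eq_zero_of_le hLm.le, pow_zero]; exact one_dvd _
          let τ : Colour p δ n := ⟨k', ⟨k₀.val / bs p (δ k'), by
            have := Nat.div_le_div_right (c := bs p (δ k')) hk₀k'
            omega⟩⟩
          have hk₀τ : k₀ ∈ block p δ τ := by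
            unfold block
            rw [Finset.mem_filter]
            exact ⟨Finset.mem_univ _, hk₀k', rfl⟩
          have hloss : loss δ k'.val ≤ loss δ m := loss_mono δ (by omega)
          refine chain v (L := L - loss δ k'.val) hp (block p δ τ) (expo p (δ τ.1))
            (fun j _ => expo_coprime hp _ j) ?_
            (fun j => y (u j)) (fun i => y (w i))
            (Active d p δ γ τ) (ee d p) (fun i hi j _ => expo_lt_pow d hp i hi.2 j)
            (y (u k'.succ)) ?_ ?_ ?_ ?_ ?_ ?_
          · intro j₁ hj₁ j₂ hj₂ hne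
            obtain ⟨s, c, h1, h2, h3⟩ := exists_val (δ := δ τ.1) hp (expo_lt hp _ j₁)
              (expo_lt hp _ j₂) (fun h => hne (expo_inj hp τ j₁ hj₁ j₂ hj₂ h))
            refine ⟨s, c, h1, h2, ?_⟩
            unfold block at hj₁ hj₂
            rw [Finset.mem_filter] at hj₁ hj₂
            have e1 : j₁.val ≤ k'.val := hj₁.2.1
            have e2 : j₂.val ≤ k'.val := hj₂.2.1
            have e3 : j₁.val ≠ j₂.val := fun h => hne (Fin.ext h)
            have e4 : loss δ m = loss δ k'.val + δ k'.val := by
              rw [← hkm']; exact loss_succ δ (by omega)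
            have e5 : s ≤ δ k'.val := h3
            omega
          · exact div_ne_zero hk hk₀
          · intro i hi
            rw [hrel' τ i hi, hcur τ i]
          · exact ⟨k₀, hk₀τ, div_ne_zero hk₀ hk₀⟩
          · intro j hj hj0
            unfold block at hj
            rw [Finset.mem_filter] at hj
            have hj1 : j.val ≤ k'.val := hj.2.1
            have h1 := ih j.val (by omega) j rfl (by
              intro h0
              apply hj0
              simp [hy, h0])
            refine (pow_dvd_pow _ ?_).trans h1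
            have e1 : loss δ j.val ≤ loss δ k'.val := loss_mono δ hj1
            omega
          · omega
          · refine (Nat.sub_le _ _).trans ((hL τ).trans (Finset.sum_le_sum fun i _ => ?_))
            by_cases h1 : γ i = some τ ∧ δ τ.1 < (d i).factorization p
            · have h3 : Active d p δ γ τ i := h1
              rw [if_pos h1, if_pos h3]; exact le_rfl
            · rw [if_neg h1]; exact Nat.zero_le _
    have hle : ∀ k : Fin (n + 1), L - loss δ n ≤ L - loss δ k.val := by
      intro k
      have : loss δ k.val ≤ loss δ n := loss_mono δ (by omega)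
      omega
    have h1 := (pow_dvd_pow (p : ℤ) (hle j)).trans (hcongr _ j rfl hj)
    have h2 := (pow_dvd_pow (p : ℤ) (hle j')).trans (hcongr _ j' rfl hj')
    have h3 := dvd_sub h1 h2
    rw [hy] at h3
    simp only at h3
    rw [lg_div v hj hk₀, lg_div v hj' hk₀] at h3
    have h4 : lg v (x (u j)) - lg v (x (u k₀)) - (lg v (x (u j')) - lg v (x (u k₀))) =
        lg v (x (u j)) - lg v (x (u j')) := by ring
    rw [h4] at h3
    push_cast
    exact h3

end Pool.Agent.CurveDeg
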