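import Pool.Agent.CurveDeg.Reduce

set_option autoImplicit false

namespace Pool.Agent.CurveDeg

open MvPolynomial IsLocalRing

universe u

/-- A place of `K` over `k` with prescribed values at algebraically independent elements. -/
theorem exists_place {k K ι : Type*} [Field k] [Field K] [Algebra k K] (c : ι → K)
    (hc : AlgebraicIndependent k c) (a : ι → k) :
    ∃ V : ValuationSubring K, (∀ q : k, algebraMap k K q ∈ V) ∧
      ∀ i, c i - algebraMap k K (a i) ∈ V.nonunits := by
  let A : Subring K := (aeval c : MvPolynomial ι k →ₐ[k] K).toRingHom.range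
  let e : MvPolynomial ι k ≃+* A :=
    RingEquiv.ofBijective ((aeval c : MvPolynomial ι k →ₐ[k] K).toRingHom.rangeRestrict)
      ⟨fun x y h => hc (congrArg Subtype.val h), RingHom.rangeRestrict_surjective _⟩
  let ev : A →+* k := (aeval a : MvPolynomial ι k →ₐ[k] k).toRingHom.comp e.symm.toRingHom
  have hne : RingHom.ker ev ≠ ⊤ := RingHom.ker_ne_top ev
  obtain ⟨V, hAV, hV⟩ := Ideal.image_subset_nonunits_valuationSubring (RingHom.ker ev) hne
  refine ⟨V, ?_, ?_⟩
  · intro q
    refine hAV ⟨C q, ?_⟩
    simp
  · intro i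
    refine hV ⟨e (X i - C (a i)), ?_, ?_⟩
    · show ev (e (X i - C (a i))) = 0
      simp [ev]
    · show (aeval c : MvPolynomial ι k →ₐ[k] K) (X i - C (a i)) = _
      simp

/-- The residue field of a valuation subring of an algebraically closed field is
algebraically closed. -/
theorem isAlgClosed_residueField {K : Type*} [Field K] [IsAlgClosed K] (V : ValuationSubring K) :
    IsAlgClosed (ResidueField V) := by
  refine IsAlgClosed.of_exists_root _ fun p hp hirr => ?_
  obtain ⟨q, hq, hdeg, hmon⟩ := Polynomial.lifts_and_degree_eq_and_monic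
    (f := residue V) (p := p) (by
      rw [Polynomial.mem_lifts]
      exact Polynomial.map_surjective _ residue_surjective p) hp
  have hd : (q.map (algebraMap V K)).degree ≠ 0 := by
    rw [hmon.degree_map, hdeg]
    exact (Polynomial.degree_pos_of_irreducible hirr).ne'
  obtain ⟨x, hx⟩ := IsAlgClosed.exists_root (q.map (algebraMap V K)) hd
  have hint : IsIntegral V x := ⟨q, hmon, by
    rwa [Polynomial.IsRoot, Polynomial.eval_map] at hx⟩
  obtain ⟨y, hy⟩ := IsIntegrallyClosed.isIntegral_iff.mp hint
  refine ⟨residue V y, ?_⟩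
  have h1 : q.eval y = 0 := by
    apply IsFractionRing.injective V K
    rw [map_zero, ← Polynomial.eval_map_apply, hy]
    exact hx
  rw [← hq, Polynomial.eval_map_apply, h1, map_zero]

/-- Specialisation: a homogeneous ideal containing forms with algebraically independent
coefficients degenerates, with the same Hilbert function, to a homogeneous ideal over an
algebraically closed field of characteristic zero containing arbitrary prescribed rational
forms of the same degrees. -/
theorem specialize {σ : Type*} [Fintype σ] {ι : Type*} {K : Type u} [Field K]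
    [IsAlgClosed K] [CharZero K] (d : ι → ℕ) (f : ι → MvPolynomial σ K)
    (hf : ∀ i, f i ∈ homogeneousSubmodule σ K (d i))
    (hind : AlgebraicIndependent ℚ
      (fun x : (Σ i : ι, {m : σ →₀ ℕ // m.degree = d i}) => coeff x.2.1 (f x.1)))
    (g : ι → MvPolynomial σ ℚ) (hg : ∀ i, g i ∈ homogeneousSubmodule σ ℚ (d i))
    (I : Ideal (MvPolynomial σ K))
    (hI : ∀ p ∈ I, ∀ k : ℕ, homogeneousComponent k p ∈ I) (hfI : ∀ i, f i ∈ I) :
    ∃ (κ : Type u) (_ : Field κ) (_ : IsAlgClosed κ) (_ : CharZero κ)
      (J : Ideal (MvPolynomial σ κ)),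
      (∀ p ∈ J, ∀ k : ℕ, homogeneousComponent k p ∈ J) ∧
      (∀ i, MvPolynomial.map (algebraMap ℚ κ) (g i) ∈ J) ∧
      ∀ k : ℕ, Module.finrank κ (Submodule.map (Ideal.Quotient.mkₐ κ J).toLinearMap
          (homogeneousSubmodule σ κ k)) =
        Module.finrank K (Submodule.map (Ideal.Quotient.mkₐ K I).toLinearMap
          (homogeneousSubmodule σ K k)) := by
  classical
  obtain ⟨V, hk, hV⟩ := exists_place _ hind (fun x => coeff x.2.1 (g x.1))
  haveI hac : IsAlgClosed (ResidueField V) := isAlgClosed_residueField V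
  let φ : ℚ →+* V := (algebraMap ℚ K).codRestrict V.toSubring hk
  haveI hcz : CharZero (ResidueField V) :=
    charZero_of_injective_ringHom ((residue V).comp φ).injective
  refine ⟨ResidueField V, inferInstance, hac, hcz, redIdeal (O := V) I,
    redIdeal_homog I hI, ?_, fun k => hilb_redIdeal I hI k⟩
  intro i
  rw [mem_redIdeal]
  have hcoef : ∀ m : MonDeg σ (d i), coeff m.1 (f i) ∈ V := by
    intro m
    have h1 := hV ⟨i, m⟩
    have h2 : coeff m.1 (f i) - algebraMap ℚ K (coeff m.1 (g i)) ∈ V :=
      V.nonunits_subset h1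
    have := V.add_mem _ _ h2 (hk (coeff m.1 (g i)))
    rwa [sub_add_cancel] at this
  refine ⟨ofVec V (d i) (fun m => ⟨coeff m.1 (f i), hcoef m⟩), ?_, ?_⟩
  · rw [map_ofVec]
    have h1 := ofVec_coeff (hf i)
    have h2 : ofVec K (d i) (fun m : MonDeg σ (d i) =>
        algebraMap V K (⟨coeff m.1 (f i), hcoef m⟩ : V)) = f i := h1
    rw [h2]
    exact hfI i
  · rw [map_ofVec]
    have h1 := ofVec_coeff (hg i)
    rw [← h1, map_ofVec]
    congr 1
    ext m
    have h3 := hV ⟨i, m⟩
    have h4 : residue V (⟨coeff m.1 (f i), hcoef m⟩ - φ (coeff m.1 (g i))) = 0 := by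
      rw [residue_eq_zero_iff]
      rw [← ValuationSubring.coe_mem_nonunits_iff]
      exact h3
    rw [map_sub, sub_eq_zero] at h4
    rw [h4]
    exact RingHom.congr_fun (RingHom.ext_rat ((residue V).comp φ) (algebraMap ℚ _)) _

end Pool.Agent.CurveDeg
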