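import Pool.Agent.CurveDeg.Special
import Pool.Agent.CurveDeg.Norm
import Pool.Agent.CurveDeg.Kummer

/-!
Special forms in which one form may serve several colours.
-/

set_option autoImplicit false

namespace Pool.Agent.CurveDeg

open MvPolynomial WithZero

lemma aeval_homog_of_weights {K σ V : Type*} [Field K] [Fintype V] (N : MvPolynomial V K)
    (Y : V → MvPolynomial σ K) (q : V → ℕ) (hY : ∀ s, (Y s).IsHomogeneous (q s)) (D : ℕ)
    (hN : ∀ m ∈ N.support, ∑ s, q s * m s = D) : (aeval Y N).IsHomogeneous D := by
  rw [aeval_def, eval₂_eq']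
  refine Submodule.sum_mem (homogeneousSubmodule σ K D) fun m hm => ?_
  have h1 : (∏ s, Y s ^ m s).IsHomogeneous D := by
    rw [← hN m hm]
    exact IsHomogeneous.prod _ _ _ fun s _ => (hY s).pow (m s)
  have h2 := (isHomogeneous_C σ (coeff m N)).mul h1
  rw [zero_add] at h2
  exact h2

/-- The basic form attached to a relation `w ^ e = F (roots, u)`. -/
theorem exists_core {K₀ : Type*} [Field K₀] [IsAlgClosed K₀] [CharZero K₀] {σ τ μ : Type*}
    [Fintype τ] [Fintype μ] {p : ℕ} (hp : 0 < p) (x : τ → ℕ) (F : MvPolynomial (τ ⊕ μ) K₀)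
    {e : ℕ} (hF : F.IsHomogeneous e) (w : σ) (u : μ → σ) (y : τ → MvPolynomial σ K₀)
    (hy : ∀ k, (y k).IsHomogeneous (p ^ x k)) :
    ∃ core : MvPolynomial σ K₀, core.IsHomogeneous (e * p ^ ∑ k, x k) ∧
      ∀ (Ω : Type*) [Field Ω] [Algebra K₀ Ω] (pt : σ → Ω) (θ : τ → Ω),
        (∀ k, θ k ^ (p ^ x k) = aeval pt (y k)) → aeval pt core = 0 →
        ∃ z : τ → K₀, (∀ k, z k ^ (p ^ x k) = 1) ∧
          pt w ^ e = aeval (Sum.elim (fun k => algebraMap K₀ Ω (z k) * θ k)
            (fun j => pt (u j))) F := by
  let q : Option (τ ⊕ μ) → ℕ := fun s => s.elim 1 (Sum.elim (fun k => p ^ x k) fun _ => 1)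
  obtain ⟨N, hN, hN'⟩ := exists_norm (none : Option (τ ⊕ μ)) (rename some F)
    (hF.rename_isHomogeneous) q (by
      rintro (_ | k | j)
      · exact Nat.one_pos
      · exact pow_pos hp _
      · exact Nat.one_pos) rfl
  have hprod : ∏ s, q s = p ^ ∑ k, x k := by
    rw [Fintype.prod_option, Fintype.prod_sum_type]
    simp only [q, Option.elim, Sum.elim_inl, Sum.elim_inr, Finset.prod_const_one, one_mul, mul_one]
    rw [Finset.prod_pow_eq_pow_sum]
  rw [hprod] at hN
  let Y : Option (τ ⊕ μ) → MvPolynomial σ K₀ := fun s =>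
    s.elim (X w) (Sum.elim y fun j => X (u j))
  refine ⟨aeval Y N, ?_, ?_⟩
  · refine aeval_homog_of_weights N Y q ?_ _ hN
    rintro (_ | k | j)
    · exact isHomogeneous_X _ _
    · exact hy k
    · exact isHomogeneous_X _ _
  · intro Ω _ _ pt θ hθ h0
    let ω : Option (τ ⊕ μ) → Ω := fun s => s.elim (pt w) (Sum.elim θ fun j => pt (u j))
    have h1 : aeval pt (aeval Y N) = aeval (fun s => ω s ^ q s) N := by
      have : (aeval pt).comp (aeval Y) = (aeval (fun s => ω s ^ q s) :
          MvPolynomial (Option (τ ⊕ μ)) K₀ →ₐ[K₀] Ω) := by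
        refine algHom_ext fun s => ?_
        rw [AlgHom.comp_apply, aeval_X, aeval_X]
        rcases s with _ | k | j
        · simp [Y, ω, q]
        · simp only [Y, ω, q, Option.elim, Sum.elim_inl]
          exact (hθ k).symm
        · simp [Y, ω, q]
      exact DFunLike.congr_fun this N
    rw [h1] at h0
    obtain ⟨z, hz, hz'⟩ := hN' Ω ω h0
    refine ⟨fun k => z (some (Sum.inl k)), fun k => hz (some (Sum.inl k)), ?_⟩
    change pt w ^ e = _ at hz'
    rw [hz', aeval_rename]
    congr 2
    funext s
    rcases s with k | j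
    · rfl
    · have := hz (some (Sum.inr j))
      change z (some (Sum.inr j)) ^ 1 = 1 at this
      rw [pow_one] at this
      change algebraMap K₀ Ω (z (some (Sum.inr j))) * pt (u j) = pt (u j)
      rw [this, map_one, one_mul]

section forms

variable {σ : Type} {n r : ℕ} (u : Fin (n + 1) → σ) (w : Fin r → σ) (p ε : ℕ)
  (x : Fin r → Fin n → ℕ)

/-- The form `i` serves more than one colour. -/
def Multi (i : Fin r) : Prop := ∃ k k', k ≠ k' ∧ 0 < x i k ∧ 0 < x i k'

instance : DecidablePred (Multi x) := fun i => by unfold Multi; infer_instance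

/-- The form `i` serves the colour `k` only. -/
def Sgl (k : Fin n) (i : Fin r) : Prop := ¬ Multi x i ∧ 0 < x i k

instance (k : Fin n) : DecidablePred (Sgl x k) := fun i => by unfold Sgl; infer_instance

/-- The variables before the one of colour `k`. -/
def low (k : Fin n) : Finset (Fin (n + 1)) := Finset.univ.filter fun j => j.val ≤ k.val

/-- The variable reached by the chain of colour `k` after the indices `< m`. -/
def scur (k : Fin n) : ℕ → σ
  | 0 => u k.succ
  | m + 1 => if h : m < r then (if Sgl x k ⟨m, h⟩ then w ⟨m, h⟩ else scur k m) else scur k m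

/-- The stage at which a form enters. -/
def stage (i : Fin r) : ℕ := if Multi x i then r else i.val

/-- The element of which form `i` takes a root in colour `k`. -/
noncomputable def yf (R : Type*) [CommRing R] (i : Fin r) (k : Fin n) : MvPolynomial σ R :=
  if x i k = 0 then 0 else ∑ j ∈ low k,
    X (scur u w x k (stage x i)) ^ expo p ε j * X (u j) ^ (p ^ x i k - expo p ε j)

lemma scur_mem (k : Fin n) (S : Set σ) (hu : ∀ j, u j ∈ S) (m : ℕ)
    (hw : ∀ i : Fin r, i.val < m → Sgl x k i → w i ∈ S) : scur u w x k m ∈ S := by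
  induction m with
  | zero => exact hu _
  | succ m ih =>
    rw [scur]
    split_ifs with h h1
    · exact hw _ (Nat.lt_succ_self m) h1
    · exact ih fun i hi => hw i (by omega)
    · exact ih fun i hi => hw i (by omega)

lemma yf_homog {p ε : ℕ} (hp : p.Prime) (hx : ∀ i k, x i k = 0 ∨ ε < x i k) (R : Type*)
    [CommRing R] (i : Fin r) (k : Fin n) : (yf u w p ε x R i k).IsHomogeneous (p ^ x i k) := by
  unfold yf
  split_ifs with h
  · exact isHomogeneous_zero _ _ _
  · refine Submodule.sum_mem (homogeneousSubmodule σ R (p ^ x i k)) fun j hj => ?_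
    have h1 : IsHomogeneous (X (scur u w x k (stage x i)) ^ expo p ε j *
        X (u j) ^ (p ^ x i k - expo p ε j) : MvPolynomial σ R)
        (expo p ε j + (p ^ x i k - expo p ε j)) :=
      (isHomogeneous_X_pow _ _).mul (isHomogeneous_X_pow _ _)
    have h2 : expo p ε j ≤ p ^ x i k := ((expo_lt hp ε j).trans_le
      (Nat.pow_le_pow_right hp.pos ((hx i k).resolve_left h))).le
    rw [Nat.add_sub_cancel' h2] at h1
    exact h1

end forms

/-- The index type of the generic coefficients. -/
abbrev Cf (n r : ℕ) : Type := Fin r × Fin n × Fin (n + 1) × Fin n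

/-- The polynomial in the roots. -/
noncomputable def Fp {n r : ℕ} (x : Fin r → Fin n → ℕ) (K₀ : Type*) [Field K₀]
    (c : Cf n r → K₀) (e : ℕ) (i : Fin r) : MvPolynomial (Fin n ⊕ Fin (n + 1)) K₀ :=
  if Multi x i then ∑ k with 0 < x i k, ∑ j, ∑ a : Fin n,
    C (c (i, k, j, a)) * X (Sum.inl k) ^ (a.val + 1) * X (Sum.inr j) ^ (e - (a.val + 1))
  else ∑ k with 0 < x i k, X (Sum.inl k)

lemma Fp_homog {n r : ℕ} (x : Fin r → Fin n → ℕ) (K₀ : Type*) [Field K₀]
    (c : Cf n r → K₀) (e : ℕ) (i : Fin r) (h1 : Multi x i → n ≤ e) (h2 : ¬ Multi x i → e = 1) :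
    (Fp x K₀ c e i).IsHomogeneous e := by
  unfold Fp
  split_ifs with h
  · refine Submodule.sum_mem (homogeneousSubmodule _ K₀ e) fun k _ =>
      Submodule.sum_mem _ fun j _ => Submodule.sum_mem _ fun a _ => ?_
    have h3 : IsHomogeneous (C (c (i, k, j, a)) * X (Sum.inl k) ^ (a.val + 1) *
        X (Sum.inr j) ^ (e - (a.val + 1)) : MvPolynomial (Fin n ⊕ Fin (n + 1)) K₀)
        (0 + (a.val + 1) + (e - (a.val + 1))) :=
      ((isHomogeneous_C _ _).mul (isHomogeneous_X_pow _ _)).mul (isHomogeneous_X_pow _ _)
    have h4 := h1 h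
    have h5 := a.2
    rw [zero_add, Nat.add_sub_cancel' (by omega)] at h3
    exact h3
  · rw [h2 h]
    exact Submodule.sum_mem (homogeneousSubmodule _ K₀ 1) fun k _ => isHomogeneous_X _ _

lemma aeval_zero_of_homog {K Ω V : Type*} [Field K] [Field Ω] [Algebra K Ω]
    {F : MvPolynomial V K} {e : ℕ} (hF : F.IsHomogeneous e) (he : 0 < e) :
    aeval (0 : V → Ω) F = 0 := by
  rw [aeval_zero, constantCoeff_eq]
  have : coeff 0 F = 0 := IsHomogeneous.coeff_eq_zero hF (by simp; omega)
  rw [this, map_zero]

/-- **The special forms and the divisibility on their common zero locus.** -/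
theorem star_forms {σ : Type} [Finite σ] {n r : ℕ} (u : Fin (n + 1) → σ) (w : Fin r → σ)
    (huw : ∀ i, (∃ j, i = u j) ∨ ∃ j, i = w j) (d : Fin r → ℕ) {p L ε : ℕ} (hp : p.Prime)
    (hn : n ≤ (p - 1) * p ^ ε) (x : Fin r → Fin n → ℕ) (hx : ∀ i k, x i k = 0 ∨ ε < x i k)
    (h1 : ∀ i, p ^ (∑ k, x i k) ∣ d i)
    (h2 : ∀ k, L ≤ ∑ i, (x i k - ε))
    (h3 : ∀ k i i', Multi x i → Multi x i' → 0 < x i k → 0 < x i' k → i = i')
    (h4 : ∀ i, Multi x i → n * p ^ (∑ k, x i k) ≤ d i)
    {K₀ : Type} [Field K₀] [IsAlgClosed K₀] [CharZero K₀] (c : Cf n r → K₀)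
    (hc : AlgebraicIndependent ℚ c) :
    ∃ g : Fin r → MvPolynomial σ K₀, (∀ i, g i ∈ homogeneousSubmodule σ K₀ (d i)) ∧
      ∀ (κ : Type) [Field κ] [Algebra K₀ κ] [CharZero κ] (P : Ideal (MvPolynomial σ κ)),
        Homog P → P.IsPrime → (∀ i, map (algebraMap K₀ κ) (g i) ∈ P) →
        ∀ e : ℤ, EvAffine (hilb P) e → ((p : ℤ) ^ (L - loss (fun _ => ε) n)) ∣ e := by
  classical
  have hn' : n < p ^ (ε + 1) := by
    have h5 : (p - 1) * p ^ ε + p ^ ε = p ^ (ε + 1) := by
      rw [pow_succ, mul_comm (p ^ ε) p]
      nth_rewrite 2 [← one_mul (p ^ ε)]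
      rw [← add_mul, Nat.sub_add_cancel hp.one_lt.le]
    have h6 : 0 < p ^ ε := pow_pos hp.pos _
    omega
  -- the exponents
  let e' : Fin r → ℕ := fun i => if Multi x i then d i / p ^ (∑ k, x i k) else 1
  have he'm : ∀ i, Multi x i → n ≤ e' i := by
    intro i hi
    simp only [e', if_pos hi]
    exact (Nat.le_div_iff_mul_le (pow_pos hp.pos _)).2 (h4 i hi)
  have he's : ∀ i, ¬ Multi x i → e' i = 1 := by
    intro i hi
    simp only [e', if_neg hi]
  have hn1 : ∀ i, Multi x i → 0 < n := by
    rintro i ⟨k, _⟩
    exact Nat.pos_of_ne_zero (by rintro rfl; exact k.elim0)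
  have he'0 : ∀ i, 0 < e' i := by
    intro i
    by_cases hi : Multi x i
    · exact (hn1 i hi).trans_le (he'm i hi)
    · rw [he's i hi]; exact Nat.one_pos
  have hdeg : ∀ i, e' i * p ^ (∑ k, x i k) ∣ d i := by
    intro i
    by_cases hi : Multi x i
    · simp only [e', if_pos hi]
      rw [Nat.div_mul_cancel (h1 i)]
    · rw [he's i hi, one_mul]; exact h1 i
  -- the forms
  have hcore := fun i => exists_core hp.pos (x i) (Fp x K₀ c (e' i) i)
    (Fp_homog x K₀ c (e' i) i (he'm i) (he's i)) (w i) u (yf u w p ε x K₀ i)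
    (fun k => yf_homog u w x hp hx K₀ i k)
  choose core hcore1 hcore2 using hcore
  refine ⟨fun i => core i ^ (d i / (e' i * p ^ (∑ k, x i k))), ?_, ?_⟩
  · intro i
    have h := (hcore1 i).pow (d i / (e' i * p ^ (∑ k, x i k)))
    rw [Nat.mul_div_cancel' (hdeg i)] at h
    exact h
  intro κ _ _ _ P hP hpr hs e he
  have hs' : ∀ i, map (algebraMap K₀ κ) (core i) ∈ P := by
    intro i
    have h := hs i
    rw [map_pow] at h
    exact hpr.mem_of_pow_mem _ h
  have hmain := dvd_slope_of_cong' u P hP hpr ?_ (p ^ (L - loss (fun _ => ε) n)) ?_ e he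
  · exact_mod_cast hmain
  · -- finiteness
    intro Q hQ hQp hle hall i
    let A := MvPolynomial σ κ ⧸ Q
    let Ω := FractionRing A
    let mk : MvPolynomial σ κ →+* Ω := (algebraMap A Ω).comp (Ideal.Quotient.mk Q)
    have hmk : ∀ s, mk s = 0 ↔ s ∈ Q := by
      intro s
      change algebraMap A Ω (Ideal.Quotient.mk Q s) = 0 ↔ _
      rw [FaithfulSMul.algebraMap_eq_zero_iff, Ideal.Quotient.eq_zero_iff_mem]
    let algΩ : Algebra K₀ Ω := (mk.comp (C.comp (algebraMap K₀ κ))).toAlgebra
    let pt : σ → Ω := fun s => mk (X s)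
    have hev : ∀ s : MvPolynomial σ K₀, aeval pt s = mk (map (algebraMap K₀ κ) s) := by
      intro s
      rw [aeval_def]
      have : (eval₂Hom (algebraMap K₀ Ω) pt) = mk.comp (map (algebraMap K₀ κ)) := by
        refine ringHom_ext (fun a => ?_) fun s => ?_
        · rw [eval₂Hom_C, RingHom.comp_apply, map_C]; rfl
        · rw [eval₂Hom_X', RingHom.comp_apply, map_X]
      exact RingHom.congr_fun this s
    have hu0 : ∀ j, pt (u j) = 0 := fun j => (hmk _).2 (hall j)
    have hstep : ∀ i, (∀ k, 0 < x i k → pt (scur u w x k (stage x i)) = 0) → pt (w i) = 0 := by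
      intro i hi
      have hy0 : ∀ k, (0 : Ω) ^ (p ^ x i k) = aeval pt (yf u w p ε x K₀ i k) := by
        intro k
        rw [zero_pow (pow_pos hp.pos _).ne']
        unfold yf
        split_ifs with h
        · rw [map_zero]
        · rw [map_sum]
          symm
          refine Finset.sum_eq_zero fun j _ => ?_
          rw [map_mul, map_pow, aeval_X, hi k (Nat.pos_of_ne_zero h), zero_pow (by
            unfold expo; exact Nat.succ_ne_zero _), zero_mul]
      obtain ⟨z, _, hz⟩ := hcore2 i Ω pt (fun _ => 0) hy0 (by
        rw [hev, hmk]; exact hle (hs' i))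
      have h0 : (Sum.elim (fun k => algebraMap K₀ Ω (z k) * 0) fun j => pt (u j)) =
          (0 : Fin n ⊕ Fin (n + 1) → Ω) := by
        funext s
        rcases s with k | j
        · simp
        · simp [hu0 j]
      rw [h0, aeval_zero_of_homog (Fp_homog x K₀ c (e' i) i (he'm i) (he's i)) (he'0 i)] at hz
      exact pow_eq_zero_iff (he'0 i).ne' |>.1 hz
    have hsing : ∀ m : ℕ, ∀ i : Fin r, i.val = m → ¬ Multi x i → pt (w i) = 0 := by
      intro m
      induction m using Nat.strong_induction_on with
      | _ m ih =>
        intro i him hi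
        refine hstep i fun k _ => ?_
        have : scur u w x k (stage x i) ∈ {s | pt s = 0} := by
          refine scur_mem u w x k _ hu0 _ fun i' hi' hi'' => ?_
          unfold stage at hi'
          rw [if_neg hi] at hi'
          exact ih i'.val (by omega) i' rfl hi''.1
        exact this
    have hall' : ∀ i, pt (w i) = 0 := by
      intro i
      by_cases hi : Multi x i
      · refine hstep i fun k _ => ?_
        have : scur u w x k (stage x i) ∈ {s | pt s = 0} :=
          scur_mem u w x k _ hu0 _ fun i' _ hi'' => hsing _ i' rfl hi''.1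
        exact this
      · exact hsing _ i rfl hi
    rcases huw i with ⟨j, rfl⟩ | ⟨i', rfl⟩
    · exact hall j
    · exact (hmk _).1 (hall' i')
  · intro E _ _ xx hxP v hv j j' hj hj'
    let algE : Algebra K₀ E := ((algebraMap κ E).comp (algebraMap K₀ κ)).toAlgebra
    have hKE : ∀ a, algebraMap K₀ E a = algebraMap κ E (algebraMap K₀ κ a) := fun a => rfl
    have : IsScalarTower K₀ κ E := IsScalarTower.of_algebraMap_eq hKE
    have : CharZero E := charZero_of_injective_algebraMap (algebraMap κ E).injective
    -- the least index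
    obtain ⟨k₀, hk₀, hmin⟩ : ∃ k₀ : Fin (n + 1), xx (u k₀) ≠ 0 ∧
        ∀ k, xx (u k) ≠ 0 → k₀ ≤ k := by
      obtain ⟨k₀, h1, h2⟩ := (Finset.univ.filter fun k : Fin (n + 1) => xx (u k) ≠ 0)
        |>.exists_min_image id ⟨j, by simpa using hj⟩
      rw [Finset.mem_filter] at h1
      exact ⟨k₀, h1.2, fun k hk => h2 k (by simpa using hk)⟩
    -- normalised coordinates
    set y : σ → E := fun i => xx i / xx (u k₀) with hy
    have hyk₀ : y (u k₀) = 1 := div_self hk₀
    have hcorey : ∀ i, aeval y (core i) = 0 := by
      intro i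
      have h5 : (map (algebraMap K₀ κ) (core i)) ∈ homogeneousSubmodule σ κ
          (e' i * p ^ ∑ k, x i k) := (hcore1 i).map _
      have h6 := (hxP _ _ h5).2 (hs' i)
      have h7 := aeval_scale xx (xx (u k₀))⁻¹ h5
      rw [h6, zero_mul] at h7
      rw [aeval_map_algebraMap] at h7
      have h8 : y = fun i => xx i * (xx (u k₀))⁻¹ := by
        funext s; rw [hy]; simp only; rw [div_eq_mul_inv]
      rw [h8]; exact h7
    let Ω := AlgebraicClosure E
    let yΩ : σ → Ω := fun s => algebraMap E Ω (y s)
    have hΩ : ∀ s : MvPolynomial σ K₀, aeval yΩ s = algebraMap E Ω (aeval y s) := by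
      intro s
      exact aeval_algebraMap_apply Ω y s
    have hroots : ∀ i, ∃ θ : Fin n → Ω,
        (∀ k, θ k ^ (p ^ x i k) = algebraMap E Ω (aeval y (yf u w p ε x K₀ i k))) ∧
        yΩ (w i) ^ e' i = aeval (Sum.elim θ fun j => yΩ (u j)) (Fp x K₀ c (e' i) i) := by
      intro i
      have h5 : ∀ k, ∃ θ : Ω, θ ^ (p ^ x i k) = aeval yΩ (yf u w p ε x K₀ i k) := fun k =>
        IsAlgClosed.exists_pow_nat_eq _ (pow_pos hp.pos _)
      choose θ hθ using h5
      obtain ⟨z, hz, hz'⟩ := hcore2 i Ω yΩ θ hθ (by rw [hΩ, hcorey, map_zero])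
      refine ⟨fun k => algebraMap K₀ Ω (z k) * θ k, fun k => ?_, hz'⟩
      rw [mul_pow, ← map_pow, hz, map_one, one_mul, hθ, hΩ]
    have hyf : ∀ i k, 0 < x i k → aeval y (yf u w p ε x K₀ i k) = ∑ j ∈ low k,
        y (scur u w x k (stage x i)) ^ expo p ε j *
          y (u j) ^ (p ^ x i k - expo p ε j) := by
      intro i k hk
      unfold yf
      rw [if_neg hk.ne', map_sum]
      refine Finset.sum_congr rfl fun j _ => ?_
      rw [map_mul, map_pow, map_pow, aeval_X, aeval_X]
    -- forms serving one colour
    have hsgl : ∀ i k, Sgl x k i → y (w i) ^ (p ^ x i k) = ∑ j ∈ low k,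
        y (scur u w x k i) ^ expo p ε j * y (u j) ^ (p ^ x i k - expo p ε j) := by
      intro i k hik
      obtain ⟨θ, hθ1, hθ2⟩ := hroots i
      have hact : (Finset.univ.filter fun k' => 0 < x i k') = {k} := by
        ext k'
        rw [Finset.mem_filter, Finset.mem_singleton]
        constructor
        · rintro ⟨_, hk'⟩
          by_contra hne
          exact hik.1 ⟨k', k, hne, hk', hik.2⟩
        · rintro rfl; exact ⟨Finset.mem_univ _, hik.2⟩
      unfold Fp at hθ2
      rw [if_neg hik.1, hact, Finset.sum_singleton, aeval_X, Sum.elim_inl, he's i hik.1,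
        pow_one] at hθ2
      have h5 : algebraMap E Ω (y (w i) ^ (p ^ x i k)) =
          algebraMap E Ω (aeval y (yf u w p ε x K₀ i k)) := by
        rw [map_pow, ← hθ1 k, ← hθ2]
      rw [(algebraMap E Ω).injective h5, hyf i k hik.2]
      unfold stage
      rw [if_neg hik.1]
    -- forms serving several colours
    have hmul : ∀ m : Fin (n + 1), y (u m) ≠ 0 → lg v (y (u m)) ≠ 0 → ∀ i, Multi x i →
        ∀ k, 0 < x i k → ∃ t : E, t ^ (p ^ (x i k - ε)) = ∑ j ∈ low k,
          y (scur u w x k r) ^ expo p ε j * y (u j) ^ (p ^ x i k - expo p ε j) := by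
      intro m hm0 hm i hi k hk
      obtain ⟨θ, hθ1, hθ2⟩ := hroots i
      have hst : stage x i = r := if_pos hi
      have hεx : ε < x i k := (hx i k).resolve_left hk.ne'
      by_cases hθr : θ k ^ (p ^ ε) ∈ Set.range (algebraMap E Ω)
      · obtain ⟨t, ht⟩ := hθr
        refine ⟨t, ?_⟩
        have h5 : algebraMap E Ω (t ^ (p ^ (x i k - ε))) =
            algebraMap E Ω (aeval y (yf u w p ε x K₀ i k)) := by
          rw [map_pow, ht, ← pow_mul, ← pow_add, Nat.add_sub_cancel' hεx.le, hθ1 k]
        rw [(algebraMap E Ω).injective h5, hyf i k hk, hst]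
      · exfalso
        let T : Finset (Cf n r) := Finset.univ.image fun a : Fin n => (i, k, k₀, a)
        have hTcard : T.card = n := by
          rw [Finset.card_image_of_injective, Finset.card_univ, Fintype.card_fin]
          intro a b hab
          have := congrArg (fun z : Cf n r => z.2.2.2) hab
          exact this
        let Y : Finset Ω := (Finset.univ.erase k₀).image fun j => yΩ (u j)
        have hYcard : Y.card ≤ T.card := by
          rw [hTcard]
          refine Finset.card_image_le.trans ?_
          rw [Finset.card_erase_of_mem (Finset.mem_univ _), Finset.card_univ, Fintype.card_fin]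
          omega
        set S : Set Ω := ((fun i => algebraMap K₀ Ω (c i)) '' {i | i ∉ T}) ∪ (Y : Set Ω) with hS
        have hAu : ∀ j, yΩ (u j) ∈ algCl S := by
          intro j
          by_cases hjk : j = k₀
          · have : yΩ (u j) = 1 := by simp only [yΩ]; rw [hjk, hyk₀, map_one]
            rw [this]; exact (algCl S).one_mem
          · refine subset_algCl (Or.inr ?_)
            rw [Finset.mem_coe, Finset.mem_image]
            exact ⟨j, Finset.mem_erase.2 ⟨hjk, Finset.mem_univ _⟩, rfl⟩
        have hsum : ∀ (z : Ω) (q : ℕ) (k' : Fin n), z ∈ algCl S →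
            ∑ j ∈ low k', z ^ expo p ε j * yΩ (u j) ^ (q - expo p ε j) ∈ algCl S := by
          intro z q k' hz
          exact (algCl S).sum_mem fun j _ => (algCl S).mul_mem ((algCl S).pow_mem hz _)
            ((algCl S).pow_mem (hAu j) _)
        have hAw : ∀ m' : ℕ, ∀ i' : Fin r, i'.val = m' → ∀ k', Sgl x k' i' →
            yΩ (w i') ∈ algCl S := by
          intro m'
          induction m' using Nat.strong_induction_on with
          | _ m' ih =>
            intro i' him k' hk'
            refine pow_mem_algCl (pow_pos hp.pos (x i' k')) ?_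
            have h5 : yΩ (w i') ^ (p ^ x i' k') = ∑ j ∈ low k',
                yΩ (scur u w x k' i') ^ expo p ε j *
                  yΩ (u j) ^ (p ^ x i' k' - expo p ε j) := by
              simp only [yΩ]
              rw [← map_pow, hsgl i' k' hk', map_sum]
              refine Finset.sum_congr rfl fun j _ => ?_
              rw [map_mul, map_pow, map_pow]
            rw [h5]
            refine hsum _ _ _ ?_
            have : scur u w x k' i' ∈ {s | yΩ s ∈ algCl S} :=
              scur_mem u w x k' _ hAu _ fun i'' hi'' hs'' =>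
                ih i''.val (by omega) i'' rfl k' hs''
            exact this
        have hAθ : ∀ l ∈ Finset.univ.filter (fun l => 0 < x i l), θ l ∈ algCl S := by
          intro l hl
          have hl' : 0 < x i l := (Finset.mem_filter.1 hl).2
          refine pow_mem_algCl (pow_pos hp.pos (x i l)) ?_
          rw [hθ1 l, hyf i l hl', map_sum]
          have h5 : ∑ j ∈ low l, algebraMap E Ω (y (scur u w x l (stage x i)) ^ expo p ε j *
              y (u j) ^ (p ^ x i l - expo p ε j)) = ∑ j ∈ low l,
                yΩ (scur u w x l (stage x i)) ^ expo p ε j *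
                  yΩ (u j) ^ (p ^ x i l - expo p ε j) := by
            refine Finset.sum_congr rfl fun j _ => ?_
            simp only [yΩ]
            rw [map_mul, map_pow, map_pow]
          rw [h5]
          refine hsum _ _ _ ?_
          have : scur u w x l (stage x i) ∈ {s | yΩ s ∈ algCl S} :=
            scur_mem u w x l _ hAu _ fun i'' _ hs'' => hAw _ i'' rfl l hs''
          exact this
        have hmem : ∀ a : Fin n, algebraMap K₀ Ω (c (i, k, k₀, a)) ∈ algCl S := by
          refine kummer_mem (K₀ := K₀) (E := E) (Ω := Ω) hp hn' (x i)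
            (Finset.univ.filter fun l => 0 < x i l) θ (fun l _ => ⟨_, (hθ1 l).symm⟩)
            (fun j => y (u j)) k₀ hyk₀ (e' i) (fun l j a => c (i, l, j, a)) (y (w i) ^ e' i) ?_ k
            (by simpa using hk) hθr (algCl S) ?_ hAθ hAu
          · rw [map_pow]
            change yΩ (w i) ^ e' i = _
            rw [hθ2]
            unfold Fp
            rw [if_pos hi, map_sum]
            refine Finset.sum_congr rfl fun l _ => ?_
            rw [map_sum]
            refine Finset.sum_congr rfl fun j _ => ?_
            rw [map_sum]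
            refine Finset.sum_congr rfl fun a _ => ?_
            rw [map_mul, map_mul, map_pow, map_pow, aeval_X, aeval_X, aeval_C, Sum.elim_inl,
              Sum.elim_inr]
          · intro l _ j a hne
            refine subset_algCl (Or.inl ⟨(i, l, j, a), ?_, rfl⟩)
            intro hT
            obtain ⟨b, _, hb⟩ := Finset.mem_image.1 hT
            apply hne
            have e1 := congrArg (fun z : Cf n r => z.2.1) hb
            have e2 := congrArg (fun z : Cf n r => z.2.2.1) hb
            exact ⟨e1.symm, e2.symm⟩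
        refine not_all_mem c hc (yΩ (u m)) ?_ T Y hYcard ?_ (hAu m)
        · refine transcendental_of_val ?_
          rintro ⟨b, hb⟩
          apply hm
          have h5 : algebraMap E Ω (algebraMap K₀ E b) = algebraMap E Ω (y (u m)) := hb
          have h6 := (algebraMap E Ω).injective h5
          have hb0 : algebraMap K₀ κ b ≠ 0 := by
            intro h0
            apply hm0
            rw [← h6, hKE, h0, map_zero]
          unfold lg
          rw [← h6, hKE, hv _ hb0, WithZero.log_one]
        · intro t ht
          obtain ⟨a, _, rfl⟩ := Finset.mem_image.1 ht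
          exact hmem a
    have hcur : ∀ (k : Fin n) (m : ℕ), y (scur u w x k m) =
        curEl (Sgl x k) (y (u k.succ)) (fun i => y (w i)) m := by
      intro k m
      induction m with
      | zero => rfl
      | succ m ih =>
        rw [scur, curEl]
        by_cases h : m < r
        · rw [dif_pos h, dif_pos h]
          split_ifs
          · rfl
          · exact ih
        · rw [dif_neg h, dif_neg h]; exact ih
    have hcongr : ∀ (m : ℕ) (k : Fin (n + 1)), k.val = m → xx (u k) ≠ 0 →
        ((p : ℤ) ^ (L - loss (fun _ => ε) m)) ∣ lg v (y (u k)) := by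
      intro m
      induction m using Nat.strong_induction_on with
      | _ m ih =>
        intro k hkm hk
        rcases (hmin k hk).eq_or_lt with h | h
        · rw [← h, hyk₀, lg_one]; exact dvd_zero _
        · obtain ⟨k', rfl⟩ : ∃ k' : Fin n, k = k'.succ := by
            refine ⟨k.pred ?_, (Fin.succ_pred _ _).symm⟩
            rintro rfl
            exact absurd h (Fin.not_lt_zero _)
          have hkm' : k'.val + 1 = m := hkm
          have hk₀k' : k₀.val ≤ k'.val := by
            have : k₀.val < k'.val + 1 := h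
            omega
          have hyk0 : y (u k'.succ) ≠ 0 := div_ne_zero hk hk₀
          by_cases hlg : lg v (y (u k'.succ)) = 0
          · rw [hlg]; exact dvd_zero _
          rcases Nat.lt_or_ge L (loss (fun _ => ε) m) with hLm | hLm
          · rw [Nat.sub_eq_zero_of_le hLm.le, pow_zero]; exact one_dvd _
          have hloss : loss (fun _ => ε) k'.val ≤ loss (fun _ => ε) m := loss_mono _ (by omega)
          have hlt : ∀ j ∈ low k', j.val / bs p ε = 0 := by
            intro j hj
            unfold low at hj
            rw [Finset.mem_filter] at hj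
            have h5 := hj.2
            have h6 := k'.2
            exact Nat.div_eq_of_lt (by change j.val < (p - 1) * p ^ ε; omega)
          have hlt' : ∀ e, ε < e → ∀ j ∈ low k', expo p ε j < p ^ e := by
            intro e he j _
            exact (expo_lt hp ε j).trans_le (Nat.pow_le_pow_right hp.pos he)
          have hcop : ∀ j ∈ low k', IsCoprime (expo p ε j : ℤ) (p : ℤ) := fun j _ =>
            expo_coprime hp ε j
          have hpair : ∀ j ∈ low k', ∀ j' ∈ low k', j ≠ j' → ∃ (s : ℕ) (c : ℤ),
              (expo p ε j : ℤ) - expo p ε j' = (p : ℤ) ^ s * c ∧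
                IsCoprime c (p : ℤ) ∧ s + (L - loss (fun _ => ε) m) ≤
                  L - loss (fun _ => ε) k'.val := by
            intro j₁ hj₁ j₂ hj₂ hne
            obtain ⟨s, c, h1, h2, h3⟩ := exists_val (δ := ε) hp (expo_lt hp ε j₁)
              (expo_lt hp ε j₂) (fun h => hne (expo_inj' hp ε j₁ j₂
                ((hlt j₁ hj₁).trans (hlt j₂ hj₂).symm) h))
            refine ⟨s, c, h1, h2, ?_⟩
            unfold low at hj₁ hj₂
            rw [Finset.mem_filter] at hj₁ hj₂
            have e1 : j₁.val ≤ k'.val := hj₁.2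
            have e2 : j₂.val ≤ k'.val := hj₂.2
            have e3 : j₁.val ≠ j₂.val := fun h => hne (Fin.ext h)
            have e4 : loss (fun _ => ε) m = loss (fun _ => ε) k'.val + ε := by
              rw [← hkm']; exact loss_succ _ (by omega)
            omega
          have hJ : ∃ j ∈ low k', y (u j) ≠ 0 := by
            refine ⟨k₀, ?_, ?_⟩
            · unfold low
              rw [Finset.mem_filter]
              exact ⟨Finset.mem_univ _, hk₀k'⟩
            · rw [hyk₀]; exact one_ne_zero
          have hU : ∀ j ∈ low k', y (u j) ≠ 0 →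
              ((p : ℤ) ^ (L - loss (fun _ => ε) k'.val)) ∣ lg v (y (u j)) := by
            intro j hj hj0
            unfold low at hj
            rw [Finset.mem_filter] at hj
            have hj1 : j.val ≤ k'.val := hj.2
            have h5 := ih j.val (by omega) j rfl (by
              intro h0
              apply hj0
              simp [hy, h0])
            refine (pow_dvd_pow _ ?_).trans h5
            have e1 : loss (fun _ => ε) j.val ≤ loss (fun _ => ε) k'.val := loss_mono _ hj1
            omega
          have hε : ∀ i, 0 < x i k' → ε < x i k' := fun i hi => (hx i k').resolve_left hi.ne'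
          by_cases hex : ∃ i, Multi x i ∧ 0 < x i k'
          · obtain ⟨i₁, hi₁, hi₁k⟩ := hex
            obtain ⟨t, ht⟩ := hmul k'.succ hyk0 hlg i₁ hi₁ k' hi₁k
            refine chain_last v (L := L - loss (fun _ => ε) k'.val)
              (L' := L - loss (fun _ => ε) m) hp (low k') (fun j => expo p ε j) hcop hpair
              (fun j => y (u j)) (fun i => y (w i)) (Sgl x k') (fun i => x i k')
              (fun i hi => hlt' _ (hε i hi.2)) (y (u k'.succ)) hyk0 ?_ hJ hU t (p ^ x i₁ k')
              (x i₁ k' - ε) (hlt' _ (hε _ hi₁k)) ?_ (by omega) ?_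
            · intro i hi
              rw [hsgl i k' hi, hcur k']
            · rw [ht, hcur k']
            · refine (Nat.sub_le _ _).trans ((h2 k').trans ?_)
              rw [← Finset.add_sum_erase _ _ (Finset.mem_univ i₁), add_comm]
              refine Nat.add_le_add_right ?_ _
              refine (Finset.sum_le_sum (g := fun i => if Sgl x k' i then x i k' else 0)
                fun i hi => ?_).trans (Finset.sum_le_sum_of_subset (Finset.erase_subset _ _))
              by_cases h5 : Sgl x k' i
              · simp only [if_pos h5]; exact Nat.sub_le _ _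
              · simp only [if_neg h5]
                by_contra hpos
                have hpos' : 0 < x i k' := by omega
                have hM : Multi x i := by
                  by_contra hM
                  exact h5 ⟨hM, hpos'⟩
                exact (Finset.ne_of_mem_erase hi) (h3 k' i i₁ hM hi₁ hpos' hi₁k)
          · refine chain v (L := L - loss (fun _ => ε) k'.val)
              (L' := L - loss (fun _ => ε) m) hp (low k') (fun j => expo p ε j) hcop hpair
              (fun j => y (u j)) (fun i => y (w i)) (Sgl x k') (fun i => x i k')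
              (fun i hi => hlt' _ (hε i hi.2)) (y (u k'.succ)) hyk0 ?_ hJ hU (by omega) ?_
            · intro i hi
              rw [hsgl i k' hi, hcur k']
            · refine (Nat.sub_le _ _).trans ((h2 k').trans (Finset.sum_le_sum fun i _ => ?_))
              by_cases h5 : Sgl x k' i
              · simp only [if_pos h5]; exact Nat.sub_le _ _
              · simp only [if_neg h5]
                by_contra hpos
                have hpos' : 0 < x i k' := by omega
                refine hex ⟨i, ?_, hpos'⟩
                by_contra hM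
                exact h5 ⟨hM, hpos'⟩
    have hle : ∀ k : Fin (n + 1), L - loss (fun _ => ε) n ≤ L - loss (fun _ => ε) k.val := by
      intro k
      have : loss (fun _ => ε) k.val ≤ loss (fun _ => ε) n := loss_mono _ (by omega)
      omega
    have h5 := (pow_dvd_pow (p : ℤ) (hle j)).trans (hcongr _ j rfl hj)
    have h6 := (pow_dvd_pow (p : ℤ) (hle j')).trans (hcongr _ j' rfl hj')
    have h7 := dvd_sub h5 h6
    rw [hy] at h7
    simp only at h7
    rw [lg_div v hj hk₀, lg_div v hj' hk₀] at h7
    have h8 : lg v (xx (u j)) - lg v (xx (u k₀)) - (lg v (xx (u j')) - lg v (xx (u k₀))) =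
        lg v (xx (u j)) - lg v (xx (u j')) := by ring
    rw [h8] at h7
    push_cast
    exact h7

end Pool.Agent.CurveDeg
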