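import Mathlib

set_option autoImplicit false

namespace Pool.Agent.CurveDeg

open MvPolynomial

/-- Off countably many proper closed sets, the coordinates are algebraically independent
over the rationals. -/
theorem exists_bad (τ : Type*) [Countable τ] :
    ∃ bad : ℕ → MvPolynomial τ ℂ, (∀ j, bad j ≠ 0) ∧
      ∀ c : τ → ℂ, (∀ j, eval c (bad j) ≠ 0) → AlgebraicIndependent ℚ c := by
  haveI : Countable (MvPolynomial τ ℚ) := by
    rw [← Cardinal.mk_le_aleph0_iff]
    have h := MvPolynomial.cardinalMk_le_max_lift (σ := τ) (R := ℚ)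
    refine h.trans ?_
    simp [Cardinal.mk_le_aleph0]
  haveI : Nonempty {p : MvPolynomial τ ℚ // p ≠ 0} := ⟨⟨1, one_ne_zero⟩⟩
  obtain ⟨e, he⟩ := exists_surjective_nat {p : MvPolynomial τ ℚ // p ≠ 0}
  refine ⟨fun j => map (algebraMap ℚ ℂ) (e j).1, fun j => ?_, fun c hc => ?_⟩
  · intro h
    have h' : map (algebraMap ℚ ℂ) (e j).1 = map (algebraMap ℚ ℂ) 0 := by
      rw [map_zero]; exact h
    exact (e j).2 (map_injective _ (algebraMap ℚ ℂ).injective h')
  · rw [algebraicIndependent_iff]
    intro p hp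
    by_contra hp0
    obtain ⟨j, hj⟩ := he ⟨p, hp0⟩
    apply hc j
    show eval c (map (algebraMap ℚ ℂ) (e j).1) = 0
    rw [hj, eval_map, ← aeval_def]
    exact hp

end Pool.Agent.CurveDeg
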